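import Mathlib

/-!
# CUN: a block is clean (package Cln)

Characteristic two. Let `e = y * y'` with `y * y' * y = y` (so `e * e = e`, `e * y = y`),
`s = y' * e`: `y * s = e * e = e`, `s * e = s`. Blocks over `B = Matrix κ κ A`: columns
`a = (s, e)`, `b = (e, 0)`, rows `α = (0, e)`, `β = (e, e * s)`: `α a = e`, `α b = 0`,
`β a = e s + e s e = 0`, `β b = e`. `Y = diag(y, 0)`: `Y a = b` (`y s = e`), `Y b = b C` with
`C = y e` (`e y e = y e`). `g = a (α + β)`: `(α + β) a = e`, so `g * g = g`.
Let `pr = a α + b β` (the projection to `X = a B + b B`, an idempotent). The element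
`Z = 1 + Y + g`: on `X`: `Z a = a + b + a = b`, `Z b = b + b C + a`. Moreover `(1 + pr) Z = 1 + pr`:
the columns of `Y` and `g` are in `X` (`Y = b * (y, 0)`, since `e y = y`).
The inverse: `W` with `W b = a`, `W a = b + a (e + C)` (on `X`; check
`Z (b + a (e + C)) = b + b C + a + b (e + C) = a`), explicitly
`W = (1 + pr) + W₀ - (correction)`: let `W₀ = a β + (b + a (e + C)) α` (so `W₀ a = b + a (e + C)`,
`W₀ b = a`, `W₀ (1 + pr) = 0`), and `W = (1 + pr) + W₀ + W₀ Z (1 + pr)`.
Then `W Z = 1 = Z W` (decompose with respect to `pr`, `1 + pr`: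
`Z = pr Z pr + pr Z (1 + pr) + (1 + pr)`, block triangular with invertible diagonal blocks
`pr Z pr` (inverse `W₀`) and `1 + pr`).
Alternative: any direct verification by explicit `2 × 2` block computations.
-/

namespace Pool.Agent.CUN

private theorem cln_aux {B : Type} [Ring B] (h2 : ∀ a : B, a + a = 0) (y e s : B)
    (ee : e * e = e) (ey : e * y = y) (ys : y * s = e) (se : s * e = s) :
    (s * s + (s + s * s) * e = s ∧ s * (s + s * s) + (s + s * s) * (e + e * s) = s + s * s ∧
      e * s + (e + e * s) * e = e ∧ e * (s + s * s) + (e + e * s) * (e + e * s) = e + e * s) ∧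
    ((1 + y + s) * (1 + e + s + s * y + s * y * e) + (s + s * s) * (e + y + y * e) = 1 ∧
      (1 + y + s) * (s + e * s + s * s + e + s * y * e + s * y * e * s) +
        (s + s * s) * (1 + e + e * s + y * e + y * e * s) = 0 ∧
      e * (1 + e + s + s * y + s * y * e) + (1 + e + e * s) * (e + y + y * e) = 0 ∧
      e * (s + e * s + s * s + e + s * y * e + s * y * e * s) +
        (1 + e + e * s) * (1 + e + e * s + y * e + y * e * s) = 1) ∧
    ((1 + e + s + s * y + s * y * e) * (1 + y + s) +
        (s + e * s + s * s + e + s * y * e + s * y * e * s) * e = 1 ∧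
      (1 + e + s + s * y + s * y * e) * (s + s * s) +
        (s + e * s + s * s + e + s * y * e + s * y * e * s) * (1 + e + e * s) = 0 ∧
      (e + y + y * e) * (1 + y + s) + (1 + e + e * s + y * e + y * e * s) * e = 0 ∧
      (e + y + y * e) * (s + s * s) +
        (1 + e + e * s + y * e + y * e * s) * (1 + e + e * s) = 1) := by
  have h2' : ∀ a b : B, a + (a + b) = b := fun a b => by rw [← add_assoc, h2, zero_add]
  have ee' : ∀ z, e * (e * z) = e * z := fun z => by rw [← mul_assoc, ee]
  have ey' : ∀ z, e * (y * z) = y * z := fun z => by rw [← mul_assoc, ey]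
  have ys' : ∀ z, y * (s * z) = e * z := fun z => by rw [← mul_assoc, ys]
  have se' : ∀ z, s * (e * z) = s * z := fun z => by rw [← mul_assoc, se]
  refine ⟨⟨?_, ?_, ?_, ?_⟩, ⟨?_, ?_, ?_, ?_⟩, ⟨?_, ?_, ?_, ?_⟩⟩
  all_goals
    simp only [mul_add, add_mul, mul_assoc, one_mul, mul_one, ee, ey, ys, se, ee', ey', ys', se']
    simp only [add_comm, add_left_comm, add_assoc, h2, h2', add_zero]

theorem clean_block {A : Type} [Ring A] (h2 : ∀ a : A, a + a = 0) {κ : Type} [Fintype κ]
    [DecidableEq κ] (y y' : Matrix κ κ A) (hy : y * y' * y = y) :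
    ∃ g W : Matrix (κ ⊕ κ) (κ ⊕ κ) A, g * g = g ∧
      (1 + Matrix.fromBlocks y 0 0 0 + g) * W = 1 ∧
      W * (1 + Matrix.fromBlocks y 0 0 0 + g) = 1 := by
  have H2 : ∀ a : Matrix κ κ A, a + a = 0 := fun a => by
    ext i j
    exact h2 _
  set e := y * y' with he
  set s := y' * e with hs
  have ey : e * y = y := hy
  have ee : e * e = e := by rw [he, ← mul_assoc, hy]
  have ys : y * s = e := by rw [hs, ← mul_assoc, ← he, ee]
  have se : s * e = s := by rw [hs, mul_assoc, ee]
  obtain ⟨⟨g1, g2, g3, g4⟩, ⟨z1, z2, z3, z4⟩, ⟨w1, w2, w3, w4⟩⟩ := cln_aux H2 y e s ee ey ys se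
  have hZ : (1 + Matrix.fromBlocks y 0 0 0 + Matrix.fromBlocks s (s + s * s) e (e + e * s) :
      Matrix (κ ⊕ κ) (κ ⊕ κ) A) =
      Matrix.fromBlocks (1 + y + s) (s + s * s) e (1 + e + e * s) := by
    rw [← Matrix.fromBlocks_one, Matrix.fromBlocks_add, Matrix.fromBlocks_add]
    simp only [add_zero, zero_add, add_assoc]
  refine ⟨Matrix.fromBlocks s (s + s * s) e (e + e * s),
    Matrix.fromBlocks (1 + e + s + s * y + s * y * e)
      (s + e * s + s * s + e + s * y * e + s * y * e * s)
      (e + y + y * e) (1 + e + e * s + y * e + y * e * s), ?_, ?_, ?_⟩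
  · rw [Matrix.fromBlocks_multiply, g1, g2, g3, g4]
  · rw [hZ, Matrix.fromBlocks_multiply, z1, z2, z3, z4, Matrix.fromBlocks_one]
  · rw [hZ, Matrix.fromBlocks_multiply, w1, w2, w3, w4, Matrix.fromBlocks_one]

end Pool.Agent.CUN
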