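import Pool.Agent.CUN.Lv
import Pool.Agent.CUN.Cln

/-!
# CUN: one level, clean (package LvC)

All rings have characteristic two (`∀ a : A, a + a = 0` follows from `Algebra (ZMod 2) A`; the
same holds for the matrix rings). Prove the statement first for `phi0` and `L.eight` (replace
`phi A L g` by `phi0 A L g`; `L.next.ι` is `L.eight` by definition), then `exact`.

Case `g = (0, y)`: `dbl (dbl y)` has the quasi-inverse `dbl (dbl y')`. By `clean_block` there are an
idempotent `g₀` and an inverse `W` of `1 + Y + g₀`, `Y = fromBlocks (dbl (dbl y)) 0 0 0`, so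
`phi (0, y) = (0, Y) = (1, 1 + g₀) + (1, 1 + Y + g₀)`, an idempotent plus a unit.
Case `g = (1, y)`: `g = 1 + (0, 1 + y)`, `phi (0, 1 + y) = E + U`, so
`phi g = (1 + E) + U`, and `1 + E` is an idempotent.
-/

namespace Pool.Agent.CUN

private theorem lv_clean_zero (A : Type) [Ring A] [Algebra (ZMod 2) A] (L : Lv)
    (hreg : ∀ x : Matrix L.ι L.ι A, ∃ y, x * y * x = x) (h2 : ∀ a : A, a + a = 0)
    (y : Matrix L.ι L.ι A) :
    ∃ E U U' : ZMod 2 × Matrix L.eight L.eight A,
      E * E = E ∧ U * U' = 1 ∧ U' * U = 1 ∧ phi0 A L (0, y) = E + U := by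
  obtain ⟨y', hy'⟩ := hreg y
  have hY : dbl (dbl y) * dbl (dbl y') * dbl (dbl y) = dbl (dbl y) := by
    rw [← dblHom_apply A L.ι y, ← dblHom_apply A L.ι y', ← dblHom_apply A (L.ι ⊕ L.ι),
      ← dblHom_apply A (L.ι ⊕ L.ι), ← map_mul, ← map_mul, ← map_mul, ← map_mul, hy']
  obtain ⟨g, W, hg, hW1, hW2⟩ := clean_block h2 (dbl (dbl y)) (dbl (dbl y')) hY
  have h2m : ∀ M : Matrix L.eight L.eight A, M + M = 0 := by
    intro M
    ext i j
    exact h2 _
  refine ⟨(1, 1 + g), (1, 1 + Matrix.fromBlocks (dbl (dbl y)) 0 0 0 + g), (1, W), ?_, ?_, ?_, ?_⟩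
  · refine Prod.ext (by simp) ?_
    change (1 + g) * (1 + g) = 1 + g
    rw [mul_add, mul_one, add_mul, one_mul, hg, h2m, add_zero]
  · exact Prod.ext (by simp) hW1
  · exact Prod.ext (by simp) hW2
  · rw [phi0_apply, map_zero]
    refine Prod.ext ?_ ?_
    · change (0 : ZMod 2) = 1 + 1
      decide
    · change Matrix.fromBlocks (dbl (dbl y)) 0 0 0 =
        1 + g + (1 + Matrix.fromBlocks (dbl (dbl y)) 0 0 0 + g)
      have h3 : 1 + g + (1 + Matrix.fromBlocks (dbl (dbl y)) 0 0 0 + g) =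
        (1 + 1) + (g + g) + Matrix.fromBlocks (dbl (dbl y)) 0 0 0 := by abel
      rw [h3, h2m, h2m, add_zero, zero_add]

private theorem lv_clean0 (A : Type) [Ring A] [Algebra (ZMod 2) A] (L : Lv)
    (hreg : ∀ x : Matrix L.ι L.ι A, ∃ y, x * y * x = x) (g : GV A L) :
    ∃ E U U' : ZMod 2 × Matrix L.eight L.eight A,
      E * E = E ∧ U * U' = 1 ∧ U' * U = 1 ∧ phi0 A L g = E + U := by
  have h2 : ∀ a : A, a + a = 0 := by
    intro a
    have h : (2 : ZMod 2) • a = 0 := by
      rw [show (2 : ZMod 2) = 0 by decide, zero_smul]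
    rw [show (2 : ZMod 2) = 1 + 1 by decide, add_smul, one_smul] at h
    exact h
  have h2p : ∀ M : ZMod 2 × Matrix L.eight L.eight A, M + M = 0 := by
    intro M
    refine Prod.ext ?_ ?_
    · change M.1 + M.1 = 0
      generalize M.1 = c
      revert c
      decide
    · ext i j
      exact h2 _
  obtain ⟨c, y⟩ := g
  have hc : c = 0 ∨ c = 1 := by
    revert c
    decide
  rcases hc with rfl | rfl
  · exact lv_clean_zero A L hreg h2 y
  · obtain ⟨E, U, U', hE, h1, h3, h4⟩ := lv_clean_zero A L hreg h2 (y - 1)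
    refine ⟨1 + E, U, U', ?_, h1, h3, ?_⟩
    · rw [mul_add, mul_one, add_mul, one_mul, hE, h2p, add_zero]
    · have h5 : ((1, y) : ZMod 2 × Matrix L.ι L.ι A) = 1 + (0, y - 1) := by
        refine Prod.ext ?_ ?_
        · change (1 : ZMod 2) = 1 + 0
          rw [add_zero]
        · change y = 1 + (y - 1)
          abel
      rw [h5, map_add, map_one, h4, add_assoc]

theorem lv_clean (A : Type) [Ring A] [Algebra (ZMod 2) A] (L : Lv)
    (hreg : ∀ x : Matrix L.ι L.ι A, ∃ y, x * y * x = x) (g : GV A L) :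
    ∃ E U U' : GV A L.next, E * E = E ∧ U * U' = 1 ∧ U' * U = 1 ∧ phi A L g = E + U :=
  lv_clean0 A L hreg g

end Pool.Agent.CUN
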