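import Pool.Agent.CUN.Lv

/-!
# CUN: one level, the symbol (package LvS)

`P' = fromBlocks (dbl (dbl P)) 0 0 0`; `sg D (dbl x) = dbl (sg D x)` and
`sg D (fromBlocks x 0 0 0) = fromBlocks (sg D x) 0 0 0` (entrywise, `sg_apply`), the last block
vanishes as `algebraMap (ZMod 2) _ 0 = 0`.
-/

namespace Pool.Agent.CUN

variable {F : Type} [Field F] [Algebra (ZMod 2) F] {P : Type}

private theorem lvS_blocks (D : PD F P) {κ κ' : Type} [Fintype κ] [DecidableEq κ] [Fintype κ']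
    [DecidableEq κ'] (x : Matrix κ κ (T D)) (y : Matrix κ' κ' (T D)) :
    sg D (Matrix.fromBlocks x 0 0 y) = Matrix.fromBlocks (sg D x) 0 0 (sg D y) := by
  ext i j
  rcases i with i | i <;> rcases j with j | j <;> rfl

private theorem lvS_dbl (D : PD F P) {κ : Type} [Fintype κ] [DecidableEq κ]
    (x : Matrix κ κ (T D)) : sg D (dbl x) = dbl (sg D x) := lvS_blocks D x x

omit [Algebra (ZMod 2) F] in
private theorem lvS_smul {κ κ' : Type} (l : F) (x : Matrix κ κ F) (y : Matrix κ' κ' F) :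
    Matrix.fromBlocks (l • x) 0 0 (l • y) = l • Matrix.fromBlocks x 0 0 y := by
  rw [Matrix.fromBlocks_smul, smul_zero, smul_zero]

theorem lv_symb (D : PD F P) (L : Lv) (g : GV (T D) L) (Q : Matrix L.ι L.ι F) (l : F)
    (hQ : Q * Q = Q) (hQ0 : Q ≠ 0) (h1 : g.1 = 0) (h2 : sg D g.2 = l • Q) :
    ∃ Q' : Matrix L.next.ι L.next.ι F, Q' * Q' = Q' ∧ Q' ≠ 0 ∧ (phi (T D) L g).1 = 0 ∧
      sg D (phi (T D) L g).2 = l • Q' := by
  have key : ∃ Q' : Matrix L.eight L.eight F, Q' * Q' = Q' ∧ Q' ≠ 0 ∧ (phi0 (T D) L g).1 = 0 ∧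
      sg D (phi0 (T D) L g).2 = l • Q' := by
    refine ⟨Matrix.fromBlocks (dbl (dbl Q)) 0 0 0, ?_, ?_, ?_, ?_⟩
    · simp [dbl, Matrix.fromBlocks_multiply, hQ]
    · intro h
      apply hQ0
      ext i j
      exact congrFun (congrFun h (Sum.inl (Sum.inl (Sum.inl i)))) (Sum.inl (Sum.inl (Sum.inl j)))
    · rw [phi0_apply]
      exact h1
    · rw [phi0_apply]
      change sg D (Matrix.fromBlocks (dbl (dbl g.2)) 0 0
        (algebraMap (ZMod 2) (Matrix L.four L.four (T D)) g.1)) = _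
      rw [lvS_blocks, lvS_dbl, lvS_dbl, h2, h1, map_zero, map_zero]
      have h3 : dbl (dbl (l • Q)) = l • dbl (dbl Q) := by
        unfold dbl
        rw [lvS_smul, lvS_smul]
      rw [h3]
      have h4 := lvS_smul l (dbl (dbl Q)) (0 : Matrix L.four L.four F)
      rw [smul_zero] at h4
      exact h4
  exact key

end Pool.Agent.CUN
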