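import Pool.Agent.CUN.Base

/-!
# CUN: Lemma N (package LN)

Characteristic two. Write elements of `Matrix (κ ⊕ κ) (κ ⊕ κ) A` as `2 × 2` blocks over
`B = Matrix κ κ A`; columns `(x, y)` are `fromBlocks x 0 y 0`, rows `(x, y)` are
`fromBlocks x y 0 0` (or work with `Matrix (κ ⊕ κ) κ A` and `fromRows`, `fromCols`).
`s = q ^ K * b * e`: `q * s = q ^ (K + 1) * b * e = e`, `s * e = s`; `C = q * e = e * C * e`
(`e q e = e q ^ (K + 1) q b = q ^ (K + 1) q b = q e`).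
Columns `a = (s, e)`, `b₀ = (e, 0)`; row `β = (e, e * s)`: `β a = e s + e s e = 0`
(`s e = s`, characteristic two), `β b₀ = e`. `A = diag(q, 0)`: `A a = b₀`, `A b₀ = b₀ C`.
`b' = b₀ + a n₁`, `w = b' + a n₁ (C + n₁)`, `H = w β`: `β w = e`, so `H * H = w e β = H`.
`n₁ + n₂ = (1 + q) e = e + C`.
`(A + H) a = b₀ = b' + a n₁`. `(A + H) b' = A b₀ + A a n₁ + w β b' = b₀ C + b₀ n₁ + w
 = b₀ C + b₀ n₁ + b₀ + a n₁ + a n₁ C + a n₁ n₁ = b' (C + n₁ + e) = b' n₂`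
(`b' (C + n₁ + e) = b₀ C + b₀ n₁ + b₀ + a n₁ C + a n₁ n₁ + a n₁`). So with `X = a B + b' B`,
`A + H` maps `a x + b' y` to `a (n₁ x) + b' (e x + n₂ y)`; the powers:
`(A + H) ^ m (a x + b' y) = a (n₁ ^ m x) + b' (z + n₂ ^ m y)` where
`z = ∑ n₂ ^ i n₁ ^ (m - 1 - i) x`, so `(A + H) ^ m X = 0` for `m` large (`m ≥ m₁ + m₂`).
Finally `(A + H) ^ (K + 1)` maps everything into `X`: by induction on `j`,
`(A + H) ^ j - A ^ j` has all columns in `X` (`H` has, `A X ⊆ X`: `A a = b₀ = b' + a n₁`,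
`A b' = b₀ C + b₀ n₁`, `b₀ = b' + a n₁`), and
`A ^ (K + 1) = diag(q ^ (K + 1), 0) = b₀ * (q ^ (K + 1), 0)` as `e q ^ (K + 1) = q ^ (K + 1)`.
So `N = A + H` is nilpotent and `diag(q, 0) = H + N`.
-/

namespace Pool.Agent.CUN

open Matrix in
private theorem core {A : Type} [Ring A] {κ μ : Type} [Fintype κ]
    [DecidableEq κ] [Fintype μ] [DecidableEq μ] (N A' : Matrix μ μ A) (a b' : Matrix μ κ A)
    (β : Matrix κ μ A) (n₁ n₂ g : Matrix κ κ A) (K : ℕ)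
    (hN : N = A' + (b' + a * g) * β) (ha : N * a = b' + a * n₁) (hb : N * b' = b' * n₂)
    (h1 : IsNilpotent n₁) (h2 : IsNilpotent n₂)
    (hA : ∃ x y : Matrix κ μ A, A' ^ (K + 1) = a * x + b' * y) : IsNilpotent N := by
  obtain ⟨m₁, h1⟩ := h1
  obtain ⟨m₂, h2⟩ := h2
  have hbm : ∀ m : ℕ, N ^ m * b' = b' * n₂ ^ m := by
    intro m
    induction m with
    | zero => simp
    | succ m ih =>
      rw [pow_succ', Matrix.mul_assoc, ih, ← Matrix.mul_assoc, hb, Matrix.mul_assoc, ← pow_succ']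
  have ham : ∀ m : ℕ, ∃ z : Matrix κ κ A, N ^ m * a = a * n₁ ^ m + b' * z := by
    intro m
    induction m with
    | zero => exact ⟨0, by simp⟩
    | succ m ih =>
      obtain ⟨z, hz⟩ := ih
      refine ⟨n₁ ^ m + n₂ * z, ?_⟩
      rw [pow_succ', Matrix.mul_assoc, hz, Matrix.mul_add, ← Matrix.mul_assoc, ha,
        ← Matrix.mul_assoc, hb, Matrix.add_mul, Matrix.mul_add, Matrix.mul_assoc, Matrix.mul_assoc,
        ← pow_succ']
      abel
  have hall : ∀ j : ℕ, ∃ x y : Matrix κ μ A, N ^ j = A' ^ j + (a * x + b' * y) := by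
    intro j
    induction j with
    | zero => exact ⟨0, 0, by simp⟩
    | succ j ih =>
      obtain ⟨x, y, hxy⟩ := ih
      refine ⟨g * β * A' ^ j + n₁ * x, β * A' ^ j + x + n₂ * y, ?_⟩
      have e1 : N * A' ^ j = A' ^ (j + 1) + (b' * (β * A' ^ j) + a * (g * β * A' ^ j)) := by
        rw [hN, Matrix.add_mul, ← pow_succ']
        simp only [Matrix.add_mul, Matrix.mul_assoc]
      have e2 : N * (a * x) = b' * x + a * (n₁ * x) := by
        rw [← Matrix.mul_assoc, ha, Matrix.add_mul, Matrix.mul_assoc]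
      have e3 : N * (b' * y) = b' * (n₂ * y) := by
        rw [← Matrix.mul_assoc, hb, Matrix.mul_assoc]
      rw [pow_succ', hxy, Matrix.mul_add, Matrix.mul_add, e1, e2, e3]
      simp only [Matrix.mul_add]
      abel
  obtain ⟨x, y, hxy⟩ := hall (K + 1)
  obtain ⟨x', y', hxy'⟩ := hA
  obtain ⟨z, hz⟩ := ham m₁
  have kb : N ^ (m₂ + m₁) * b' = 0 := by
    rw [hbm, pow_add, h2, zero_mul, Matrix.mul_zero]
  have ka : N ^ (m₂ + m₁) * a = 0 := by
    rw [pow_add, Matrix.mul_assoc, hz, h1, Matrix.mul_zero, zero_add, ← Matrix.mul_assoc, hbm, h2,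
      Matrix.mul_zero, Matrix.zero_mul]
  refine ⟨m₂ + m₁ + (K + 1), ?_⟩
  rw [pow_add, hxy, hxy']
  simp only [Matrix.mul_add, ← Matrix.mul_assoc, ka, kb, Matrix.zero_mul, add_zero]

open Matrix in
theorem lemmaN {A : Type} [Ring A] (h2 : ∀ a : A, a + a = 0) {κ : Type} [Fintype κ]
    [DecidableEq κ] (q e b : Matrix κ κ A) (K : ℕ) (he : e * e = e)
    (hb : q ^ (K + 1) * b = e) (heq : e * q ^ (K + 1) = q ^ (K + 1))
    (hTN : TN e ((1 + q) * e)) :
    ∃ H N : Matrix (κ ⊕ κ) (κ ⊕ κ) A, H * H = H ∧ IsNilpotent N ∧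
      Matrix.fromBlocks q 0 0 0 = H + N := by
  have hc : ∀ {m n : Type} (x : Matrix m n A), x + x = 0 := by
    intro m n x
    ext i j
    exact h2 _
  obtain ⟨n₁, n₂, hn1, hn2, h3, h4, h5, h6, h7⟩ := hTN
  obtain ⟨s, hs⟩ : ∃ s, s = q ^ K * b * e := ⟨_, rfl⟩
  obtain ⟨C, hC⟩ : ∃ C, C = q * e := ⟨_, rfl⟩
  have hqs : q * s = e := by
    rw [hs, ← mul_assoc, ← mul_assoc, ← pow_succ', hb, he]
  have hse : s * e = s := by
    rw [hs, mul_assoc, he]
  have heC : e * C = C := by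
    have h8 : q * e = q ^ (K + 1) * (q * b) := by
      rw [← hb, ← mul_assoc, ← mul_assoc, ← pow_succ', ← pow_succ]
    rw [hC, h8, ← mul_assoc, heq]
  have hCe : C * e = C := by
    rw [hC, mul_assoc, he]
  have h7' : n₂ = n₁ + (e + C) := by
    have h8 : n₁ + n₂ = e + C := by
      rw [h7, hC, add_mul, one_mul]
    rw [← h8, ← add_assoc, hc, zero_add]
  obtain ⟨A', hA'⟩ : ∃ A' : Matrix (κ ⊕ κ) (κ ⊕ κ) A, A' = fromBlocks q 0 0 0 := ⟨_, rfl⟩
  obtain ⟨a, ha⟩ : ∃ a : Matrix (κ ⊕ κ) κ A, a = fromRows s e := ⟨_, rfl⟩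
  obtain ⟨b₀, hb₀⟩ : ∃ b₀ : Matrix (κ ⊕ κ) κ A, b₀ = fromRows e 0 := ⟨_, rfl⟩
  obtain ⟨β, hβ⟩ : ∃ β : Matrix κ (κ ⊕ κ) A, β = fromCols e (e * s) := ⟨_, rfl⟩
  have hβa : β * a = 0 := by
    rw [hβ, ha, fromCols_mul_fromRows, mul_assoc, hse, hc]
  have hβb : β * b₀ = e := by
    rw [hβ, hb₀, fromCols_mul_fromRows, he, mul_zero, add_zero]
  have hAa : A' * a = b₀ := by
    rw [hA', ha, hb₀, fromBlocks_mul_fromRows]
    simp [hqs]
  have hAb : A' * b₀ = b₀ * C := by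
    rw [hA', hb₀, fromBlocks_mul_fromRows, fromRows_mul, heC, hC]
    simp
  have heβ : e * β = β := by
    rw [hβ, mul_fromCols, ← mul_assoc, he]
  have hbe : b₀ * e = b₀ := by
    rw [hb₀, fromRows_mul, he, zero_mul]
  obtain ⟨g, hg⟩ : ∃ g, g = n₁ * (C + n₁) := ⟨_, rfl⟩
  obtain ⟨b', hb'⟩ : ∃ b', b' = b₀ + a * n₁ := ⟨_, rfl⟩
  have hb0' : b₀ = b' + a * n₁ := by
    rw [hb', add_assoc, hc, add_zero]
  have hge : g * e = g := by
    rw [hg, mul_assoc, add_mul, hCe, h4]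
  have hb'e : b' * e = b' := by
    rw [hb', Matrix.add_mul, hbe, Matrix.mul_assoc, h4]
  have hβb' : β * b' = e := by
    rw [hb', Matrix.mul_add, hβb, ← Matrix.mul_assoc, hβa, Matrix.zero_mul, add_zero]
  have hβw : β * (b' + a * g) = e := by
    rw [Matrix.mul_add, hβb', ← Matrix.mul_assoc, hβa, Matrix.zero_mul, add_zero]
  have hNa : (A' + (b' + a * g) * β) * a = b' + a * n₁ := by
    rw [Matrix.add_mul, hAa, Matrix.mul_assoc, hβa, Matrix.mul_zero, add_zero, hb0']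
  have hNb : (A' + (b' + a * g) * β) * b' = b' * n₂ := by
    have e1 : A' * b' = b₀ * C + b₀ * n₁ := by
      rw [hb', Matrix.mul_add, hAb, ← Matrix.mul_assoc, hAa]
    have e2 : (b' + a * g) * β * b' = b' + a * g := by
      rw [Matrix.mul_assoc, hβb', Matrix.add_mul, hb'e, Matrix.mul_assoc, hge]
    have e3 : b' * n₂ = b' * n₁ + (b' + b' * C) := by
      rw [h7', Matrix.mul_add, Matrix.mul_add, hb'e]
    have e4 : b' * n₁ = b₀ * n₁ + a * (n₁ * n₁) := by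
      rw [hb', Matrix.add_mul, Matrix.mul_assoc]
    have e5 : b' * C = b₀ * C + a * (n₁ * C) := by
      rw [hb', Matrix.add_mul, Matrix.mul_assoc]
    have e6 : a * g = a * (n₁ * C) + a * (n₁ * n₁) := by
      rw [hg, mul_add, Matrix.mul_add]
    rw [Matrix.add_mul, e1, e2, e3, e4, e5, e6]
    abel
  have hH : (b' + a * g) * β * ((b' + a * g) * β) = (b' + a * g) * β := by
    rw [← Matrix.mul_assoc, Matrix.mul_assoc (b' + a * g) β, hβw, Matrix.mul_assoc, heβ]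
  have hApow : ∀ j : ℕ, A' ^ (j + 1) = fromBlocks (q ^ (j + 1)) 0 0 0 := by
    intro j
    induction j with
    | zero => rw [zero_add, pow_one, pow_one, hA']
    | succ j ih =>
      rw [pow_succ, ih, hA', fromBlocks_multiply]
      simp [pow_succ]
  have hAX : ∃ x y : Matrix κ (κ ⊕ κ) A, A' ^ (K + 1) = a * x + b' * y := by
    refine ⟨n₁ * fromCols (q ^ (K + 1)) 0, fromCols (q ^ (K + 1)) 0, ?_⟩
    have e1 : A' ^ (K + 1) = b₀ * fromCols (q ^ (K + 1)) (0 : Matrix κ κ A) := by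
      rw [hApow, hb₀, fromRows_mul_fromCols]
      simp [heq]
    rw [e1, hb0', Matrix.add_mul, Matrix.mul_assoc, add_comm]
  have hnil := core (A' + (b' + a * g) * β) A' a b' β n₁ n₂ g K rfl hNa hNb hn1 hn2 hAX
  refine ⟨(b' + a * g) * β, A' + (b' + a * g) * β, hH, hnil, ?_⟩
  rw [← hA', add_left_comm, hc, add_zero]

end Pool.Agent.CUN
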