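import Pool.Agent.CUN.Lv
import Pool.Agent.CUN.LN

/-!
# CUN: one level, units (package LvU)

All rings have characteristic two (`∀ a : A, a + a = 0` follows from `Algebra (ZMod 2) A`; the
same holds for the matrix rings). Prove the statement first for `phi0` and `L.eight` (replace
`phi A L g` by `phi0 A L g`; `L.next.ι` is `L.eight` by definition), then `exact`.

`g = (c, u)`, `g' = (c', u')`: `c * c' = 1` in `ZMod 2`, so `c = 1`; `u * u' = 1 = u' * u`.
Take `K, e, b` of `hu`. Let `q = dbl (dbl (1 + u))`, `E' = dbl (dbl e)`, `b' = dbl (dbl b)`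
(`dblHom` is a ring homomorphism): `q ^ (K + 1) * b' = E'`, `E' * q ^ (K + 1) = q ^ (K + 1)`,
`(1 + q) * E' = dbl (dbl (u * e))` (`1 + (1 + u) = u`). `lemmaN` gives
`fromBlocks q 0 0 0 = H + N`. So `phi (0, 1 + u) = (0, H) + (0, N)` and, as
`g = (1, u) = 1 + (0, 1 + u)`, `phi g = (1, 1 + H) + (0, N)`; `1 + H` is an idempotent.
-/

namespace Pool.Agent.CUN

private theorem add_self_alg {B : Type} [Ring B] [Algebra (ZMod 2) B] (a : B) : a + a = 0 := by
  have h : (1 + 1 : ZMod 2) = 0 := by decide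
  calc a + a = (1 : ZMod 2) • a + (1 : ZMod 2) • a := by rw [one_smul]
    _ = (1 + 1 : ZMod 2) • a := (add_smul _ _ _).symm
    _ = 0 := by rw [h, zero_smul]

theorem lv_unit (A : Type) [Ring A] [Algebra (ZMod 2) A] (L : Lv)
    (hu : ∀ u u' : Matrix L.ι L.ι A, u * u' = 1 → u' * u = 1 →
      ∃ (K : ℕ) (e b : Matrix L.ι L.ι A), e * e = e ∧ (1 + u) ^ (K + 1) * b = e ∧
        e * (1 + u) ^ (K + 1) = (1 + u) ^ (K + 1) ∧ TN (dbl (dbl e)) (dbl (dbl (u * e))))
    (g g' : GV A L) (h : g * g' = 1) (h' : g' * g = 1) :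
    ∃ E N : GV A L.next, E * E = E ∧ IsNilpotent N ∧ phi A L g = E + N := by
  have key : ∃ E N : ZMod 2 × Matrix L.eight L.eight A, E * E = E ∧ IsNilpotent N ∧
      phi0 A L g = E + N := by
    obtain ⟨c, u⟩ := g
    obtain ⟨c', u'⟩ := g'
    have hc : c * c' = 1 := congrArg Prod.fst h
    have hu1 : u * u' = 1 := congrArg Prod.snd h
    have hu2 : u' * u = 1 := congrArg Prod.snd h'
    have hdec : ∀ a b : ZMod 2, a * b = 1 → a = 1 := by decide
    have hc1 : c = 1 := hdec c c' hc
    subst hc1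
    obtain ⟨K, e, b, he, hb, heq, hTN⟩ := hu u u' hu1 hu2
    set f : Matrix L.ι L.ι A →+* Matrix L.four L.four A :=
      (dblHom A (L.ι ⊕ L.ι)).comp (dblHom A L.ι) with hf
    have hfa : ∀ x, f x = dbl (dbl x) := fun x => rfl
    have h11 : (1 : Matrix L.ι L.ι A) + (1 + u) = u := by
      rw [← add_assoc, add_self_alg, zero_add]
    have hq : 1 + f (1 + u) = f u := by
      rw [← map_one f, ← map_add, h11]
    obtain ⟨H, N, hH, hN, hHN⟩ := lemmaN (A := A) add_self_alg (κ := L.four) (f (1 + u)) (f e)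
      (f b) K (by rw [← map_mul, he]) (by rw [← map_pow, ← map_mul, hb])
      (by rw [← map_pow, ← map_mul, heq]) (by
        rw [hq, ← map_mul, hfa, hfa]
        exact hTN)
    refine ⟨(1, 1 + H), (0, N), ?_, ?_, ?_⟩
    · ext1
      · exact one_mul 1
      · change (1 + H) * (1 + H) = 1 + H
        rw [mul_add, mul_one, add_mul, one_mul, hH, add_self_alg, add_zero]
    · obtain ⟨n, hn⟩ := hN
      refine ⟨n + 1, ?_⟩
      ext1
      · change (0 : ZMod 2) ^ (n + 1) = 0
        rw [pow_succ, mul_zero]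
      · change N ^ (n + 1) = 0
        rw [pow_succ, hn, zero_mul]
    · rw [phi0_apply]
      ext1
      · change (1 : ZMod 2) = 1 + 0
        rw [add_zero]
      · change Matrix.fromBlocks (dbl (dbl u)) 0 0
          (algebraMap (ZMod 2) (Matrix L.four L.four A) 1) = 1 + H + N
        have e1 : (1 : Matrix L.eight L.eight A) =
            Matrix.fromBlocks (1 : Matrix L.four L.four A) 0 0 1 := Matrix.fromBlocks_one.symm
        rw [add_assoc, ← hHN, map_one, e1, Matrix.fromBlocks_add, hq, hfa, add_zero, add_zero]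
  exact key

end Pool.Agent.CUN
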