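import Mathlib

/-!
# CUN: a scalar multiple of an idempotent is not nil-clean (package NN)

Characteristic two (`F` is an algebra over `ZMod 2`). `h = l • p + n` and `h * h = h` give
(*) `n * p + p * n = l⁻¹ • (n ^ 2 + n) + (l + 1) • p`.
Auxiliary fact (**): `y * n = (l + 1) • y` and `n` nilpotent imply `y = 0` (`l + 1 ≠ 0`).
Let `k` be minimal with `n ^ k = 0` (`Nat.find` or `nilpotencyClass`). If `k = 0` the ring is
trivial. Suppose `k ≥ 1`. `n ^ (k - 1) * (*)`: `y = n ^ (k - 1) * p` satisfies
`y * n = (l + 1) • y`, so `y = 0`. If `k ≥ 2`, `n ^ (k - 2) * (*)`: `y' = n ^ (k - 2) * p`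
satisfies `y' * n = l⁻¹ • n ^ (k - 1) + (l + 1) • y'`; times `n`:
`(y' * n) * n = (l + 1) • (y' * n)`, so `y' * n = 0`, so `n ^ (k - 1) = (l * (l + 1)) • y'`; times
`p`: `0 = n ^ (k - 1) * p = (l * (l + 1)) • y'`, so `n ^ (k - 1) = 0`, a contradiction. So
`k = 1`, `n = 0`, `h = l • p`, `l ^ 2 • p = l • p`, so `p = 0`.
-/

namespace Pool.Agent.CUN

theorem not_nc {F B : Type} [Field F] [Algebra (ZMod 2) F] [Ring B] [Algebra F B] (l : F)
    (h0 : l ≠ 0) (h1 : l ≠ 1) (p h n : B) (hp : p * p = p) (hh : h * h = h)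
    (hn : IsNilpotent n) (hsum : l • p = h + n) : p = 0 := by
  have hF2 : (2 : F) = 0 := by
    have h3 : algebraMap (ZMod 2) F 2 = 2 := map_ofNat _ 2
    rw [← h3, show (2 : ZMod 2) = 0 from rfl, map_zero]
  have hdbl : ∀ x : B, x + x = 0 := by
    intro x
    rw [← two_smul F x, hF2, zero_smul]
  have hl1 : l + 1 ≠ 0 := by
    intro hc
    apply h1
    have h3 : (1 : F) + 1 = 0 := by rw [one_add_one_eq_two, hF2]
    linear_combination hc - h3
  obtain ⟨c, hc⟩ : ∃ c, c = l * (l + 1) := ⟨_, rfl⟩
  have hc0 : c ≠ 0 := by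
    rw [hc]
    exact mul_ne_zero h0 hl1
  have hh' : h = l • p - n := by
    rw [hsum]
    abel
  have star : l • (p * n + n * p) = n * n + n + c • p := by
    have h3 : (l • p - n) * (l • p - n) = l • p - n := by
      rw [← hh']
      exact hh
    have h4 : (l • p - n) * (l • p - n) = (l * l) • p - l • (p * n + n * p) + n * n := by
      rw [sub_mul, mul_sub, mul_sub, smul_mul_smul_comm, hp, smul_mul_assoc, mul_smul_comm,
        smul_add]
      abel
    rw [h4] at h3
    have h5 : l • (p * n + n * p) = (l * l) • p + n * n - (l • p - n) := by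
      rw [← h3]
      abel
    rw [h5, hc, mul_add, mul_one, add_smul, ← sub_eq_zero]
    have h6 : (l * l) • p + n * n - (l • p - n) - (n * n + n + ((l * l) • p + l • p)) =
        -(l • p + l • p) := by abel
    rw [h6, hdbl, neg_zero]
  have sstar : ∀ y : B, l • (y * n) = c • y → y = 0 := by
    intro y hy
    have h3 : y * n = (l + 1) • y := by
      have h4 := congrArg (fun z => l⁻¹ • z) hy
      simp only [smul_smul, hc] at h4
      rw [← mul_assoc, inv_mul_cancel₀ h0, one_smul, one_mul] at h4
      exact h4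
    obtain ⟨m, hm⟩ := hn
    have h4 : ∀ j : ℕ, y * n ^ j = (l + 1) ^ j • y := by
      intro j
      induction j with
      | zero => simp
      | succ j ih => rw [pow_succ', ← mul_assoc, h3, smul_mul_assoc, ih, smul_smul, pow_succ']
    have h5 := h4 m
    rw [hm, mul_zero] at h5
    exact (smul_eq_zero.1 h5.symm).resolve_left (pow_ne_zero m hl1)
  obtain ⟨k, hk, hmin⟩ : ∃ k, n ^ k = 0 ∧ ∀ j < k, n ^ j ≠ 0 := by
    classical
    have hn' : ∃ j, n ^ j = 0 := hn
    exact ⟨Nat.find hn', Nat.find_spec hn', fun j hj => Nat.find_min hn' hj⟩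
  rcases k with _ | _ | k
  · have h3 : (1 : B) = 0 := by simpa using hk
    rw [← one_mul p, h3, zero_mul]
  · have h3 : n = 0 := by simpa using hk
    rw [h3] at star
    simp only [mul_zero, zero_mul, add_zero, smul_zero, zero_add] at star
    exact (smul_eq_zero.1 star.symm).resolve_left hc0
  · exfalso
    have hk' : n ^ (k + 1) * n = 0 := by
      rw [← pow_succ]
      exact hk
    have hy : n ^ (k + 1) * p = 0 := by
      apply sstar
      have h3 := congrArg (fun z => n ^ (k + 1) * z) star
      rw [mul_smul_comm, mul_add, mul_add, mul_add, mul_smul_comm] at h3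
      rw [← mul_assoc (n ^ (k + 1)) n p, ← mul_assoc (n ^ (k + 1)) n n, hk', zero_mul, zero_mul,
        add_zero, zero_add, zero_add, ← mul_assoc] at h3
      exact h3
    have hy1 : l • (n ^ k * p * n) = n ^ (k + 1) + c • (n ^ k * p) := by
      have h3 := congrArg (fun z => n ^ k * z) star
      rw [mul_smul_comm, mul_add, mul_add, mul_add, mul_smul_comm] at h3
      rw [← mul_assoc (n ^ k) n p, ← mul_assoc (n ^ k) n n, ← pow_succ, hy, hk', add_zero,
        zero_add, ← mul_assoc] at h3
      exact h3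
    have hy2 : n ^ k * p * n = 0 := by
      apply sstar
      have h3 := congrArg (fun z => z * n) hy1
      rw [smul_mul_assoc, add_mul, hk', zero_add, smul_mul_assoc] at h3
      exact h3
    rw [hy2, smul_zero] at hy1
    have hy3 : c • (n ^ k * p) = 0 := by
      have h3 := congrArg (fun z => z * p) hy1
      rw [zero_mul, add_mul, hy, zero_add, smul_mul_assoc, mul_assoc, hp] at h3
      exact h3.symm
    rw [hy3, add_zero] at hy1
    exact hmin (k + 1) (Nat.lt_succ_self _) hy1.symm

end Pool.Agent.CUN
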