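import Pool.Agent.CUN.U
import Pool.Agent.CUN.LvC
import Pool.Agent.CUN.LvU
import Pool.Agent.CUN.LvS
import Pool.Agent.CUN.NN

/-!
# CUN: assembly of the direct limit
-/

namespace Pool.Agent.CUN

section

variable {G : ℕ → Type} [∀ n, Ring (G n)] (φ : ∀ n, G n →+* G (n + 1))

theorem tr_zero_of_le {n k : ℕ} {g : G n} (h : tr φ n k g = 0) :
    ∀ j, tr φ n (k + j) g = 0
  | 0 => h
  | j + 1 => by
    change φ (n + (k + j)) (tr φ n (k + j) g) = 0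
    rw [tr_zero_of_le h j, map_zero]

theorem tr_zero_ge {n k m : ℕ} {g : G n} (h : tr φ n k g = 0) (hkm : k ≤ m) :
    tr φ n m g = 0 := by
  obtain ⟨j, rfl⟩ := Nat.exists_eq_add_of_le hkm
  exact tr_zero_of_le φ h j

variable {R : Type} [Ring R] (ι : ∀ n, G n →+* R)

theorem iota_tr (hι : ∀ n g, ι (n + 1) (φ n g) = ι n g) (n : ℕ) (g : G n) :
    ∀ k, ι (n + k) (tr φ n k g) = ι n g
  | 0 => rfl
  | k + 1 => by
    change ι (n + k + 1) (φ (n + k) (tr φ n k g)) = _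
    rw [hι, iota_tr hι n g k]

theorem rep_ge (hι : ∀ n g, ι (n + 1) (φ n g) = ι n g) (hs : ∀ r : R, ∃ n g, ι n g = r)
    (r : R) : ∃ n₀, ∀ n, n₀ ≤ n → ∃ g : G n, ι n g = r := by
  obtain ⟨n, g, rfl⟩ := hs r
  refine ⟨n, fun m hm => ?_⟩
  obtain ⟨k, rfl⟩ := Nat.exists_eq_add_of_le hm
  exact ⟨tr φ n k g, iota_tr φ ι hι n g k⟩

end

section

variable {F : Type} [Field F] [Algebra (ZMod 2) F] {P : Type}

/-- The ring of level `n`. -/
def Gn (D : PD F P) (n : ℕ) : Type := GV (T D) (lv n)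

noncomputable instance instRingGn (D : PD F P) (n : ℕ) : Ring (Gn D n) :=
  inferInstanceAs (Ring (GV (T D) (lv n)))

/-- The transition map of level `n`. -/
noncomputable def phn (D : PD F P) (n : ℕ) : Gn D n →+* Gn D (n + 1) := phi (T D) (lv n)

/-- The symbol property of the bad element. -/
def Bad (D : PD F P) (l : F) (n : ℕ) (g : Gn D n) : Prop :=
  (show GV (T D) (lv n) from g).1 = 0 ∧ ∃ Q : Matrix (lv n).ι (lv n).ι F, Q * Q = Q ∧ Q ≠ 0 ∧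
    sg D (show GV (T D) (lv n) from g).2 = l • Q

theorem Bad.next {D : PD F P} {l : F} {n : ℕ} {g : Gn D n} (h : Bad D l n g) :
    Bad D l (n + 1) (phn D n g) := by
  obtain ⟨h1, Q, hQ, hQ0, h2⟩ := h
  obtain ⟨Q', hQ', hQ0', h3, h4⟩ := lv_symb D (lv n) g Q l hQ hQ0 h1 h2
  exact ⟨h3, Q', hQ', hQ0', h4⟩

theorem Bad.tr {D : PD F P} {l : F} {n : ℕ} {g : Gn D n} (h : Bad D l n g) :
    ∀ k, Bad D l (n + k) (CUN.tr (phn D) n k g)
  | 0 => h
  | k + 1 => (Bad.tr h k).next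

/-- The symbol of the second component. -/
noncomputable def sg2 (D : PD F P) (n : ℕ) : Gn D n →+* Matrix (lv n).ι (lv n).ι F :=
  (sg D).comp (RingHom.snd (ZMod 2) (Matrix (lv n).ι (lv n).ι (T D)))

theorem gn_add_self (D : PD F P) (n : ℕ) (g : Gn D n) : g + g = 0 := by
  obtain ⟨c, y⟩ := (g : GV (T D) (lv n))
  exact Prod.ext (CharTwo.add_self_eq_zero c) (Matrix.ext fun i j => add_selfT D (y i j))

theorem gn_clean (D : PD F P) (n : ℕ) (g : Gn D n) :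
    ∃ E U U' : Gn D (n + 1), E * E = E ∧ U * U' = 1 ∧ U' * U = 1 ∧ phn D n g = E + U :=
  lv_clean (T D) (lv n) (fun x => mat_reg D x) g

theorem gn_unit (D : PD F P) (n : ℕ) (g g' : Gn D n) (h : g * g' = 1) (h' : g' * g = 1) :
    ∃ E N : Gn D (n + 1), E * E = E ∧ IsNilpotent N ∧ phn D n g = E + N :=
  lv_unit (T D) (lv n) (fun u u' h h' => unit_two D u u' h h') g g' h h'

theorem main_D (D : PD F P) (l : F) (h0 : l ≠ 0) (h1 : l ≠ 1) :
    ∃ (R : Type) (_ : Ring R), (∀ a : R, a + a = 0) ∧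
      (∀ a : R, ∃ e u : R, e * e = e ∧ IsUnit u ∧ a = e + u) ∧
      (∀ u : R, IsUnit u → ∃ e : R, e * e = e ∧ IsNilpotent (u - e)) ∧
      ∃ a : R, ∀ e : R, e * e = e → ¬ IsNilpotent (a - e) := by
  obtain ⟨R, hR, ι, hι, hs, hz⟩ := lim_exists (Gn D) (phn D)
  refine ⟨R, hR, ?_, ?_, ?_, ?_⟩
  · intro a
    obtain ⟨n, g, rfl⟩ := hs a
    rw [← map_add, gn_add_self, map_zero]
  · intro a
    obtain ⟨n, g, rfl⟩ := hs a
    obtain ⟨E, U, U', hE, hU, hU', hsum⟩ := gn_clean D n g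
    refine ⟨ι (n + 1) E, ι (n + 1) U, ?_, ?_, ?_⟩
    · rw [← map_mul, hE]
    · refine ⟨⟨ι (n + 1) U, ι (n + 1) U', ?_, ?_⟩, rfl⟩
      · rw [← map_mul, hU, map_one]
      · rw [← map_mul, hU', map_one]
    · rw [← hι n g, ← map_add, hsum]
  · rintro u ⟨w, rfl⟩
    obtain ⟨n₁, hn₁⟩ := rep_ge _ ι hι hs (w : R)
    obtain ⟨n₂, hn₂⟩ := rep_ge _ ι hι hs ((w⁻¹ : Rˣ) : R)
    obtain ⟨g, hg⟩ := hn₁ (max n₁ n₂) (le_max_left _ _)
    obtain ⟨g', hg'⟩ := hn₂ (max n₁ n₂) (le_max_right _ _)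
    generalize max n₁ n₂ = n at g g' hg hg'
    obtain ⟨k₁, hk₁⟩ := hz n (g * g' - 1) (by
      rw [map_sub, map_mul, map_one, hg, hg', Units.mul_inv, sub_self])
    obtain ⟨k₂, hk₂⟩ := hz n (g' * g - 1) (by
      rw [map_sub, map_mul, map_one, hg, hg', Units.inv_mul, sub_self])
    have e1 := tr_zero_ge _ hk₁ (le_max_left k₁ k₂)
    have e2 := tr_zero_ge _ hk₂ (le_max_right k₁ k₂)
    rw [map_sub, map_mul, map_one, sub_eq_zero] at e1 e2
    obtain ⟨E, N, hE, hN, hsum⟩ := gn_unit D _ _ _ e1 e2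
    have h3 : (w : R) = ι (n + max k₁ k₂ + 1) E + ι (n + max k₁ k₂ + 1) N := by
      rw [← hg, ← iota_tr _ ι hι n g (max k₁ k₂), ← hι, ← map_add, hsum]
    refine ⟨ι (n + max k₁ k₂ + 1) E, ?_, ?_⟩
    · rw [← map_mul, hE]
    · rw [h3, add_sub_cancel_left]
      exact hN.map _
  · obtain ⟨x₀, hx₀⟩ := sg_surj D (κ := Unit) (l • (1 : Matrix Unit Unit F))
    let a₀ : Gn D 0 := ((0, x₀) : GV (T D) (lv 0))
    have hall : ∀ n, ∃ g : Gn D n, ι n g = ι 0 a₀ ∧ Bad D l n g := by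
      intro n
      induction n with
      | zero =>
        refine ⟨a₀, rfl, rfl, (1 : Matrix Unit Unit F), one_mul 1, ?_, hx₀⟩
        intro h
        have := congrFun (congrFun h ()) ()
        exact one_ne_zero this
      | succ n ih =>
        obtain ⟨g, hg, hb⟩ := ih
        exact ⟨phn D n g, (hι n g).trans hg, hb.next⟩
    refine ⟨ι 0 a₀, fun e he hn => ?_⟩
    obtain ⟨m, hm⟩ := hn
    obtain ⟨n, ge, rfl⟩ := hs e
    obtain ⟨ga, hga, hb⟩ := hall n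
    obtain ⟨k₁, hk₁⟩ := hz n (ge * ge - ge) (by rw [map_sub, map_mul, he, sub_self])
    obtain ⟨k₂, hk₂⟩ := hz n ((ga - ge) ^ m) (by rw [map_pow, map_sub, hga, hm])
    have e1 := tr_zero_ge _ hk₁ (le_max_left k₁ k₂)
    have e2 := tr_zero_ge _ hk₂ (le_max_right k₁ k₂)
    rw [map_sub, map_mul, sub_eq_zero] at e1
    rw [map_pow, map_sub] at e2
    obtain ⟨_, Q, hQ, hQ0, hQ'⟩ := hb.tr (max k₁ k₂)
    apply hQ0
    refine not_nc l h0 h1 Q (sg2 D _ (CUN.tr (phn D) n (max k₁ k₂) ge))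
      (sg2 D _ (CUN.tr (phn D) n (max k₁ k₂) ga - CUN.tr (phn D) n (max k₁ k₂) ge))
      hQ ?_ ?_ ?_
    · rw [← map_mul, e1]
    · refine ⟨m, ?_⟩
      rw [← map_pow, e2, map_zero]
    · rw [← hQ', ← map_add, add_sub_cancel]
      rfl

end

end Pool.Agent.CUN
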