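import Mathlib

/-!
# MP_0ec41e_al: a clean ring whose units are nil-clean and which is not nil-clean

Base file (definitions and very small facts), blueprint: note 2399 of the team database.

`PD F P` is the data of section 0: a field `F` of characteristic two, an index type `P` (places),
and for every place an additive subgroup `V v` of `F` (a subspace over `ZMod 2`).
`T D` is the adelic Toeplitz ring, `sg` the symbol of a matrix over `T D`, `rho v` its action on
`κ → V v`.
-/

namespace Pool.Agent.CUN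

/-- The data of section 0 of the blueprint. -/
structure PD (F : Type) [Field F] [Algebra (ZMod 2) F] (P : Type) where
  /-- the local subspaces -/
  V : P → Submodule (ZMod 2) F
  /-- `μ V` lies in `V` up to finitely many classes -/
  a1 : ∀ (v : P) (μ : F), (Set.range fun f : V v => (V v).mkQ (μ * (f : F))).Finite
  /-- `μ V v ⊆ V v` for almost all places -/
  a2 : ∀ μ : F, {v : P | ¬ ∀ f ∈ V v, μ * f ∈ V v}.Finite
  /-- every scalar different from 0 and 1 is strictly contracting or expanding somewhere -/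
  a3 : ∀ β : F, β ≠ 0 → β ≠ 1 → ∃ (v : P) (γ : F), (γ = β ∨ γ = β⁻¹) ∧
    (∀ f ∈ V v, γ * f ∈ V v) ∧ ∀ f : F, (∀ n : ℕ, ∃ g ∈ V v, f = γ ^ n * g) → f = 0
  /-- the local spaces are infinite -/
  a4 : ∀ v, Infinite (V v)

variable {F : Type} [Field F] [Algebra (ZMod 2) F] {P : Type}

/-- The carrier of the adelic Toeplitz ring. -/
def good (D : PD F P) (x : F × (∀ v, Module.End (ZMod 2) (D.V v))) : Prop :=
  (∀ v, (Set.range fun f : D.V v => ((x.2 v f : D.V v) : F) - x.1 * (f : F)).Finite) ∧
  {v | ∃ f : D.V v, ((x.2 v f : D.V v) : F) ≠ x.1 * (f : F)}.Finite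

theorem good_zero (D : PD F P) : good D 0 := by
  refine ⟨fun v => ?_, ?_⟩
  · refine (Set.finite_singleton (0 : F)).subset ?_
    rintro _ ⟨f, rfl⟩
    simp
  · convert Set.finite_empty
    ext v
    simp

theorem good_one (D : PD F P) : good D 1 := by
  refine ⟨fun v => ?_, ?_⟩
  · refine (Set.finite_singleton (0 : F)).subset ?_
    rintro _ ⟨f, rfl⟩
    simp
  · convert Set.finite_empty
    ext v
    simp

theorem good_add (D : PD F P) {x y : F × (∀ v, Module.End (ZMod 2) (D.V v))}
    (hx : good D x) (hy : good D y) : good D (x + y) := by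
  refine ⟨fun v => ?_, ?_⟩
  · refine ((hx.1 v).image2 (· + ·) (hy.1 v)).subset ?_
    rintro _ ⟨f, rfl⟩
    refine ⟨_, ⟨f, rfl⟩, _, ⟨f, rfl⟩, ?_⟩
    simp only [Prod.fst_add, Prod.snd_add, Pi.add_apply, LinearMap.add_apply,
      Submodule.coe_add]
    ring
  · refine (hx.2.union hy.2).subset ?_
    intro v hv
    by_contra hcon
    simp only [Set.mem_union, Set.mem_ofPred_eq, not_or, not_exists, not_not] at hcon
    obtain ⟨f, hf⟩ := hv
    apply hf
    simp only [Prod.fst_add, Prod.snd_add, Pi.add_apply, LinearMap.add_apply,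
      Submodule.coe_add]
    rw [hcon.1 f, hcon.2 f]
    ring

theorem good_neg (D : PD F P) {x : F × (∀ v, Module.End (ZMod 2) (D.V v))}
    (hx : good D x) : good D (-x) := by
  refine ⟨fun v => ?_, ?_⟩
  · refine ((hx.1 v).image (fun a => -a)).subset ?_
    rintro _ ⟨f, rfl⟩
    refine ⟨_, ⟨f, rfl⟩, ?_⟩
    simp only [Prod.fst_neg, Prod.snd_neg, Pi.neg_apply, LinearMap.neg_apply,
      Submodule.coe_neg]
    ring
  · refine hx.2.subset ?_
    intro v hv
    by_contra hcon
    simp only [Set.mem_ofPred_eq, not_exists, not_not] at hcon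
    obtain ⟨f, hf⟩ := hv
    apply hf
    simp only [Prod.fst_neg, Prod.snd_neg, Pi.neg_apply, LinearMap.neg_apply,
      Submodule.coe_neg]
    rw [hcon f]
    ring

theorem good_mul (D : PD F P) {x y : F × (∀ v, Module.End (ZMod 2) (D.V v))}
    (hx : good D x) (hy : good D y) : good D (x * y) := by
  refine ⟨fun v => ?_, ?_⟩
  · refine ((hx.1 v).image2 (fun a b => a + x.1 * b) (hy.1 v)).subset ?_
    rintro _ ⟨f, rfl⟩
    refine ⟨_, ⟨y.2 v f, rfl⟩, _, ⟨f, rfl⟩, ?_⟩
    simp only [Prod.fst_mul, Prod.snd_mul, Pi.mul_apply, Module.End.mul_apply]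
    ring
  · refine (hx.2.union hy.2).subset ?_
    intro v hv
    by_contra hcon
    simp only [Set.mem_union, Set.mem_ofPred_eq, not_or, not_exists, not_not] at hcon
    obtain ⟨f, hf⟩ := hv
    apply hf
    simp only [Prod.fst_mul, Prod.snd_mul, Pi.mul_apply, Module.End.mul_apply]
    rw [hcon.1 (y.2 v f), hcon.2 f]
    ring

/-- The adelic Toeplitz ring. -/
def T (D : PD F P) : Subring (F × (∀ v, Module.End (ZMod 2) (D.V v))) where
  carrier := {x | good D x}
  mul_mem' := fun hx hy => good_mul D hx hy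
  one_mem' := good_one D
  add_mem' := fun hx hy => good_add D hx hy
  zero_mem' := good_zero D
  neg_mem' := fun hx => good_neg D hx

section Mat

variable {κ : Type} [Fintype κ] [DecidableEq κ]

/-- The symbol of a matrix over the Toeplitz ring. -/
noncomputable def sg (D : PD F P) : Matrix κ κ (T D) →+* Matrix κ κ F :=
  RingHom.mapMatrix ((RingHom.fst F (∀ v, Module.End (ZMod 2) (D.V v))).comp (T D).subtype)

theorem sg_apply (D : PD F P) (x : Matrix κ κ (T D)) (i j : κ) :
    sg D x i j = (x i j : F × (∀ v, Module.End (ZMod 2) (D.V v))).1 := rfl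

/-- The action of a matrix over the Toeplitz ring on the local space `κ → V v`. -/
noncomputable def rho (D : PD F P) (v : P) :
    Matrix κ κ (T D) →+* Module.End (ZMod 2) (κ → D.V v) :=
  ((endVecRingEquivMatrixEnd κ (ZMod 2) (D.V v)).symm : _ →+* _).comp
    (RingHom.mapMatrix (((Pi.evalRingHom (fun v => Module.End (ZMod 2) (D.V v)) v).comp
      (RingHom.snd F (∀ v, Module.End (ZMod 2) (D.V v)))).comp (T D).subtype))

theorem rho_apply (D : PD F P) (v : P) (x : Matrix κ κ (T D)) (f : κ → D.V v) (i : κ) :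
    rho D v x f i = ∑ j, (x i j : F × (∀ v, Module.End (ZMod 2) (D.V v))).2 v (f j) := rfl

end Mat

/-- Two copies on the diagonal. -/
def dbl {A : Type} [Zero A] {κ : Type} (x : Matrix κ κ A) : Matrix (κ ⊕ κ) (κ ⊕ κ) A :=
  Matrix.fromBlocks x 0 0 x

/-- Two copies on the diagonal, as a ring homomorphism. -/
def dblHom (A : Type) [Ring A] (κ : Type) [Fintype κ] [DecidableEq κ] :
    Matrix κ κ A →+* Matrix (κ ⊕ κ) (κ ⊕ κ) A where
  toFun := dbl
  map_one' := by simp [dbl]
  map_mul' := fun x y => by simp [dbl, Matrix.fromBlocks_multiply]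
  map_zero' := by simp [dbl]
  map_add' := fun x y => by simp [dbl, Matrix.fromBlocks_add]

theorem dblHom_apply (A : Type) [Ring A] (κ : Type) [Fintype κ] [DecidableEq κ]
    (x : Matrix κ κ A) : dblHom A κ x = dbl x := rfl

/-- `M` is the sum of two nilpotent elements of the corner of the idempotent `E`. -/
def TN {B : Type} [Ring B] (E M : B) : Prop :=
  ∃ n₁ n₂ : B, IsNilpotent n₁ ∧ IsNilpotent n₂ ∧ E * n₁ = n₁ ∧ n₁ * E = n₁ ∧
    E * n₂ = n₂ ∧ n₂ * E = n₂ ∧ n₁ + n₂ = M

/-- A ring homomorphism transports `TN`. -/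
theorem TN.map {B C : Type} [Ring B] [Ring C] (f : B →+* C) {E M : B} (h : TN E M) :
    TN (f E) (f M) := by
  obtain ⟨n₁, n₂, h1, h2, h3, h4, h5, h6, h7⟩ := h
  exact ⟨f n₁, f n₂, h1.map f, h2.map f, by rw [← map_mul, h3], by rw [← map_mul, h4],
    by rw [← map_mul, h5], by rw [← map_mul, h6], by rw [← map_add, h7]⟩

end Pool.Agent.CUN
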