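import Pool.Agent.CUN.SL

/-!
# CUN: two copies of a map different from the identity (package FD)

If `d = 0` take `n₁ = n₂ = 0`. Otherwise `d` is not a scalar (`ZMod 2` has the scalars `0, 1`),
and so is the map `prodMap d d` of `Y × Y`. Choose a basis of `Y` (`Module.finBasis`), the basis
`Basis.prod` of `Y × Y`, and let `M` be the matrix of `prodMap d d` in this basis: it is
`Matrix.fromBlocks m 0 0 m` with `m` the matrix of `d`, so its trace is `m.trace + m.trace = 0`
(`CharTwo`), or use `LinearMap.trace_prodMap'`. `slemma` with `B = B' = Matrix _ _ (ZMod 2)`,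
`σ = Dm = RingHom.id`, `E = 1` (`hlift` is trivial with `f = f'`; `hD`: `δ = 0`, `TN f 0` with
`n₁ = n₂ = 0`) gives `TN 1 M`; transport it by the ring isomorphism `Matrix.toLinAlgEquiv`
(`TN.map`).
-/

namespace Pool.Agent.CUN

theorem fd_two {Y : Type} [AddCommGroup Y] [Module (ZMod 2) Y] [Finite Y]
    (d : Module.End (ZMod 2) Y) (hd : d ≠ 1) :
    TN (1 : Module.End (ZMod 2) (Y × Y)) (LinearMap.prodMap d d) := by
  classical
  have hz : ∀ {B : Type} [Ring B] (E : B), TN E 0 := fun E =>
    ⟨0, 0, IsNilpotent.zero, IsNilpotent.zero, mul_zero _, zero_mul _, mul_zero _, zero_mul _,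
      add_zero _⟩
  by_cases hd0 : d = 0
  · rw [hd0, LinearMap.prodMap_zero]
    exact hz 1
  have hfin : Module.Finite (ZMod 2) Y := Module.Finite.of_finite
  let b := Module.finBasis (ZMod 2) Y
  let b2 := b.prod b
  let φ := LinearMap.toMatrixAlgEquiv b2
  have hφtr : (φ (LinearMap.prodMap d d)).trace = 0 := by
    have h1 : (φ (LinearMap.prodMap d d)).trace = LinearMap.trace (ZMod 2) (Y × Y)
        (LinearMap.prodMap d d) := (LinearMap.trace_eq_matrix_trace (ZMod 2) b2 _).symm
    rw [h1, LinearMap.trace_prodMap', CharTwo.add_self_eq_zero]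
  have hne0 : φ (LinearMap.prodMap d d) ≠ 0 := by
    intro h
    rw [map_eq_zero_iff φ φ.injective] at h
    apply hd0
    ext y
    have h2 := LinearMap.congr_fun h (y, 0)
    exact congrArg Prod.fst h2
  have hne1 : φ (LinearMap.prodMap d d) ≠ 1 := by
    intro h
    rw [map_eq_one_iff φ φ.injective] at h
    apply hd
    ext y
    have h2 := LinearMap.congr_fun h (y, 0)
    exact congrArg Prod.fst h2
  have hall : ∀ c : ZMod 2, c = 0 ∨ c = 1 := by decide
  have key := slemma (RingHom.id _) (RingHom.id _) (fun E _ f' hf h1 h2 => ⟨f', hf, h1, h2, rfl⟩)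
    (fun f δ _ _ _ h => by
      rw [RingHom.id_apply] at h
      rw [h]
      exact hz _)
    (1 : Matrix _ _ (ZMod 2)) (φ (LinearMap.prodMap d d)) (one_mul 1) (by rw [one_mul, mul_one])
    (fun h => hne0 (by
      rw [RingHom.id_apply] at h
      rw [← one_mul (φ (LinearMap.prodMap d d)), h, zero_mul])) hφtr
    (Or.inl fun c h => by
      rw [RingHom.id_apply, RingHom.id_apply] at h
      have hc : c = 0 ∨ c = 1 := hall c
      rcases hc with rfl | rfl
      · rw [zero_smul] at h
        exact hne0 h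
      · rw [one_smul] at h
        exact hne1 h)
  have h3 := TN.map (φ.symm : Matrix _ _ (ZMod 2) ≃ₐ[ZMod 2] _).toRingEquiv.toRingHom key
  have e1 : (φ.symm : Matrix _ _ (ZMod 2) ≃ₐ[ZMod 2] _).toRingEquiv.toRingHom
      ((RingHom.id _) 1) = 1 := map_one φ.symm
  have e2 : (φ.symm : Matrix _ _ (ZMod 2) ≃ₐ[ZMod 2] _).toRingEquiv.toRingHom
      ((RingHom.id _) (φ (LinearMap.prodMap d d))) = LinearMap.prodMap d d :=
    φ.symm_apply_apply _
  rw [e1, e2] at h3
  exact h3

end Pool.Agent.CUN
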