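import Pool.Agent.CUN.Base

/-!
# CUN: every finite family comes from the kernel of the symbol (package FinE)

Define `x i j` with first component `0` and second component `v ↦ (g ↦ N v (Pi.single j g) i)`
(a linear map `V v → V v`: composition of `LinearMap.single`, `N v` and `LinearMap.proj`).
`good`: the range of `g ↦ ((x i j).2 v g : F) - 0 * g` is contained in the image of the finite
range of `N v`; and it is zero for `v` with `N v = 0`. Then `sg x = 0`, and
`rho x f i = ∑ j, N v (Pi.single j (f j)) i = N v f i` (`LinearMap.sum_single_apply`-like: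
`f = ∑ j, Pi.single j (f j)`, `Finset.univ_sum_single`).
-/

namespace Pool.Agent.CUN

variable {F : Type} [Field F] [Algebra (ZMod 2) F] {P : Type}
  {κ : Type} [Fintype κ] [DecidableEq κ]

theorem exists_of_fin (D : PD F P) (N : ∀ v, Module.End (ZMod 2) (κ → D.V v))
    (h1 : ∀ v, (Set.range (N v)).Finite) (h2 : {v | N v ≠ 0}.Finite) :
    ∃ x : Matrix κ κ (T D), sg D x = 0 ∧ ∀ v, rho D v x = N v := by
  let y : κ → κ → F × (∀ v, Module.End (ZMod 2) (D.V v)) := fun i j =>
    (0, fun v => (LinearMap.proj i : (κ → D.V v) →ₗ[ZMod 2] D.V v) ∘ₗ N v ∘ₗ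
      LinearMap.single (ZMod 2) (fun _ : κ => D.V v) j)
  have hy : ∀ i j, good D (y i j) := by
    intro i j
    refine ⟨fun v => ?_, ?_⟩
    · refine ((h1 v).image (fun g => ((g i : D.V v) : F))).subset ?_
      rintro _ ⟨f, rfl⟩
      refine ⟨N v (Pi.single j f), ⟨_, rfl⟩, ?_⟩
      simp [y]
    · refine h2.subset ?_
      rintro v ⟨f, hf⟩ h0
      apply hf
      simp [y, h0]
  refine ⟨fun i j => ⟨y i j, hy i j⟩, ?_, fun v => ?_⟩
  · ext i j
    rfl
  · refine LinearMap.ext fun f => funext fun i => ?_
    rw [rho_apply]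
    change ∑ j, N v (Pi.single j (f j)) i = N v f i
    conv_rhs => rw [← Finset.univ_sum_single f, map_sum, Finset.sum_apply]

end Pool.Agent.CUN
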