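import Pool.Agent.CUN.Rho

/-!
# CUN: kernel of the symbol (package Finr)

`fin_of_sg_zero`: by `rho_sub_finite` and `rho_eq_ae` with `sg D x = 0` (the coercion
`(κ → V v) → (κ → F)` is injective, `Set.Finite.of_injective`/`Set.Finite.preimage`).

`sg_zero_of_fin`: let `rho D v x` have finite range. By `rho_sub_finite` the map
`f ↦ (i ↦ ∑ j, sg x i j * f j)` from `κ → V v` to `κ → F` has finite range. For `i, j` fixed and
`f = Pi.single j g` this gives: `g ↦ sg x i j * g` on `V v` has finite range; if
`sg x i j ≠ 0` this map is injective, but `V v` is infinite (`D.a4`).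
-/

namespace Pool.Agent.CUN

variable {F : Type} [Field F] [Algebra (ZMod 2) F] {P : Type}
  {κ : Type} [Fintype κ] [DecidableEq κ]

theorem fin_of_sg_zero (D : PD F P) (x : Matrix κ κ (T D)) (h : sg D x = 0) :
    (∀ v, (Set.range (rho D v x)).Finite) ∧ {v | rho D v x ≠ 0}.Finite := by
  refine ⟨fun v => ?_, ?_⟩
  · have h1 := rho_sub_finite D v x
    have hinj : Function.Injective (fun (g : κ → D.V v) (i : κ) => ((g i : D.V v) : F)) := by
      intro a b hab
      funext i
      exact Subtype.ext (congrFun hab i)
    refine (h1.preimage hinj.injOn).subset ?_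
    rintro _ ⟨f, rfl⟩
    refine ⟨f, ?_⟩
    funext i
    simp [h]
  · refine (rho_eq_ae D x).subset ?_
    intro v hv
    by_contra hcon
    apply hv
    refine LinearMap.ext fun f => funext fun i => Subtype.ext ?_
    by_contra hne
    apply hcon
    refine ⟨f, i, fun h2 => hne ?_⟩
    rw [h2]
    simp [h]

theorem sg_zero_of_fin (D : PD F P) (v : P) (x : Matrix κ κ (T D))
    (h : (Set.range (rho D v x)).Finite) : sg D x = 0 := by
  ext i j
  by_contra hne
  have hne' : sg D x i j ≠ 0 := hne
  have h1 := rho_sub_finite D v x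
  have h2 : (Set.range fun g : D.V v => sg D x i j * (g : F)).Finite := by
    refine (Set.Finite.image2 (fun (a : κ → D.V v) (b : κ → F) => ((a i : D.V v) : F) - b i)
      h h1).subset ?_
    rintro _ ⟨g, rfl⟩
    refine ⟨_, ⟨Pi.single j g, rfl⟩, _, ⟨Pi.single j g, rfl⟩, ?_⟩
    have h3 : ∑ k, sg D x i k * (((Pi.single j g : κ → D.V v) k : D.V v) : F) =
        sg D x i j * (g : F) := by
      rw [Finset.sum_eq_single j]
      · rw [Pi.single_eq_same]
      · intro k _ hk
        rw [Pi.single_eq_of_ne hk]
        simp
      · intro hj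
        exact absurd (Finset.mem_univ j) hj
    simp only [h3]
    ring
  have hinj : Function.Injective (fun g : D.V v => sg D x i j * (g : F)) := by
    intro a b hab
    exact Subtype.ext (mul_left_cancel₀ hne' hab)
  have h4 : Finite (D.V v) := Set.finite_range_iff hinj |>.1 h2
  have h5 := D.a4 v
  exact not_finite (D.V v)

end Pool.Agent.CUN
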