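import Mathlib

/-!
# CUN: the index argument (package IdxG)

Let `X = {a ∈ A | U a = γ a}`, the kernel of the additive map `A → G`, `a ↦ U a - γ a`, which has
finite range: `X` has finite index in `A`. Let `Y = X ⊓ L` and `Z = Y ⊓ Y.map γ`. `Y` has finite
index in `A` (as `X` and `A ⊓ L` have) and in `L` (`A ⊓ L` has finite index in `L`, and
`Y = X ⊓ (A ⊓ L)` has finite index in `A ⊓ L`). `U Y = γ Y` (so `γ Y ≤ A`) and `U` is an
automorphism of `A`, so `[A : γ Y] = [A : Y]`; hence `Z` has finite index in `A` and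
`[A : Y] [Y : Z] = [A : Z] = [A : γ Y] [γ Y : Z]` gives `[Y : Z] = [γ Y : Z]`. In `L`:
`[L : Y] [Y : Z] = [L : Z] = [L : γ L] [γ L : γ Y] [γ Y : Z]` and `[γ L : γ Y] = [L : Y]`
(`γ` is injective), all finite, so `[L : γ L] = 1`.
(`AddSubgroup.relIndex`, `relIndex_mul_relIndex`, `relIndex_map_map_of_injective`, ...).
-/

namespace Pool.Agent.CUN

theorem idx_group {G : Type} [AddCommGroup G] (A L : AddSubgroup G) (U : A ≃+ A) (γ : G →+ G)
    (hγ : Function.Injective γ)
    (hfin : (Set.range fun a : A => ((U a : A) : G) - γ (a : G)).Finite)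
    (hA : (A ⊓ L).relIndex A ≠ 0) (hL : (A ⊓ L).relIndex L ≠ 0) (hγL : L.map γ ≤ L) :
    L ≤ L.map γ := by
  let φ : A →+ G := (A.subtype.comp U.toAddMonoidHom) - γ.comp A.subtype
  have hφ : ∀ a : A, φ a = ((U a : A) : G) - γ (a : G) := fun a => rfl
  let X : AddSubgroup G := φ.ker.map A.subtype
  have hXA : X ≤ A := by
    rintro _ ⟨a, -, rfl⟩
    exact a.2
  have hXm : ∀ x (hx : x ∈ X), ((U ⟨x, hXA hx⟩ : A) : G) = γ x := by
    rintro x hx
    obtain ⟨a, ha, hax⟩ := hx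
    have hax' : (a : G) = x := hax
    subst hax'
    have h1 : φ a = 0 := ha
    rw [hφ, sub_eq_zero] at h1
    exact h1
  have hX0 : X.relIndex A ≠ 0 := by
    have h1 : X.addSubgroupOf A = φ.ker := by
      ext a
      rw [AddSubgroup.mem_addSubgroupOf]
      constructor
      · rintro ⟨b, hb, hba⟩
        have : b = a := Subtype.ext hba
        rw [← this]
        exact hb
      · intro ha
        exact ⟨a, ha, rfl⟩
    have h2 : X.relIndex A = φ.ker.index := by
      rw [AddSubgroup.relIndex, h1]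
    rw [h2, AddSubgroup.index_ker]
    have h3 : (φ.range : Set G).Finite := hfin
    have h4 : Finite φ.range := h3
    exact Nat.card_pos.ne'
  let Y : AddSubgroup G := X ⊓ L
  have hYe : Y = X ⊓ (A ⊓ L) := by
    change X ⊓ L = X ⊓ (A ⊓ L)
    rw [← inf_assoc, inf_eq_left.2 hXA]
  have hYL : Y ≤ L := inf_le_right
  have hYX : Y ≤ X := inf_le_left
  have hYAL : Y ≤ A ⊓ L := le_inf (hYX.trans hXA) hYL
  have hY0 : Y.relIndex A ≠ 0 := by
    rw [hYe]
    exact AddSubgroup.relIndex_inf_ne_zero hX0 hA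
  have hYL0 : Y.relIndex L ≠ 0 := by
    have h1 := AddSubgroup.relIndex_mul_relIndex Y (A ⊓ L) A hYAL inf_le_left
    have h2 := AddSubgroup.relIndex_mul_relIndex Y (A ⊓ L) L hYAL inf_le_right
    rw [← h2]
    rw [← h1] at hY0
    exact mul_ne_zero (left_ne_zero_of_mul hY0) hL
  have hγYA : Y.map γ ≤ A := by
    rintro _ ⟨y, hy, rfl⟩
    have := hXm y (hYX hy)
    rw [← this]
    exact (U _).2
  have hγYL : Y.map γ ≤ L := (AddSubgroup.map_mono hYL).trans hγL
  have hidx : (Y.map γ).relIndex A = Y.relIndex A := by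
    have h1 : (Y.map γ).addSubgroupOf A = (Y.addSubgroupOf A).map U.toAddMonoidHom := by
      ext a
      rw [AddSubgroup.mem_addSubgroupOf]
      constructor
      · rintro ⟨y, hy, hya⟩
        refine ⟨⟨y, hXA (hYX hy)⟩, hy, ?_⟩
        refine Subtype.ext ?_
        rw [← hya]
        exact hXm y (hYX hy)
      · rintro ⟨b, hb, rfl⟩
        have hb' : (b : G) ∈ Y := hb
        exact ⟨b, hb', (hXm (b : G) (hYX hb')).symm⟩
    rw [AddSubgroup.relIndex, h1, AddSubgroup.relIndex]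
    exact AddSubgroup.index_map_equiv _ U
  have hZ1 := AddSubgroup.relIndex_mul_relIndex (Y ⊓ Y.map γ) Y A inf_le_left (hYX.trans hXA)
  have hZ2 := AddSubgroup.relIndex_mul_relIndex (Y ⊓ Y.map γ) (Y.map γ) A inf_le_right hγYA
  have hZ0 : (Y ⊓ Y.map γ).relIndex A ≠ 0 :=
    AddSubgroup.relIndex_inf_ne_zero hY0 (hidx ▸ hY0)
  rw [hidx, ← hZ1] at hZ2
  have hr := Nat.eq_of_mul_eq_mul_right (Nat.pos_of_ne_zero hY0) hZ2
  have hr0 : (Y ⊓ Y.map γ).relIndex Y ≠ 0 := by
    rw [← hZ1] at hZ0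
    exact left_ne_zero_of_mul hZ0
  have hZ3 := AddSubgroup.relIndex_mul_relIndex (Y ⊓ Y.map γ) Y L inf_le_left hYL
  have hZ4 := AddSubgroup.relIndex_mul_relIndex (Y ⊓ Y.map γ) (Y.map γ) (L.map γ) inf_le_right
    (AddSubgroup.map_mono hYL)
  have hZ5 := AddSubgroup.relIndex_mul_relIndex (Y ⊓ Y.map γ) (L.map γ) L
    (inf_le_right.trans (AddSubgroup.map_mono hYL)) hγL
  have h6 : (Y.map γ).relIndex (L.map γ) = Y.relIndex L :=
    AddSubgroup.relIndex_map_map_of_injective Y L hγ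
  rw [← hZ4, h6, hr, ← hZ3] at hZ5
  have h7 : (L.map γ).relIndex L = 1 := by
    have h8 : 0 < (Y ⊓ Y.map γ).relIndex Y * Y.relIndex L :=
      Nat.pos_of_ne_zero (mul_ne_zero hr0 hYL0)
    exact Nat.eq_of_mul_eq_mul_left h8 (by rw [hZ5, mul_one])
  exact AddSubgroup.relIndex_eq_one.1 h7

end Pool.Agent.CUN
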