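import Pool.Agent.CUN.Rho
import Pool.Agent.CUN.IdxG

/-!
# CUN: the index argument at one place (package IdxP)

Notation: `G = κ → F`, `c : (κ → V v) → G` the coercion, `ρ = rho D v`, `σ = sg D`,
`σ e` acts on `G` by `Matrix.mulVec`. Suppose `σ e ≠ 0`.

`A = {c (ρ e f)}` (additive subgroup of `G`; range of an additive map). For `a = c (ρ e f)`:
`U a = c (ρ u (ρ e f))`, which is in `A` as `u * e = e * (u * e)`; `u'` gives the inverse map (by
`u' * e = e * (u' * e)`), so `U : A ≃+ A`. (`A` is the set of `c g` with `ρ e g = g`.)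
`L = {g ∈ G | ∀ i, g i ∈ V v} ⊓ {g | σ e g = g}`. `γ` = multiplication by the scalar `γ`.

* `U a - γ a` takes finitely many values: for `a = c (ρ e f)`, `U a = c (ρ (u * e) f)` differs from
  `σ (u * e) f = γ σ e f` by an element of a finite set (`rho_sub_finite`), and `γ a` differs from
  `γ σ e f` by `γ` times an element of a finite set.
* `A ⊓ L` has finite index in `A`: it is the kernel in `A` of `a ↦ σ e a - a`, and for
  `a = c (ρ e f) = c (ρ e (ρ e f))` the difference takes finitely many values (`rho_sub_finite`).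
* `A ⊓ L` has finite index in `L`: for `g ∈ L`, `g = c f`, `c (ρ e f) - g = c (ρ e f) - σ e (c f)`
  takes finitely many values, and if it is `0` then `g ∈ A`.
* `γ L ≤ L` by `hV`.
By `idx_group`, `L ≤ γ L`, so by induction every `g ∈ L` is `γ ^ n g'` with `g' ∈ L`, so all its
entries vanish by `hI`: `L = 0`.

But `L ≠ 0`: `σ e ≠ 0` has a column `w = σ e (Pi.single j 1) ≠ 0`. The linear map
`V v → (κ → F ⧸ V v)`, `f ↦ (i ↦ class of w i * f)`, has finite range by `D.a1`, and `V v` is
infinite (`D.a4`), so there are `f ≠ f'` with the same image; `s = f - f' ≠ 0` and `w i * s ∈ V v`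
for all `i`, so `s • w ∈ L` is not zero.
-/

namespace Pool.Agent.CUN

variable {F : Type} [Field F] [Algebra (ZMod 2) F] {P : Type}
  {κ : Type} [Fintype κ] [DecidableEq κ]

private theorem relIdx {G G' : Type} [AddCommGroup G] (H K : AddSubgroup G) (φ : K → G')
    (hφ : ∀ a b : K, φ a = φ b → (a : G) - b ∈ H) (hfin : (Set.range φ).Finite) :
    H.relIndex K ≠ 0 := by
  have h1 : Finite (Set.range φ) := hfin
  have h2 : Function.Injective fun q : K ⧸ H.addSubgroupOf K =>
      (⟨φ q.out, q.out, rfl⟩ : Set.range φ) := by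
    intro q q' hq
    have h3 := hφ _ _ (congrArg Subtype.val hq)
    rw [← QuotientAddGroup.out_eq' q, ← QuotientAddGroup.out_eq' q', eq_comm,
      QuotientAddGroup.eq]
    rw [AddSubgroup.mem_addSubgroupOf]
    have h4 : ((-q'.out + q.out : K) : G) = (q.out : G) - q'.out := by
      rw [AddSubgroup.coe_add, AddSubgroup.coe_neg]
      abel
    rw [h4]
    exact h3
  have h3 : Finite (K ⧸ H.addSubgroupOf K) := Finite.of_injective _ h2
  exact AddSubgroup.index_ne_zero_of_finite

/-- The coercion. -/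
private def cc (D : PD F P) (v : P) : (κ → D.V v) →+ (κ → F) where
  toFun f i := (f i : F)
  map_zero' := rfl
  map_add' _ _ := rfl

private theorem cc_inj (D : PD F P) (v : P) :
    Function.Injective (cc D v : (κ → D.V v) →+ (κ → F)) := by
  intro f g h
  funext i
  exact Subtype.ext (congrFun h i)

/-- The finite set of the differences. -/
private def dset (D : PD F P) (v : P) (x : Matrix κ κ (T D)) : Set (κ → F) :=
  Set.range fun (f : κ → D.V v) (i : κ) =>
    ((rho D v x f i : D.V v) : F) - ∑ j, sg D x i j * (f j : F)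

private theorem dset_mem (D : PD F P) (v : P) (x : Matrix κ κ (T D)) (f : κ → D.V v) :
    cc D v (rho D v x f) - (sg D x).mulVec (cc D v f) ∈ dset D v x :=
  ⟨f, rfl⟩

private theorem rho_mulA (D : PD F P) (v : P) (x y : Matrix κ κ (T D)) (g : κ → D.V v) :
    rho D v (x * y) g = rho D v x (rho D v y g) :=
  DFunLike.congr_fun ((rho D v).map_mul x y) g

/-- The fixed vectors of `e`. -/
private def Rf (D : PD F P) (v : P) (e : Matrix κ κ (T D)) : AddSubgroup (κ → D.V v) where
  carrier := {g | rho D v e g = g}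
  zero_mem' := map_zero _
  add_mem' := fun {a b} ha hb => by
    change rho D v e (a + b) = a + b
    rw [map_add, show rho D v e a = a from ha, show rho D v e b = b from hb]
  neg_mem' := fun {a} ha => by
    change rho D v e (-a) = -a
    rw [map_neg, show rho D v e a = a from ha]

private theorem Rf_mem (D : PD F P) (v : P) {e : Matrix κ κ (T D)} {g : κ → D.V v} :
    g ∈ Rf D v e ↔ rho D v e g = g := Iff.rfl

private theorem Rf_act (D : PD F P) (v : P) {e u : Matrix κ κ (T D)}
    (hue : e * (u * e) = u * e) {g : κ → D.V v} (hg : g ∈ Rf D v e) :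
    rho D v u g ∈ Rf D v e := by
  rw [Rf_mem] at hg ⊢
  have h1 : rho D v u g = rho D v (u * e) g := by
    rw [rho_mulA, hg]
  rw [h1]
  conv_rhs => rw [← hue]
  rw [rho_mulA D v e]

/-- The automorphism of the fixed vectors. -/
private noncomputable def UR (D : PD F P) (v : P) {e u u' : Matrix κ κ (T D)}
    (huu' : u * u' = 1) (hu'u : u' * u = 1) (hue : e * (u * e) = u * e)
    (hu'e : e * (u' * e) = u' * e) : Rf D v e ≃+ Rf D v e where
  toFun g := ⟨rho D v u g, Rf_act D v hue g.2⟩
  invFun g := ⟨rho D v u' g, Rf_act D v hu'e g.2⟩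
  left_inv g := by
    apply Subtype.ext
    change rho D v u' (rho D v u g) = g
    rw [← rho_mulA, hu'u, map_one, Module.End.one_apply]
  right_inv g := by
    apply Subtype.ext
    change rho D v u (rho D v u' g) = g
    rw [← rho_mulA, huu', map_one, Module.End.one_apply]
  map_add' g g' := by
    apply Subtype.ext
    change rho D v u (g + g') = rho D v u g + rho D v u g'
    rw [map_add]

/-- The group `L`. -/
private def Lg (D : PD F P) (v : P) (M : Matrix κ κ F) : AddSubgroup (κ → F) where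
  carrier := {g | (∀ i, g i ∈ D.V v) ∧ M.mulVec g = g}
  zero_mem' := ⟨fun _ => zero_mem _, Matrix.mulVec_zero M⟩
  add_mem' := fun {a b} ha hb => ⟨fun i => add_mem (ha.1 i) (hb.1 i), by
    rw [Matrix.mulVec_add, ha.2, hb.2]⟩
  neg_mem' := fun {a} ha => ⟨fun i => neg_mem (ha.1 i), by
    rw [Matrix.mulVec_neg, ha.2]⟩

private theorem Lg_ne (D : PD F P) (v : P) {M : Matrix κ κ F} (hM : M * M = M) (h0 : M ≠ 0) :
    ∃ g ∈ Lg D v M, g ≠ 0 := by
  obtain ⟨j, hj⟩ : ∃ j, (fun i => M i j) ≠ 0 := by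
    by_contra h
    push Not at h
    apply h0
    ext i j
    exact congrFun (h j) i
  set w : κ → F := fun i => M i j with hw
  have hMw : M.mulVec w = w := by
    have h1 : w = M.mulVec (Pi.single j 1) := by
      funext i
      rw [Matrix.mulVec_single_one]
      rfl
    conv_lhs => rw [h1]
    rw [Matrix.mulVec_mulVec, hM, ← h1]
  have hinf := D.a4 v
  let ψ : D.V v → (κ → F ⧸ D.V v) := fun f i => (D.V v).mkQ (w i * (f : F))
  have hfin : (Set.range ψ).Finite := by
    refine (Set.Finite.pi' fun i => D.a1 v (w i)).subset ?_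
    rintro _ ⟨f, rfl⟩ i
    exact ⟨f, rfl⟩
  have hfin' : Finite (Set.range ψ) := hfin
  obtain ⟨f, f', hne, heq⟩ := Finite.exists_ne_map_eq_of_infinite
    (fun f : D.V v => (⟨ψ f, f, rfl⟩ : Set.range ψ))
  have heq' : ψ f = ψ f' := congrArg Subtype.val heq
  have hs0 : (f : F) - f' ≠ 0 := fun h => hne (Subtype.ext (sub_eq_zero.1 h))
  refine ⟨((f : F) - f') • w, ⟨fun i => ?_, ?_⟩, ?_⟩
  · have h1 : (D.V v).mkQ (w i * (f : F)) = (D.V v).mkQ (w i * (f' : F)) := congrFun heq' i
    rw [← sub_eq_zero, ← map_sub, Submodule.mkQ_apply, Submodule.Quotient.mk_eq_zero] at h1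
    have h2 : (((f : F) - f') • w) i = w i * f - w i * f' := by
      rw [Pi.smul_apply, smul_eq_mul]
      ring
    rw [h2]
    exact h1
  · rw [Matrix.mulVec_smul, hMw]
  · intro h
    rcases smul_eq_zero.1 h with h | h
    · exact hs0 h
    · exact hj h

theorem idx_place (D : PD F P) (v : P) (u u' e : Matrix κ κ (T D)) (he : e * e = e)
    (huu' : u * u' = 1) (hu'u : u' * u = 1) (hue : e * (u * e) = u * e)
    (hu'e : e * (u' * e) = u' * e) (γ : F) (h0 : γ ≠ 0) (hs : sg D u * sg D e = γ • sg D e)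
    (hV : ∀ f ∈ D.V v, γ * f ∈ D.V v)
    (hI : ∀ f : F, (∀ n : ℕ, ∃ g ∈ D.V v, f = γ ^ n * g) → f = 0) : sg D e = 0 := by
  by_contra hne
  have hM : sg D e * sg D e = sg D e := by rw [← map_mul, he]
  let A : AddSubgroup (κ → F) := (Rf D v e).map (cc D v)
  let eA : Rf D v e ≃+ A := (Rf D v e).equivMapOfInjective (cc D v) (cc_inj D v)
  have heA : ∀ g, (eA g : κ → F) = cc D v (g : κ → D.V v) := fun g =>
    AddSubgroup.coe_equivMapOfInjective_apply _ _ _ g
  let U : A ≃+ A := eA.symm.trans ((UR D v huu' hu'u hue hu'e).trans eA)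
  let L : AddSubgroup (κ → F) := Lg D v (sg D e)
  let Γ : (κ → F) →+ (κ → F) := DistribSMul.toAddMonoidHom (κ → F) γ
  have hΓ : ∀ g, Γ g = γ • g := fun g => rfl
  have hΓi : Function.Injective Γ := by
    intro a b hab
    rw [hΓ, hΓ] at hab
    exact smul_right_injective _ h0 hab
  have hd1 : (dset D v (u * e)).Finite := rho_sub_finite D v (u * e)
  have hd2 : (dset D v e).Finite := rho_sub_finite D v e
  have hfin : (Set.range fun a : A => ((U a : A) : κ → F) - Γ (a : κ → F)).Finite := by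
    refine (hd1.image2 (fun a b => a - γ • b) hd2).subset ?_
    rintro _ ⟨a, rfl⟩
    obtain ⟨g, rfl⟩ := eA.surjective a
    have hg : rho D v e (g : κ → D.V v) = g := g.2
    refine ⟨_, dset_mem D v (u * e) g, _, dset_mem D v e g, ?_⟩
    have h1 : ((U (eA g) : A) : κ → F) = cc D v (rho D v u (g : κ → D.V v)) := by
      change ((eA ((UR D v huu' hu'u hue hu'e) (eA.symm (eA g))) : A) : κ → F) = _
      rw [AddEquiv.symm_apply_apply, heA]
      rfl
    have h2 : rho D v (u * e) (g : κ → D.V v) = rho D v u g := by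
      rw [rho_mulA, hg]
    simp only
    rw [h1, hΓ, heA, hg, h2, map_mul (sg D) u e, hs, Matrix.smul_mulVec]
    rw [smul_sub]
    abel
  have hA : (A ⊓ L).relIndex A ≠ 0 := by
    refine relIdx (A ⊓ L) A (fun a => (sg D e).mulVec (a : κ → F) - a) ?_ ?_
    · intro a b hab
      refine AddSubgroup.mem_inf.2 ⟨A.sub_mem a.2 b.2, fun i => ?_, ?_⟩
      · obtain ⟨g, -, hg⟩ := a.2
        obtain ⟨g', -, hg'⟩ := b.2
        rw [← hg, ← hg']
        exact sub_mem (g i).2 (g' i).2
      · rw [Matrix.mulVec_sub]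
        have hab' : (sg D e).mulVec (a : κ → F) - a = (sg D e).mulVec (b : κ → F) - b := hab
        rw [sub_eq_sub_iff_add_eq_add] at hab' ⊢
        rw [add_comm (a : κ → F), ← hab', add_comm]
    · refine (hd2.image (fun b => -b)).subset ?_
      rintro _ ⟨a, rfl⟩
      obtain ⟨g, hg, hga⟩ := a.2
      refine ⟨_, dset_mem D v e g, ?_⟩
      have hg' : rho D v e g = g := hg
      simp only
      rw [hg', ← hga]
      abel
  have hL : (A ⊓ L).relIndex L ≠ 0 := by
    refine relIdx (A ⊓ L) L (fun a => cc D v (rho D v e fun i => ⟨(a : κ → F) i, a.2.1 i⟩) -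
      (a : κ → F)) ?_ ?_
    · intro a b hab
      refine AddSubgroup.mem_inf.2 ⟨⟨(fun i => ⟨(a : κ → F) i, a.2.1 i⟩) -
        fun i => ⟨(b : κ → F) i, b.2.1 i⟩, ?_, rfl⟩, L.sub_mem a.2 b.2⟩
      change rho D v e _ = _
      apply cc_inj D v
      rw [map_sub, map_sub, map_sub]
      change _ = (a : κ → F) - (b : κ → F)
      rw [sub_eq_sub_iff_add_eq_add]
      have hab' := sub_eq_sub_iff_add_eq_add.1 hab
      rw [hab']
      abel
    · refine hd2.subset ?_
      rintro _ ⟨a, rfl⟩
      have h1 := dset_mem D v e fun i => ⟨(a : κ → F) i, a.2.1 i⟩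
      have h2 : (sg D e).mulVec (cc D v fun i => ⟨(a : κ → F) i, a.2.1 i⟩) = (a : κ → F) :=
        a.2.2
      rw [h2] at h1
      exact h1
  have hγL : L.map Γ ≤ L := by
    rintro _ ⟨g, hg, rfl⟩
    refine ⟨fun i => hV _ (hg.1 i), ?_⟩
    rw [hΓ, Matrix.mulVec_smul, hg.2]
  have hle := idx_group A L U Γ hΓi hfin hA hL hγL
  have hpow : ∀ n : ℕ, ∀ g ∈ L, ∃ g' ∈ L, g = γ ^ n • g' := by
    intro n
    induction n with
    | zero => exact fun g hg => ⟨g, hg, by rw [pow_zero, one_smul]⟩
    | succ n ih =>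
      intro g hg
      obtain ⟨g', hg', h1⟩ := ih g hg
      obtain ⟨g'', hg'', h2⟩ := hle hg'
      refine ⟨g'', hg'', ?_⟩
      rw [h1, ← h2, hΓ, smul_smul, pow_succ]
  obtain ⟨g, hg, hg0⟩ := Lg_ne D v hM hne
  apply hg0
  funext i
  refine hI _ fun n => ?_
  obtain ⟨g', hg', h1⟩ := hpow n g hg
  refine ⟨g' i, hg'.1 i, ?_⟩
  rw [h1]
  rfl

end Pool.Agent.CUN
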