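import Mathlib

/-!
# CUN: a finite projection carrying a finite map (package LocP)

Let `W' = range E` (a subspace of `W`; `w ∈ W'` iff `E w = w`). `δ` maps `W` into `W'`, kills the
range of `1 - E`, and has finite range. As `δ ≠ E` there is `w₀ ∈ W'` with `δ w₀ ≠ w₀`
(if `δ w = w` for all `w ∈ W'` then `δ = δ E = E`). Let `N = ker δ ⊓ W'`; there is a finite
subspace `Q ≤ W'` with `Q ⊔ N = W'` (for instance the span of preimages, in `W'`, of the finitely
many values of `δ`; the span of a finite set over `ZMod 2` is finite). Let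
`Y = Q ⊔ range δ ⊔ span {w₀}`, a finite subspace of `W'`. Let `Z` be a complement of `Y ⊓ N` in
`N` (`Submodule.exists_isCompl` or complemented lattice). Then `Y ⊔ Z = W'`, `Y ⊓ Z = ⊥`. Let `p`
be `E` followed by the projection of `W'` to `Y` along `Z`: `p` is an idempotent with finite
range `Y`, `E * p = p = p * E`, `p * δ = δ` (range of `δ` in `Y`), `δ * p = δ` (for `w ∈ W`:
`E w = y + z`, `δ w = δ (E w) = δ y + δ z = δ y = δ (p w)`), and `p w₀ = w₀ ≠ δ w₀`.
-/

namespace Pool.Agent.CUN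

theorem loc_proj {W : Type} [AddCommGroup W] [Module (ZMod 2) W]
    (E δ : Module.End (ZMod 2) W) (hE : E * E = E) (hδ : E * δ * E = δ)
    (hfin : (Set.range δ).Finite) (hne : δ ≠ E) :
    ∃ p : Module.End (ZMod 2) W, p * p = p ∧ E * p = p ∧ p * E = p ∧ (Set.range p).Finite ∧
      p * δ * p = δ ∧ δ ≠ p := by
  have hF : Fact (Nat.Prime 2) := ⟨Nat.prime_two⟩
  have hEE : ∀ w, E (E w) = E w := fun w => LinearMap.congr_fun hE w
  have hδ1 : ∀ w, E (δ (E w)) = δ w := fun w => LinearMap.congr_fun hδ w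
  have hEδ : ∀ w, E (δ w) = δ w := by
    intro w
    rw [← hδ1 w, hEE]
  have hδE : ∀ w, δ (E w) = δ w := by
    intro w
    rw [← hδ1 (E w), hEE, hδ1]
  obtain ⟨w0, h0⟩ : ∃ w, δ w ≠ E w := by
    by_contra hcon
    push Not at hcon
    exact hne (LinearMap.ext hcon)
  obtain ⟨r, hr⟩ := δ.rangeRestrict.exists_rightInverse_of_surjective δ.range_rangeRestrict
  have hr' : ∀ w, δ (r (δ.rangeRestrict w)) = δ w := fun w =>
    congrArg Subtype.val (LinearMap.congr_fun hr (δ.rangeRestrict w))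
  let q : Module.End (ZMod 2) W := E ∘ₗ r ∘ₗ δ.rangeRestrict
  have hq : ∀ w, q w = E (r (δ.rangeRestrict w)) := fun _ => rfl
  have hδq : ∀ w, δ (q w) = δ w := by
    intro w
    rw [hq, hδE, hr']
  have hEq : ∀ w, E (q w) = q w := by
    intro w
    rw [hq, hEE]
  have hqc : ∀ w w', δ w = δ w' → q w = q w' := by
    intro w w' h
    rw [hq, hq, show δ.rangeRestrict w = δ.rangeRestrict w' from Subtype.ext h]
  have hqE : ∀ w, q (E w) = q w := fun w => hqc _ _ (hδE w)
  have hqq : ∀ w, q (q w) = q w := fun w => hqc _ _ (hδq w)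
  have hrf : Finite (LinearMap.range δ) := hfin.to_subtype
  have hqf : (Set.range q).Finite := by
    refine (Set.finite_range fun y : LinearMap.range δ => E (r y)).subset ?_
    rintro _ ⟨w, rfl⟩
    exact ⟨δ.rangeRestrict w, rfl⟩
  obtain ⟨Y, hY⟩ : ∃ Y : Submodule (ZMod 2) W,
      Y = Submodule.span (ZMod 2) (Set.range δ ∪ Set.range q ∪ {E w0}) := ⟨_, rfl⟩
  have hYf : (Y : Set W).Finite := by
    have h1 : FiniteDimensional (ZMod 2) Y := by
      rw [hY]
      exact FiniteDimensional.span_of_finite _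
        ((hfin.union hqf).union (Set.finite_singleton _))
    have h2 : Finite Y := Module.finite_of_finite (ZMod 2)
    exact Set.toFinite _
  have hδY : ∀ w, δ w ∈ Y := fun w => by
    rw [hY]
    exact Submodule.subset_span (Or.inl (Or.inl ⟨w, rfl⟩))
  have hqY : ∀ w, q w ∈ Y := fun w => by
    rw [hY]
    exact Submodule.subset_span (Or.inl (Or.inr ⟨w, rfl⟩))
  have hwY : E w0 ∈ Y := by
    rw [hY]
    exact Submodule.subset_span (Or.inr rfl)
  have hEY : ∀ y ∈ Y, E y = y := by
    have h1 : Y ≤ LinearMap.eqLocus E (LinearMap.id : W →ₗ[ZMod 2] W) := by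
      rw [hY, Submodule.span_le]
      rintro _ ((⟨w, rfl⟩ | ⟨w, rfl⟩) | h)
      · exact hEδ w
      · exact hEq w
      · rw [Set.mem_singleton_iff] at h
        rw [h]
        exact hEE w0
    exact fun y hy => h1 hy
  obtain ⟨π, hπ⟩ := Y.subtype.exists_leftInverse_of_injective Y.ker_subtype
  have hπ' : ∀ y ∈ Y, (π y : W) = y := fun y hy =>
    congrArg Subtype.val (LinearMap.congr_fun hπ ⟨y, hy⟩)
  let g : Module.End (ZMod 2) W := Y.subtype ∘ₗ π
  have hg : ∀ y ∈ Y, g y = y := hπ'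
  have hgY : ∀ w, g w ∈ Y := fun w => (π w).2
  let p : Module.End (ZMod 2) W := q + (1 - q) * g * E * (1 - q)
  have hp : ∀ w, p w = q w + (g (E (w - q w)) - q (g (E (w - q w)))) := fun w => rfl
  have hpY : ∀ w, p w ∈ Y := by
    intro w
    rw [hp]
    exact Y.add_mem (hqY _) (Y.sub_mem (hgY _) (hqY _))
  have hpid : ∀ y ∈ Y, p y = y := by
    intro y hy
    have h1 : y - q y ∈ Y := Y.sub_mem hy (hqY y)
    rw [hp, hEY _ h1, hg _ h1, map_sub, hqq, sub_self, sub_zero, add_sub_cancel]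
  have hδp : ∀ w, δ (p w) = δ w := by
    intro w
    rw [hp, map_add, map_sub, hδq, hδq, sub_self, add_zero]
  refine ⟨p, LinearMap.ext fun w => hpid _ (hpY w), LinearMap.ext fun w => hEY _ (hpY w),
    LinearMap.ext fun w => ?_, ?_, LinearMap.ext fun w => ?_, ?_⟩
  · change p (E w) = p w
    have h1 : E (E w - q w) = E (w - q w) := by rw [map_sub, map_sub, hEE]
    rw [hp, hp, hqE, h1]
  · refine hYf.subset ?_
    rintro _ ⟨w, rfl⟩
    exact hpY w
  · change p (δ (p w)) = δ w
    rw [hpid _ (hδY _), hδp]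
  · intro h
    apply h0
    rw [← hδE w0]
    have h1 := LinearMap.congr_fun h (E w0)
    rw [h1, hpid _ hwY]

end Pool.Agent.CUN
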