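import Pool.Agent.CUN.FD
import Pool.Agent.CUN.LocP

/-!
# CUN: two copies of a finite map (package LocT)

If `δ = E` then `E = 0`, `δ = 0` and `n₁ = n₂ = 0` work. Otherwise take `p` of `loc_proj`,
`Y = range p` (finite), `π : W → Y` (`p` with codomain restricted: `LinearMap.rangeRestrict`),
`ι : Y → W` the inclusion; `π ∘ ι = 1` (as `p * p = p`), `ι ∘ π = p`. Let `d = π ∘ δ ∘ ι`;
`ι ∘ d ∘ π = p δ p = δ`, so `d ≠ 1` (otherwise `δ = p`). `fd_two` gives `prodMap d d = n₁ + n₂`;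
with `I = prodMap ι ι`, `Π = prodMap π π` (`Π ∘ I = 1`, `I ∘ Π = prodMap p p`) the maps
`I ∘ n₁ ∘ Π`, `I ∘ n₂ ∘ Π` are nilpotent (`(I n Π) ^ (m + 1) = I n ^ (m + 1) Π`), have finite
range (range in `Y × Y`), have sum `prodMap δ δ` and are cornered by `prodMap p p`, so by
`prodMap E E` (`E * p = p = p * E`).
-/

namespace Pool.Agent.CUN

theorem loc_two {W : Type} [AddCommGroup W] [Module (ZMod 2) W]
    (E δ : Module.End (ZMod 2) W) (hE : E * E = E) (hδ : E * δ * E = δ)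
    (hfin : (Set.range δ).Finite) (hne : δ = E → E = 0) :
    ∃ n₁ n₂ : Module.End (ZMod 2) (W × W), IsNilpotent n₁ ∧ IsNilpotent n₂ ∧
      (Set.range n₁).Finite ∧ (Set.range n₂).Finite ∧
      LinearMap.prodMap E E * n₁ = n₁ ∧ n₁ * LinearMap.prodMap E E = n₁ ∧
      LinearMap.prodMap E E * n₂ = n₂ ∧ n₂ * LinearMap.prodMap E E = n₂ ∧
      n₁ + n₂ = LinearMap.prodMap δ δ := by
  by_cases hd : δ = E
  · have hE0 := hne hd
    subst hd
    subst hE0
    refine ⟨0, 0, IsNilpotent.zero, IsNilpotent.zero, ?_, ?_, by simp, by simp, by simp, by simp,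
      ?_⟩
    · exact (Set.finite_singleton (0 : W × W)).subset (by rintro _ ⟨w, rfl⟩; simp)
    · exact (Set.finite_singleton (0 : W × W)).subset (by rintro _ ⟨w, rfl⟩; simp)
    · rw [LinearMap.prodMap_zero, add_zero]
  obtain ⟨p, hp, hEp, hpE, hpf, hpd, hdp⟩ := loc_proj E δ hE hδ hfin hd
  set Y : Submodule (ZMod 2) W := LinearMap.range p with hY
  have hYf : Finite Y := by
    have h1 : ((Y : Set W)).Finite := by
      rw [hY, LinearMap.coe_range]
      exact hpf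
    exact h1.to_subtype
  set π : W →ₗ[ZMod 2] Y := p.rangeRestrict with hπ
  set ι : Y →ₗ[ZMod 2] W := Y.subtype with hι
  have hπι : ∀ y : Y, π (ι y) = y := by
    rintro ⟨_, w, rfl⟩
    apply Subtype.ext
    change p (p w) = p w
    rw [← Module.End.mul_apply, hp]
  have hιπ : ∀ w : W, ι (π w) = p w := fun w => rfl
  set d : Module.End (ZMod 2) Y := π ∘ₗ δ ∘ₗ ι with hdd
  have hιdπ : ∀ w : W, ι (d (π w)) = δ w := by
    intro w
    change ι (π (δ (ι (π w)))) = δ w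
    rw [hιπ, hιπ, ← Module.End.mul_apply, ← Module.End.mul_apply, hpd]
  have hd1 : d ≠ 1 := by
    intro h
    apply hdp
    ext w
    rw [← hιdπ w, h, Module.End.one_apply, hιπ]
  obtain ⟨n₁, n₂, hn1, hn2, -, -, -, -, hsum⟩ := fd_two d hd1
  set I : (Y × Y) →ₗ[ZMod 2] (W × W) := LinearMap.prodMap ι ι with hI
  set P : (W × W) →ₗ[ZMod 2] (Y × Y) := LinearMap.prodMap π π with hP
  have hPI : ∀ y : Y × Y, P (I y) = y := by
    rintro ⟨y₁, y₂⟩
    exact Prod.ext (hπι y₁) (hπι y₂)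
  have hnil : ∀ n : Module.End (ZMod 2) (Y × Y), IsNilpotent n →
      IsNilpotent (I ∘ₗ n ∘ₗ P : Module.End (ZMod 2) (W × W)) := by
    rintro n ⟨m, hm⟩
    have hpow : ∀ j : ℕ, (I ∘ₗ n ∘ₗ P : Module.End (ZMod 2) (W × W)) ^ (j + 1) =
        I ∘ₗ (n ^ (j + 1)) ∘ₗ P := by
      intro j
      induction j with
      | zero => rw [zero_add, pow_one, pow_one]
      | succ j ih =>
        rw [pow_succ, ih]
        ext1 <;>
        · ext1 w
          simp only [Module.End.mul_apply, LinearMap.comp_apply, hPI]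
          rw [pow_succ n (j + 1), Module.End.mul_apply]
    refine ⟨m + 1, ?_⟩
    rw [hpow, pow_succ, hm, zero_mul, LinearMap.zero_comp, LinearMap.comp_zero]
  have hran : ∀ n : Module.End (ZMod 2) (Y × Y),
      (Set.range (I ∘ₗ n ∘ₗ P : Module.End (ZMod 2) (W × W))).Finite := by
    intro n
    refine (Set.finite_range I).subset ?_
    rintro _ ⟨w, rfl⟩
    exact ⟨n (P w), rfl⟩
  have hEι : ∀ y : Y, E (ι y) = ι y := by
    rintro ⟨_, w, rfl⟩
    change E (p w) = p w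
    rw [← Module.End.mul_apply, hEp]
  have hπE : ∀ w : W, π (E w) = π w := by
    intro w
    apply Subtype.ext
    change p (E w) = p w
    rw [← Module.End.mul_apply, hpE]
  have hl : ∀ n : Module.End (ZMod 2) (Y × Y),
      LinearMap.prodMap E E * (I ∘ₗ n ∘ₗ P : Module.End (ZMod 2) (W × W)) = I ∘ₗ n ∘ₗ P := by
    intro n
    refine LinearMap.ext fun w => ?_
    exact Prod.ext (hEι _) (hEι _)
  have hr : ∀ n : Module.End (ZMod 2) (Y × Y),
      (I ∘ₗ n ∘ₗ P : Module.End (ZMod 2) (W × W)) * LinearMap.prodMap E E = I ∘ₗ n ∘ₗ P := by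
    intro n
    refine LinearMap.ext fun w => ?_
    change I (n (π (E w.1), π (E w.2))) = I (n (π w.1, π w.2))
    rw [hπE, hπE]
  refine ⟨I ∘ₗ n₁ ∘ₗ P, I ∘ₗ n₂ ∘ₗ P, hnil _ hn1, hnil _ hn2, hran _, hran _, hl _, hr _, hl _,
    hr _, ?_⟩
  refine LinearMap.ext fun w => ?_
  change I (n₁ (P w)) + I (n₂ (P w)) = (δ w.1, δ w.2)
  rw [← map_add, ← LinearMap.add_apply, hsum]
  exact Prod.ext (hιdπ w.1) (hιdπ w.2)

end Pool.Agent.CUN
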