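import Pool.Agent.CUN.Finr
import Pool.Agent.CUN.FinE
import Pool.Agent.CUN.LocT

/-!
# CUN: Lemma D (package LD)

For every `v` the map `rho D v (dbl x)` of `κ ⊕ κ → V v` corresponds under the linear equivalence
`s : (κ ⊕ κ → V v) ≃ (κ → V v) × (κ → V v)` (`LinearEquiv.sumArrowLequivProdArrow`) to
`prodMap (rho D v x) (rho D v x)` (`rho_apply`, `Matrix.fromBlocks`, `Fintype.sum_sum_type`).
For every `v` take `n₁ v, n₂ v` of `loc_two` for `rho v E`, `rho v δ` (finite range by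
`fin_of_sg_zero`), and `n₁ v = n₂ v = 0` if `rho v δ = 0`, transported by `s` to
`κ ⊕ κ → V v`. Almost all vanish. By `exists_of_fin` there are `x₁, x₂` with symbol `0` and
`rho v xᵢ = nᵢ v`. By `mat_ext`: `dbl E * x₁ = x₁`, etc., `x₁ + x₂ = dbl δ`
(`sg (dbl δ) = 0`), and `xᵢ` is nilpotent: `xᵢ ^ (m + 1) = 0` for `m` larger than all the
nilpotency indices of the finitely many nonzero `nᵢ v`.
-/

namespace Pool.Agent.CUN

variable {F : Type} [Field F] [Algebra (ZMod 2) F] {P : Type}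
  {κ : Type} [Fintype κ] [DecidableEq κ]

/-- Transport to the sum type. -/
private def ldc (κ V : Type) [AddCommGroup V] [Module (ZMod 2) V] :
    Module.End (ZMod 2) ((κ → V) × (κ → V)) →+* Module.End (ZMod 2) (κ ⊕ κ → V) :=
  ((LinearEquiv.sumArrowLequivProdArrow κ κ (ZMod 2) V).symm.conjRingEquiv : _ →+* _)

private theorem ldc_apply {κ V : Type} [AddCommGroup V] [Module (ZMod 2) V]
    (n : Module.End (ZMod 2) ((κ → V) × (κ → V))) (f : κ ⊕ κ → V) :
    ldc κ V n f = (LinearEquiv.sumArrowLequivProdArrow κ κ (ZMod 2) V).symm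
      (n (LinearEquiv.sumArrowLequivProdArrow κ κ (ZMod 2) V f)) := rfl

private theorem ldc_range {κ V : Type} [AddCommGroup V] [Module (ZMod 2) V]
    {n : Module.End (ZMod 2) ((κ → V) × (κ → V))} (h : (Set.range n).Finite) :
    (Set.range (ldc κ V n)).Finite := by
  refine (h.image (LinearEquiv.sumArrowLequivProdArrow κ κ (ZMod 2) V).symm).subset ?_
  rintro _ ⟨f, rfl⟩
  exact ⟨_, ⟨_, rfl⟩, (ldc_apply n f).symm⟩

private theorem ldc_rho (D : PD F P) (v : P) (x : Matrix κ κ (T D)) :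
    ldc κ (D.V v) (LinearMap.prodMap (rho D v x) (rho D v x)) = rho D v (dbl x) := by
  refine LinearMap.ext fun f => funext fun i => ?_
  rw [ldc_apply, rho_apply, Fintype.sum_sum_type]
  rcases i with i | i
  · have h1 : ∑ j : κ, ((dbl x (Sum.inl i) (Sum.inr j) : T D) :
        F × (∀ v, Module.End (ZMod 2) (D.V v))).2 v (f (Sum.inr j)) = 0 :=
      Finset.sum_eq_zero fun j _ => rfl
    rw [h1, add_zero]
    rfl
  · have h1 : ∑ j : κ, ((dbl x (Sum.inr i) (Sum.inl j) : T D) :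
        F × (∀ v, Module.End (ZMod 2) (D.V v))).2 v (f (Sum.inl j)) = 0 :=
      Finset.sum_eq_zero fun j _ => rfl
    rw [h1, zero_add]
    rfl

private theorem ld_sg (D : PD F P) {x : Matrix κ κ (T D)} (h : sg D x = 0) :
    sg D (dbl x) = 0 := by
  ext i j
  have h1 : ∀ i j, sg D x i j = 0 := fun i j => by rw [h]; rfl
  rcases i with i | i <;> rcases j with j | j
  · exact h1 i j
  · rfl
  · rfl
  · exact h1 i j

private theorem ld_nil (D : PD F P) {x : Matrix κ κ (T D)} (h : sg D x = 0)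
    (h' : ∀ v, IsNilpotent (rho D v x)) : IsNilpotent x := by
  choose k hk using h'
  obtain ⟨m, hm⟩ := ((fin_of_sg_zero D x h).2.image k).bddAbove
  refine ⟨m + 1, mat_ext D ?_ fun v => ?_⟩
  · rw [map_pow, h, map_zero, zero_pow (Nat.succ_ne_zero m)]
  · rw [map_pow, map_zero]
    by_cases hv : rho D v x = 0
    · rw [hv, zero_pow (Nat.succ_ne_zero m)]
    · have h1 : k v ≤ m := hm ⟨v, hv, rfl⟩
      exact pow_eq_zero_of_le (h1.trans (Nat.le_succ m)) (hk v)

theorem lemmaD (D : PD F P) (E δ : Matrix κ κ (T D)) (hE : E * E = E) (hδ : E * δ * E = δ)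
    (hs : sg D δ = 0) (hv : ∀ v, rho D v δ = rho D v E → rho D v E = 0) :
    TN (dbl E) (dbl δ) := by
  have hloc : ∀ v, ∃ n₁ n₂ : Module.End (ZMod 2) (κ ⊕ κ → D.V v), IsNilpotent n₁ ∧
      IsNilpotent n₂ ∧ (Set.range n₁).Finite ∧ (Set.range n₂).Finite ∧
      rho D v (dbl E) * n₁ = n₁ ∧ n₁ * rho D v (dbl E) = n₁ ∧
      rho D v (dbl E) * n₂ = n₂ ∧ n₂ * rho D v (dbl E) = n₂ ∧
      n₁ + n₂ = rho D v (dbl δ) ∧ (rho D v δ = 0 → n₁ = 0 ∧ n₂ = 0) := by
    intro v
    by_cases h0 : rho D v δ = 0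
    · refine ⟨0, 0, IsNilpotent.zero, IsNilpotent.zero, ?_, ?_, mul_zero _, zero_mul _,
        mul_zero _, zero_mul _, ?_, fun _ => ⟨rfl, rfl⟩⟩
      · refine (Set.finite_singleton 0).subset ?_
        rintro _ ⟨f, rfl⟩
        rfl
      · refine (Set.finite_singleton 0).subset ?_
        rintro _ ⟨f, rfl⟩
        rfl
      · rw [← ldc_rho, h0, add_zero]
        refine LinearMap.ext fun f => ?_
        rw [ldc_apply]
        exact (map_zero (LinearEquiv.sumArrowLequivProdArrow κ κ (ZMod 2) (D.V v)).symm).symm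
    · obtain ⟨n₁, n₂, k1, k2, k3, k4, k5, k6, k7, k8, k9⟩ := loc_two (rho D v E) (rho D v δ)
        (by rw [← map_mul, hE]) (by rw [← map_mul, ← map_mul, hδ]) ((fin_of_sg_zero D δ hs).1 v)
        (hv v)
      refine ⟨ldc κ (D.V v) n₁, ldc κ (D.V v) n₂, k1.map _, k2.map _, ldc_range k3,
        ldc_range k4, ?_, ?_, ?_, ?_, ?_, fun h => absurd h h0⟩
      · rw [← ldc_rho, ← map_mul, k5]
      · rw [← ldc_rho, ← map_mul, k6]
      · rw [← ldc_rho, ← map_mul, k7]
      · rw [← ldc_rho, ← map_mul, k8]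
      · rw [← ldc_rho, ← map_add, k9]
  choose n₁ n₂ k1 k2 k3 k4 k5 k6 k7 k8 k9 k10 using hloc
  have hfin := (fin_of_sg_zero D δ hs).2
  obtain ⟨x₁, e1, e2⟩ := exists_of_fin D n₁ k3
    (hfin.subset fun v hv' h0 => hv' (k10 v h0).1)
  obtain ⟨x₂, e3, e4⟩ := exists_of_fin D n₂ k4
    (hfin.subset fun v hv' h0 => hv' (k10 v h0).2)
  refine ⟨x₁, x₂, ld_nil D e1 fun v => ?_, ld_nil D e3 fun v => ?_, mat_ext D ?_ fun v => ?_,
    mat_ext D ?_ fun v => ?_, mat_ext D ?_ fun v => ?_, mat_ext D ?_ fun v => ?_,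
    mat_ext D ?_ fun v => ?_⟩
  · rw [e2]
    exact k1 v
  · rw [e4]
    exact k2 v
  · rw [map_mul, e1, mul_zero]
  · rw [map_mul, e2, k5]
  · rw [map_mul, e1, zero_mul]
  · rw [map_mul, e2, k6]
  · rw [map_mul, e3, mul_zero]
  · rw [map_mul, e4, k7]
  · rw [map_mul, e3, zero_mul]
  · rw [map_mul, e4, k8]
  · rw [map_add, e1, e3, ld_sg D hs, add_zero]
  · rw [map_add, e2, e4, k9]

end Pool.Agent.CUN
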