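import Mathlib

/-!
# CUN: lifting idempotents inside a corner of a regular ring (package Lift)

Let `x₀` be a lift of `f'` and `x = E * x₀ * E`, so `σ x = f'`. Let `x * y₀ * x = x` and
`y = E * y₀ * E`, so `x * y * x = x`. Put `g = E - x * y`: `g * g = g`, `g * x = 0`,
`E * g = g = g * E`. Then `f = E - (E - x) * g` works:
`((E - x) * g) * ((E - x) * g) = (E - x) * (g - g * x) * g = (E - x) * g`, and
`σ ((E - x) * g) = (σ E - f') * (σ E - f' * σ y) = σ E - f'`.
-/

namespace Pool.Agent.CUN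

theorem lift_idem {B C : Type} [Ring B] [Ring C] (σ : B →+* C) (hσ : Function.Surjective σ)
    (hB : ∀ x : B, ∃ y, x * y * x = x) (E : B) (hE : E * E = E) (f' : C) (hf : f' * f' = f')
    (h1 : σ E * f' = f') (h2 : f' * σ E = f') :
    ∃ f : B, f * f = f ∧ E * f = f ∧ f * E = f ∧ σ f = f' := by
  obtain ⟨x₀, hx₀⟩ := hσ f'
  obtain ⟨x, hxd⟩ : ∃ x, x = E * x₀ * E := ⟨_, rfl⟩
  have hx1 : E * x = x := by rw [hxd, ← mul_assoc, ← mul_assoc, hE]
  have hx2 : x * E = x := by rw [hxd, mul_assoc, hE]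
  have hσx : σ x = f' := by rw [hxd, map_mul, map_mul, hx₀, h1, h2]
  obtain ⟨y₀, hy₀⟩ := hB x
  obtain ⟨y, hyd⟩ : ∃ y, y = E * y₀ * E := ⟨_, rfl⟩
  have hy2 : y * E = y := by rw [hyd, mul_assoc, hE]
  have h3 : x * (y * x) = x := by
    have e1 : x * (y * x) = (x * E) * y₀ * (E * x) := by
      rw [hyd]
      simp only [mul_assoc]
    rw [e1, hx1, hx2, hy₀]
  have h4 : ∀ z, x * (y * (x * z)) = x * z := by
    intro z
    rw [← mul_assoc y x z, ← mul_assoc x (y * x) z, h3]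
  refine ⟨x + x * y - x * (x * y), ?_, ?_, ?_, ?_⟩
  · simp only [mul_add, add_mul, mul_sub, sub_mul, mul_assoc, h3, h4]
    abel
  · simp only [mul_add, mul_sub, ← mul_assoc, hx1]
  · simp only [add_mul, sub_mul, mul_assoc, hx2, hy2]
  · rw [map_sub, map_add, map_mul, map_mul, map_mul, hσx, ← mul_assoc, hf, add_sub_cancel_right]

end Pool.Agent.CUN
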