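import Mathlib

/-!
# CUN: sequential direct limits of (noncommutative) rings (package Lim)

`tr φ n k : G n →+* G (n + k)` is the iterated transition map.
`lim_exists`: the direct limit. One may use Mathlib (`DirectLimit` in
`Mathlib/Order/DirectedInverseSystem.lean` with the ring instance of
`Mathlib/Algebra/Colimit/DirectLimit.lean`, for the directed system
`fun m n (h : m ≤ n) => Nat.leRecOn h ...`), or construct it by hand: the quotient of the
subring `S` of `∀ n, G n` of all sequences `x` with `x (n + 1) = φ n (x n)` for all large `n` by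
the two-sided ideal (ring congruence, `RingCon` or `Ideal` via `TwoSidedIdeal`) of the sequences
which vanish for large `n`; `ι n g` is the class of the sequence `m ↦ tr φ n (m - n) g` for
`m ≥ n` and `0` for `m < n`.
-/

namespace Pool.Agent.CUN

/-- The iterated transition map. -/
def tr {G : ℕ → Type} [∀ n, Ring (G n)] (φ : ∀ n, G n →+* G (n + 1)) (n : ℕ) :
    ∀ k, G n →+* G (n + k)
  | 0 => RingHom.id _
  | k + 1 => (φ (n + k)).comp (tr φ n k)

private def trLe {G : ℕ → Type} [∀ n, Ring (G n)] (φ : ∀ n, G n →+* G (n + 1)) (m n : ℕ)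
    (h : m ≤ n) : G m →+* G n :=
  Nat.leRecOn (C := fun k => G m →+* G k) h (fun {k} g => (φ k).comp g) (RingHom.id _)

private theorem trLe_self {G : ℕ → Type} [∀ n, Ring (G n)] (φ : ∀ n, G n →+* G (n + 1)) (m : ℕ)
    (h : m ≤ m) : trLe φ m m h = RingHom.id _ :=
  Nat.leRecOn_self (C := fun k => G m →+* G k) _

private theorem trLe_succ {G : ℕ → Type} [∀ n, Ring (G n)] (φ : ∀ n, G n →+* G (n + 1))
    {m n : ℕ} (h : m ≤ n) (h' : m ≤ n + 1) : trLe φ m (n + 1) h' = (φ n).comp (trLe φ m n h) :=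
  Nat.leRecOn_succ (C := fun k => G m →+* G k) h _

private theorem trLe_trLe {G : ℕ → Type} [∀ n, Ring (G n)] (φ : ∀ n, G n →+* G (n + 1))
    {k m n : ℕ} (h : k ≤ m) (h' : m ≤ n) (x : G k) :
    trLe φ m n h' (trLe φ k m h x) = trLe φ k n (h.trans h') x := by
  induction n, h' using Nat.le_induction with
  | base => rw [trLe_self]; rfl
  | succ n hn ih =>
    rw [trLe_succ φ hn, trLe_succ φ (h.trans hn), RingHom.comp_apply, RingHom.comp_apply, ih]

private theorem trLe_tr {G : ℕ → Type} [∀ n, Ring (G n)] (φ : ∀ n, G n →+* G (n + 1))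
    (n k : ℕ) (h : n ≤ n + k) : trLe φ n (n + k) h = tr φ n k := by
  induction k with
  | zero => exact trLe_self φ n h
  | succ k ih => exact (trLe_succ φ (Nat.le_add_right n k) h).trans (by rw [ih]; rfl)

theorem lim_exists (G : ℕ → Type) [∀ n, Ring (G n)] (φ : ∀ n, G n →+* G (n + 1)) :
    ∃ (R : Type) (_ : Ring R) (ι : ∀ n, G n →+* R),
      (∀ n g, ι (n + 1) (φ n g) = ι n g) ∧ (∀ r : R, ∃ n g, ι n g = r) ∧
      (∀ n g, ι n g = 0 → ∃ k, tr φ n k g = 0) := by
  have : DirectedSystem G (fun i j h => trLe φ i j h) :=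
    ⟨fun i x => by rw [trLe_self]; rfl, fun k j i hij hjk x => trLe_trLe φ hij hjk x⟩
  refine ⟨DirectLimit G (fun i j h => trLe φ i j h), inferInstance, fun n =>
    { toFun := fun g => Quotient.mk _ ⟨n, g⟩
      map_one' := (DirectLimit.one_def n).symm
      map_mul' := fun x y => (DirectLimit.mul_def n x y).symm
      map_zero' := (DirectLimit.zero_def n).symm
      map_add' := fun x y => (DirectLimit.add_def n x y).symm }, ?_, ?_, ?_⟩
  · intro n g
    refine Quotient.sound ⟨n + 1, le_rfl, Nat.le_succ n, ?_⟩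
    change trLe φ (n + 1) (n + 1) _ (φ n g) = trLe φ n (n + 1) _ g
    rw [trLe_self, trLe_succ φ (le_refl n), trLe_self]
    rfl
  · intro r
    obtain ⟨i, x, hx⟩ := DirectLimit.exists_eq_mk _ r
    exact ⟨i, x, hx.symm⟩
  · intro n g hg
    obtain ⟨i, h, hi⟩ := (DirectLimit.exists_eq_zero (f := fun i j h => trLe φ i j h) ⟨n, g⟩).1 hg
    obtain ⟨k, rfl⟩ := Nat.exists_eq_add_of_le h
    refine ⟨k, ?_⟩
    rw [← trLe_tr φ n k h]
    exact hi

end Pool.Agent.CUN
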