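import Pool.Agent.CUN.Base
import Pool.Agent.CUN.Lim

/-!
# CUN: the levels of the direct limit

`Lv` is a finite index type; `Lv.next` is eight copies of it; `GV A L` is the ring
`ZMod 2 × M_L(A)`; `phi` is the transition map `(c, y) ↦ (c, diag(y, y, y, y, c, c, c, c))`.
-/

namespace Pool.Agent.CUN

/-- A finite index type. -/
structure Lv where
  /-- the index type -/
  ι : Type
  /-- it is finite -/
  fin : Fintype ι
  /-- decidable equality -/
  dec : DecidableEq ι

attribute [instance] Lv.fin Lv.dec

/-- Four copies. -/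
abbrev Lv.four (L : Lv) : Type := (L.ι ⊕ L.ι) ⊕ (L.ι ⊕ L.ι)

/-- Eight copies. -/
abbrev Lv.eight (L : Lv) : Type := L.four ⊕ L.four

/-- The next level. -/
def Lv.next (L : Lv) : Lv := ⟨L.eight, inferInstance, inferInstance⟩

/-- The levels. -/
def lv : ℕ → Lv
  | 0 => ⟨Unit, inferInstance, inferInstance⟩
  | n + 1 => (lv n).next

section

variable (A : Type) [Ring A] [Algebra (ZMod 2) A]

/-- The transition map before the identification of `L.next.ι` with eight copies of `L.ι`. -/
def phi0 (L : Lv) : ZMod 2 × Matrix L.ι L.ι A →+* ZMod 2 × Matrix L.eight L.eight A where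
  toFun := fun g => (g.1, Matrix.fromBlocks (dbl (dbl g.2)) 0 0
    (algebraMap (ZMod 2) (Matrix L.four L.four A) g.1))
  map_one' := by simp [dbl]
  map_mul' := fun x y => by
    ext1
    · rfl
    · simp [dbl, Matrix.fromBlocks_multiply]
  map_zero' := by simp [dbl]
  map_add' := fun x y => by
    ext1
    · rfl
    · simp [dbl, Matrix.fromBlocks_add]

theorem phi0_apply (L : Lv) (g : ZMod 2 × Matrix L.ι L.ι A) :
    phi0 A L g = (g.1, Matrix.fromBlocks (dbl (dbl g.2)) 0 0
      (algebraMap (ZMod 2) (Matrix L.four L.four A) g.1)) := rfl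

/-- The ring of one level. -/
abbrev GV (L : Lv) : Type := ZMod 2 × Matrix L.ι L.ι A

/-- The transition map. -/
def phi (L : Lv) : GV A L →+* GV A L.next := phi0 A L

end

section

variable {F : Type} [Field F] [Algebra (ZMod 2) F] {P : Type}

theorem charT (D : PD F P) : CharP (T D) 2 := by
  have : CharP (F × ∀ v, Module.End (ZMod 2) (D.V v)) 2 :=
    charP_of_injective_algebraMap (algebraMap (ZMod 2) _).injective 2
  exact (RingHom.charP_iff (T D).subtype Subtype.val_injective 2).2 this

noncomputable instance algT (D : PD F P) : Algebra (ZMod 2) (T D) :=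
  haveI := charT D
  ZMod.algebra (T D) 2

theorem add_selfT (D : PD F P) (a : T D) : a + a = 0 := by
  haveI := charT D
  exact CharTwo.add_self_eq_zero a

end

end Pool.Agent.CUN
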