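import Pool.Agent.CUN.PlaA

/-!
# CUN: finiteness at the places (package PlaB)

`vp_a1`: write `μ = a / b`, `b = p ^ m * c` with `p ∤ c` (`b ≠ 0`; `FiniteMultiplicity`,
`exists_eq_pow_mul_and_not_dvd`). For `f = s / t`, `p ∤ t`, there is `t'` with `t * t' ≡ 1`
modulo `p ^ m` (`IsCoprime`, `Irreducible.coprime_iff_not_dvd`, `IsCoprime.pow_left`); let
`r = (s * t') % p ^ m`; then `p ^ m ∣ s - r * t`, say `s - r * t = p ^ m * w`, so
`μ f - μ r = (a / (p ^ m c)) (p ^ m w / t) = a w / (c t) ∈ Vp p`. So the class of `μ * f` is one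
of the classes of `μ * r` with `r.degree < (p ^ m).degree`, and there are finitely many such `r`
(`Polynomial.degreeLT (ZMod 2) N` is finite: `Polynomial.degreeLTEquiv`).
-/

namespace Pool.Agent.CUN

theorem vp_a1 (p : Pl) (μ : Fx) :
    (Set.range fun f : Vp p => (Vp p).mkQ (μ * (f : Fx))).Finite := by
  obtain ⟨a, b, hb, hμ⟩ := IsFractionRing.div_surjective (A := Polynomial (ZMod 2)) μ
  have hb0 : b ≠ 0 := nonZeroDivisors.ne_zero hb
  obtain ⟨m, c, hc, hbc⟩ := WfDvdMonoid.max_power_factor hb0 p.2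
  have hp0 : p.1 ≠ 0 := p.2.ne_zero
  have hpm : p.1 ^ m ≠ 0 := pow_ne_zero m hp0
  have hfin : Finite (Polynomial.degreeLT (ZMod 2) (p.1 ^ m).natDegree) :=
    Finite.of_equiv _ (Polynomial.degreeLTEquiv (ZMod 2) (p.1 ^ m).natDegree).symm.toEquiv
  refine Set.Finite.subset (Set.Finite.image (fun r : Polynomial (ZMod 2) =>
    (Vp p).mkQ (μ * algebraMap (Polynomial (ZMod 2)) Fx r))
    (Set.toFinite (Polynomial.degreeLT (ZMod 2) (p.1 ^ m).natDegree : Set _))) ?_
  rintro _ ⟨f, rfl⟩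
  obtain ⟨s, t, ht, hf⟩ := mem_Vp.1 f.2
  obtain ⟨u, v, huv⟩ := ((p.2.coprime_iff_not_dvd.2 ht).pow_left : IsCoprime (p.1 ^ m) t)
  have hdiv := EuclideanDomain.div_add_mod (s * v) (p.1 ^ m)
  refine ⟨(s * v) % p.1 ^ m, ?_, ?_⟩
  · rw [SetLike.mem_coe, Polynomial.mem_degreeLT, ← Polynomial.degree_eq_natDegree hpm]
    exact Polynomial.degree_mod_lt _ hpm
  · have hinj : Function.Injective (algebraMap (Polynomial (ZMod 2)) Fx) :=
      IsFractionRing.injective _ _
    have hpm' : algebraMap (Polynomial (ZMod 2)) Fx (p.1 ^ m) ≠ 0 := by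
      rw [Ne, map_eq_zero_iff _ hinj]
      exact hpm
    have hb' : algebraMap (Polynomial (ZMod 2)) Fx b ≠ 0 := by
      rw [Ne, map_eq_zero_iff _ hinj]
      exact hb0
    have hμb : μ * algebraMap (Polynomial (ZMod 2)) Fx b =
        algebraMap (Polynomial (ZMod 2)) Fx a := by
      rw [← hμ, div_mul_cancel₀ _ hb']
    obtain ⟨Q, hQ⟩ : ∃ Q, Q = s * v / p.1 ^ m := ⟨_, rfl⟩
    obtain ⟨r, hr⟩ : ∃ r, r = (s * v) % p.1 ^ m := ⟨_, rfl⟩
    rw [← hQ, ← hr] at hdiv
    rw [← hr]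
    have hw : s - r * t = p.1 ^ m * (s * u + Q * t) := by
      linear_combination (-t) * hdiv - s * huv
    obtain ⟨w, hw0⟩ : ∃ w, w = s * u + Q * t := ⟨_, rfl⟩
    rw [← hw0] at hw
    symm
    refine (Submodule.Quotient.eq _).2 (mem_Vp.2 ⟨a * w, c * t, ?_, ?_⟩)
    · intro hd
      rcases p.2.prime.dvd_or_dvd hd with h1 | h1
      · exact hc h1
      · exact ht h1
    · apply mul_left_cancel₀ hpm'
      have h1 := congrArg (algebraMap (Polynomial (ZMod 2)) Fx) hw
      rw [map_sub, map_mul, map_mul] at h1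
      rw [hbc, map_mul] at hμb
      rw [map_mul, map_mul]
      linear_combination
        (μ * algebraMap (Polynomial (ZMod 2)) Fx (p.1 ^ m) *
          algebraMap (Polynomial (ZMod 2)) Fx c) * hf +
        (μ * algebraMap (Polynomial (ZMod 2)) Fx (p.1 ^ m) *
          algebraMap (Polynomial (ZMod 2)) Fx c) * h1 +
        (algebraMap (Polynomial (ZMod 2)) Fx (p.1 ^ m) *
          algebraMap (Polynomial (ZMod 2)) Fx w) * hμb

end Pool.Agent.CUN
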