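import Pool.Agent.CUN.PlaA

/-!
# CUN: the places, other properties (package PlaC)

`vp_a2`: `μ = a / b` with `b ≠ 0`; if `p ∤ b` then `μ Vp ⊆ Vp`; there are only finitely many `p`
dividing `b` (their degree is at most the degree of `b`, and there are finitely many polynomials
of bounded degree over `ZMod 2`; or `UniqueFactorizationMonoid`/`finite divisors`).

`vp_a3`: write `β = a / b` with `a, b` coprime and not zero
(`IsFractionRing.exists_reduced_fraction`). If `a` is not a unit take an irreducible `p ∣ a`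
(`WfDvdMonoid.exists_irreducible_factor`), `p ∤ b`, and `γ = β`: `γ Vp ⊆ Vp`, and if `f ≠ 0`,
`f = β ^ n * g n` with `g n ∈ Vp` for all `n`: `f = s / t` with `t ≠ 0`, `g n = s' / t'`,
`s b ^ n t' = a ^ n s' t`, so `p ^ n ∣ s b ^ n t'`, so `p ^ n ∣ s` for all `n`, so `s = 0`.
If `a` is a unit and `b` is not, take an irreducible `p ∣ b` and `γ = β⁻¹ = b / a`, the same
argument. If both are units, `a = b = 1` (units of `(ZMod 2)[X]` are constants, `ZMod 2` has one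
unit), so `β = 1`, excluded.

`vp_a4`: `Vp p` contains all polynomials (`t = 1`), which are infinitely many.
-/

namespace Pool.Agent.CUN

open Polynomial

private theorem plac_unit {u : (ZMod 2)[X]} (hu : IsUnit u) : u = 1 := by
  obtain ⟨r, hr, rfl⟩ := Polynomial.isUnit_iff.1 hu
  have h1 : ∀ r : ZMod 2, r ≠ 0 → r = 1 := by decide
  rw [h1 r hr.ne_zero, map_one]

private theorem plac_mul {p : Pl} {a b : (ZMod 2)[X]} (hb : ¬ p.1 ∣ b) {γ : Fx}
    (hγ : γ * algebraMap (ZMod 2)[X] Fx b = algebraMap (ZMod 2)[X] Fx a) :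
    ∀ f ∈ Vp p, γ * f ∈ Vp p := by
  intro f hf
  obtain ⟨s, t, ht, h⟩ := mem_Vp.1 hf
  refine mem_Vp.2 ⟨a * s, b * t, ?_, ?_⟩
  · intro hd
    rcases p.2.prime.dvd_or_dvd hd with h1 | h1
    · exact hb h1
    · exact ht h1
  · rw [map_mul, map_mul, ← h, ← hγ]
    ring

private theorem plac_div {p : Pl} {a b : (ZMod 2)[X]} (ha : p.1 ∣ a) (hb : ¬ p.1 ∣ b) {γ : Fx}
    (hγ : γ * algebraMap (ZMod 2)[X] Fx b = algebraMap (ZMod 2)[X] Fx a) (f : Fx)
    (hf : ∀ n : ℕ, ∃ g ∈ Vp p, f = γ ^ n * g) : f = 0 := by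
  obtain ⟨s, t, ht0, rfl⟩ := IsFractionRing.div_surjective (A := (ZMod 2)[X]) f
  have ht : algebraMap (ZMod 2)[X] Fx t ≠ 0 := by
    intro h
    rw [map_eq_zero_iff _ (IsFractionRing.injective (ZMod 2)[X] Fx)] at h
    exact nonZeroDivisors.ne_zero ht0 h
  have hs : ∀ n : ℕ, p.1 ^ n ∣ s := by
    intro n
    obtain ⟨g, hg, hfg⟩ := hf n
    obtain ⟨s', t', ht', h⟩ := mem_Vp.1 hg
    have h1 : s * (b ^ n * t') = a ^ n * (s' * t) := by
      apply IsFractionRing.injective (ZMod 2)[X] Fx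
      rw [div_eq_iff ht] at hfg
      rw [map_mul, map_mul, map_mul, map_mul, map_pow, map_pow, hfg, ← h, ← hγ]
      ring
    have h2 : p.1 ^ n ∣ s * (b ^ n * t') := by
      rw [h1]
      exact Dvd.dvd.mul_right (pow_dvd_pow_of_dvd ha n) _
    have h3 : ¬ p.1 ∣ b ^ n * t' := by
      intro hd
      rcases p.2.prime.dvd_or_dvd hd with h4 | h4
      · exact hb (p.2.prime.dvd_of_dvd_pow h4)
      · exact ht' h4
    exact p.2.prime.pow_dvd_of_dvd_mul_right n h3 h2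
  by_contra hne
  have hs0 : s ≠ 0 := by
    rintro rfl
    exact hne (by rw [map_zero, zero_div])
  obtain ⟨n, hn⟩ := FiniteMultiplicity.of_not_isUnit p.2.not_isUnit hs0
  exact hn (hs _)

theorem vp_a2 (μ : Fx) : {p : Pl | ¬ ∀ f ∈ Vp p, μ * f ∈ Vp p}.Finite := by
  obtain ⟨a, b, hb0, rfl⟩ := IsFractionRing.div_surjective (A := (ZMod 2)[X]) μ
  have hb1 : b ≠ 0 := nonZeroDivisors.ne_zero hb0
  have hb : algebraMap (ZMod 2)[X] Fx b ≠ 0 := by
    intro h
    rw [map_eq_zero_iff _ (IsFractionRing.injective (ZMod 2)[X] Fx)] at h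
    exact hb1 h
  classical
  have h1 : ((fun p : Pl => p.1) ⁻¹'
      ((UniqueFactorizationMonoid.normalizedFactors b).toFinset : Set (ZMod 2)[X])).Finite :=
    Set.Finite.preimage (fun p _ q _ h => Subtype.ext h) (Finset.finite_toSet _)
  refine h1.subset fun p hp => ?_
  by_contra hcon
  apply hp
  refine plac_mul (b := b) (a := a) (fun hd => hcon ?_) (div_mul_cancel₀ _ hb)
  obtain ⟨q, hq, u, hu⟩ := UniqueFactorizationMonoid.exists_mem_normalizedFactors_of_dvd hb1 p.2 hd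
  rw [plac_unit u.isUnit, mul_one] at hu
  change p.1 ∈ ((UniqueFactorizationMonoid.normalizedFactors b).toFinset : Set (ZMod 2)[X])
  rw [hu, Finset.mem_coe, Multiset.mem_toFinset]
  exact hq

theorem vp_a3 (β : Fx) (h0 : β ≠ 0) (h1 : β ≠ 1) : ∃ (p : Pl) (γ : Fx),
    (γ = β ∨ γ = β⁻¹) ∧ (∀ f ∈ Vp p, γ * f ∈ Vp p) ∧
    ∀ f : Fx, (∀ n : ℕ, ∃ g ∈ Vp p, f = γ ^ n * g) → f = 0 := by
  obtain ⟨a, ⟨b, hb0⟩, hrel, hβ⟩ :=
    IsFractionRing.exists_reduced_fraction (A := (ZMod 2)[X]) (K := Fx) β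
  simp only [] at hrel
  have hb1 : b ≠ 0 := nonZeroDivisors.ne_zero hb0
  have hb : algebraMap (ZMod 2)[X] Fx b ≠ 0 := by
    intro h
    rw [map_eq_zero_iff _ (IsFractionRing.injective (ZMod 2)[X] Fx)] at h
    exact hb1 h
  have hβb : β * algebraMap (ZMod 2)[X] Fx b = algebraMap (ZMod 2)[X] Fx a := by
    rw [← hβ, IsFractionRing.mk'_eq_div, div_mul_cancel₀ _ hb]
  have ha1 : a ≠ 0 := by
    rintro rfl
    rw [map_zero, mul_eq_zero] at hβb
    rcases hβb with h | h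
    · exact h0 h
    · exact hb h
  by_cases hua : IsUnit a
  · by_cases hub : IsUnit b
    · exfalso
      apply h1
      rw [plac_unit hua, plac_unit hub, map_one, mul_one] at hβb
      exact hβb
    · obtain ⟨p, hp, hpb⟩ := WfDvdMonoid.exists_irreducible_factor hub hb1
      have hpa : ¬ p ∣ a := fun hd => hp.not_isUnit (isUnit_of_dvd_unit hd hua)
      have hβa : β⁻¹ * algebraMap (ZMod 2)[X] Fx a = algebraMap (ZMod 2)[X] Fx b := by
        rw [← hβb, inv_mul_cancel_left₀ h0]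
      exact ⟨⟨p, hp⟩, β⁻¹, Or.inr rfl, plac_mul (p := ⟨p, hp⟩) hpa hβa,
        plac_div (p := ⟨p, hp⟩) hpb hpa hβa⟩
  · obtain ⟨p, hp, hpa⟩ := WfDvdMonoid.exists_irreducible_factor hua ha1
    have hpb : ¬ p ∣ b := fun hd => hp.not_isUnit (hrel hpa hd)
    exact ⟨⟨p, hp⟩, β, Or.inl rfl, plac_mul (p := ⟨p, hp⟩) hpb hβb,
      plac_div (p := ⟨p, hp⟩) hpa hpb hβb⟩

theorem vp_a4 (p : Pl) : Infinite (Vp p) := by
  have h1 : ∀ q : (ZMod 2)[X], algebraMap (ZMod 2)[X] Fx q ∈ Vp p := fun q =>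
    mem_Vp.2 ⟨q, 1, fun hd => p.2.not_isUnit (isUnit_of_dvd_one hd), by rw [map_one, mul_one]⟩
  exact Infinite.of_injective (fun q : (ZMod 2)[X] => (⟨algebraMap (ZMod 2)[X] Fx q, h1 q⟩ : Vp p))
    (fun q q' h => IsFractionRing.injective (ZMod 2)[X] Fx (congrArg Subtype.val h))

end Pool.Agent.CUN
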