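import Pool.Agent.CUN.Asm
import Pool.Agent.CUN.PlaB
import Pool.Agent.CUN.PlaC

/-!
# CUN: the final theorem
-/

namespace Pool.Agent.CUN

/-- The data of the rational function field over `F_2`. -/
def datum : PD Fx Pl where
  V := Vp
  a1 := vp_a1
  a2 := vp_a2
  a3 := vp_a3
  a4 := vp_a4

theorem exists_scalar : ∃ l : Fx, l ≠ 0 ∧ l ≠ 1 := by
  refine ⟨algebraMap (Polynomial (ZMod 2)) Fx Polynomial.X, ?_, ?_⟩
  · intro h
    rw [← map_zero (algebraMap (Polynomial (ZMod 2)) Fx)] at h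
    exact Polynomial.X_ne_zero (IsFractionRing.injective (Polynomial (ZMod 2)) Fx h)
  · intro h
    rw [← map_one (algebraMap (Polynomial (ZMod 2)) Fx)] at h
    have h2 := IsFractionRing.injective (Polynomial (ZMod 2)) Fx h
    exact Polynomial.X_ne_C (1 : ZMod 2) (by rw [h2, map_one])

theorem main : ∃ (R : Type) (_ : Ring R), (∀ a : R, a + a = 0) ∧
    (∀ a : R, ∃ e u : R, e * e = e ∧ IsUnit u ∧ a = e + u) ∧
    (∀ u : R, IsUnit u → ∃ e : R, e * e = e ∧ IsNilpotent (u - e)) ∧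
    ∃ a : R, ∀ e : R, e * e = e → ¬ IsNilpotent (a - e) := by
  obtain ⟨l, h0, h1⟩ := exists_scalar
  exact main_D datum l h0 h1

end Pool.Agent.CUN
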