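import Pool.Agent.CUN.IdxP

/-!
# CUN: a unit is not a scalar different from one on an invariant idempotent (package NoSc)

`β ≠ 0`, otherwise `sg e = sg u' * sg u * sg e = 0`. If `β ≠ 1` take `v, γ` of `D.a3`. If `γ = β`
apply `idx_place` to `u, u', e`. If `γ = β⁻¹`, then `sg u' * sg e = β⁻¹ • sg e` (multiply
`sg u * sg e = β • sg e` by `sg u'`), and `idx_place` applies to `u', u, e`.
-/

namespace Pool.Agent.CUN

variable {F : Type} [Field F] [Algebra (ZMod 2) F] {P : Type}
  {κ : Type} [Fintype κ] [DecidableEq κ]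

theorem no_scalar (D : PD F P) (u u' e : Matrix κ κ (T D)) (he : e * e = e)
    (huu' : u * u' = 1) (hu'u : u' * u = 1) (hue : e * (u * e) = u * e)
    (hu'e : e * (u' * e) = u' * e) (β : F) (hs : sg D u * sg D e = β • sg D e)
    (h0 : sg D e ≠ 0) : β = 1 := by
  have h1 : sg D u' * sg D u = 1 := by rw [← map_mul, hu'u, map_one]
  have h2 : sg D e = β • (sg D u' * sg D e) := by
    calc sg D e = (sg D u' * sg D u) * sg D e := by rw [h1, one_mul]
      _ = sg D u' * (sg D u * sg D e) := mul_assoc _ _ _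
      _ = β • (sg D u' * sg D e) := by rw [hs, Matrix.mul_smul]
  have hβ : β ≠ 0 := by
    intro hb
    rw [hb, zero_smul] at h2
    exact h0 h2
  by_contra hβ1
  obtain ⟨v, γ, hγ, hc, hz⟩ := D.a3 β hβ hβ1
  rcases hγ with rfl | rfl
  · exact h0 (idx_place D v u u' e he huu' hu'u hue hu'e _ hβ hs hc hz)
  · have h3 : sg D u' * sg D e = β⁻¹ • sg D e := by
      conv_rhs => rw [h2]
      rw [smul_smul, inv_mul_cancel₀ hβ, one_smul]
    exact h0 (idx_place D v u' u e he hu'u huu' hu'e hue _ (inv_ne_zero hβ) h3 hc hz)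

end Pool.Agent.CUN
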