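import Mathlib

/-!
# CUN: the places of the rational function field over `F_2`, definitions and finiteness
(package PlaA)

`Pl` = irreducible polynomials over `ZMod 2`; `Vp p` = the fractions `s / t` with `p ∤ t` (a local
ring, a subspace over `ZMod 2`).

`vp_mem`, `vp_one`, `vp_mul`: closure properties (`p` is prime).

`vp_a1`: write `μ = a / b`, `b = p ^ m * c` with `p ∤ c` (`b ≠ 0`;
`exists_eq_pow_mul_and_not_dvd`, `FiniteMultiplicity`). For `f = s / t`, `p ∤ t`, there is `t'` with
`t * t' ≡ 1` modulo `p ^ m` (coprime: `IsCoprime`, `IsCoprime.pow_right`); let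
`r = (s * t') %ₘ`/`% p ^ m`; then `p ^ m ∣ s - r * t`, say `s - r * t = p ^ m * w`, so
`μ f - μ r = (a / (p ^ m c)) (p ^ m w / t) = a w / (c t) ∈ Vp p`. So the class of `μ * f` is one
of the classes of `μ * r` with `r.degree < (p ^ m).degree`, and there are finitely many such `r`
(`Polynomial.degreeLT (ZMod 2) N` is finite: `Polynomial.degreeLTEquiv`).

`vp_a2`: `μ = a / b` with `b ≠ 0`; if `p ∤ b` then `μ Vp ⊆ Vp`; there are only finitely many `p`
dividing `b` (their degree is at most the degree of `b`).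
-/

namespace Pool.Agent.CUN

open Polynomial

/-- Places: irreducible polynomials over `F_2`. -/
def Pl : Type := {p : Polynomial (ZMod 2) // Irreducible p}

/-- The rational function field. -/
abbrev Fx : Type := FractionRing (Polynomial (ZMod 2))

/-- The fractions which are integral at `p`. -/
def vpSet (p : Pl) : Set Fx :=
  {f | ∃ s t : Polynomial (ZMod 2), ¬ p.1 ∣ t ∧
    f * algebraMap (Polynomial (ZMod 2)) Fx t = algebraMap (Polynomial (ZMod 2)) Fx s}

theorem vpSet_add {p : Pl} {f g : Fx} (hf : f ∈ vpSet p) (hg : g ∈ vpSet p) :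
    f + g ∈ vpSet p := by
  obtain ⟨s, t, ht, h⟩ := hf
  obtain ⟨s', t', ht', h'⟩ := hg
  refine ⟨s * t' + s' * t, t * t', ?_, ?_⟩
  · intro hd
    rcases p.2.prime.dvd_or_dvd hd with h1 | h1
    · exact ht h1
    · exact ht' h1
  · rw [map_mul, map_add, map_mul, map_mul, ← h, ← h']
    ring

theorem vpSet_zero (p : Pl) : (0 : Fx) ∈ vpSet p :=
  ⟨0, 1, fun hd => p.2.not_isUnit (isUnit_of_dvd_one hd), by simp⟩

/-- The local subspace at `p`. -/
def Vp (p : Pl) : Submodule (ZMod 2) Fx where
  carrier := vpSet p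
  add_mem' := vpSet_add
  zero_mem' := vpSet_zero p
  smul_mem' := by
    intro c f hf
    have hc : c = 0 ∨ c = 1 := by
      revert c
      decide
    rcases hc with rfl | rfl
    · rw [zero_smul]
      exact vpSet_zero p
    · rw [one_smul]
      exact hf

theorem mem_Vp {p : Pl} {f : Fx} : f ∈ Vp p ↔ ∃ s t : Polynomial (ZMod 2), ¬ p.1 ∣ t ∧
    f * algebraMap (Polynomial (ZMod 2)) Fx t = algebraMap (Polynomial (ZMod 2)) Fx s := Iff.rfl

end Pool.Agent.CUN
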