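import Mathlib

/-!
# CUN: regularity lemmas (package RegA)

`reg_ext`: with `z = x - x * y * x` and `z * w * z = z`, the element
`y + (1 - y * x) * w * (1 - x * y)` is a quasi-inverse of `x`
(`x * (1 - y * x) = z = (1 - x * y) * x`).

`fld_reg`: every matrix over a field has a quasi-inverse: for `t : (n → k) →ₗ (n → k)` choose a
linear right inverse `s : range t → (n → k)` of `t` (`LinearMap.exists_rightInverse_of_surjective`
for `t.rangeRestrict`) and a linear retraction `p : (n → k) → range t`; `s ∘ p` is a quasi-inverse.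
Transport with `Matrix.toLin'` / `Matrix.toLinAlgEquiv'`.

`fin_reg`: the same argument; `s ∘ p` has finite range as `range N` is finite.
-/

namespace Pool.Agent.CUN

theorem reg_ext {B : Type} [Ring B] (x y w : B)
    (h : (x - x * y * x) * w * (x - x * y * x) = x - x * y * x) : ∃ y', x * y' * x = x := by
  refine ⟨y + (1 - y * x) * w * (1 - x * y), ?_⟩
  have e1 : x * (y + (1 - y * x) * w * (1 - x * y)) * x =
      x * y * x + (x - x * y * x) * w * (x - x * y * x) := by noncomm_ring
  rw [e1, h, add_sub_cancel]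

private theorem quasi {k V : Type} [Field k] [AddCommGroup V] [Module k V] (f : V →ₗ[k] V) :
    ∃ (r : LinearMap.range f →ₗ[k] V) (p : V →ₗ[k] LinearMap.range f),
      ∀ v, f (r (p (f v))) = f v := by
  obtain ⟨r, hr⟩ := f.rangeRestrict.exists_rightInverse_of_surjective f.range_rangeRestrict
  obtain ⟨p, hp⟩ := (LinearMap.range f).subtype.exists_leftInverse_of_injective
    (LinearMap.range f).ker_subtype
  refine ⟨r, p, fun v => ?_⟩
  have h1 : p (f v) = f.rangeRestrict v := LinearMap.congr_fun hp (f.rangeRestrict v)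
  have h2 : f.rangeRestrict (r (p (f v))) = p (f v) := LinearMap.congr_fun hr (p (f v))
  have h3 := congrArg Subtype.val h2
  rw [h1] at h3
  rw [h1]
  exact h3

theorem fld_reg {k n : Type} [Field k] [Fintype n] [DecidableEq n] (t : Matrix n n k) :
    ∃ s : Matrix n n k, t * s * t = t := by
  obtain ⟨r, p, h⟩ := quasi (Matrix.toLin' t)
  refine ⟨LinearMap.toMatrix' (r ∘ₗ p), Matrix.toLin'.injective ?_⟩
  rw [Matrix.toLin'_mul, Matrix.toLin'_mul, Matrix.toLin'_toMatrix']
  exact LinearMap.ext h

theorem fin_reg {W : Type} [AddCommGroup W] [Module (ZMod 2) W] (N : Module.End (ZMod 2) W)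
    (hN : (Set.range N).Finite) :
    ∃ w : Module.End (ZMod 2) W, (Set.range w).Finite ∧ N * w * N = N := by
  have : Fact (Nat.Prime 2) := ⟨Nat.prime_two⟩
  obtain ⟨r, p, h⟩ := quasi N
  have hf : Finite (LinearMap.range N) := hN.to_subtype
  refine ⟨r ∘ₗ p, ?_, LinearMap.ext h⟩
  refine (Set.finite_range r).subset ?_
  rintro _ ⟨v, rfl⟩
  exact ⟨p v, rfl⟩

end Pool.Agent.CUN
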