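import Pool.Agent.CUN.Surj
import Pool.Agent.CUN.Finr
import Pool.Agent.CUN.FinE
import Pool.Agent.CUN.RegA

/-!
# CUN: the matrix rings over the Toeplitz ring are von Neumann regular (package Reg)

Let `t = sg x`, `t * s * t = t` (`fld_reg`), `y` with `sg y = s` (`sg_surj`),
`z = x - x * y * x`; `sg z = 0`. By `fin_of_sg_zero` all `rho v z` have finite range and almost all
vanish. Choose `w v` with finite range and `rho v z * w v * rho v z = rho v z` (`fin_reg`),
`w v = 0` if `rho v z = 0`; let `w` be the element of `exists_of_fin`. Then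
`z * w * z = z` by `mat_ext`, and `reg_ext` finishes.
-/

namespace Pool.Agent.CUN

variable {F : Type} [Field F] [Algebra (ZMod 2) F] {P : Type}
  {κ : Type} [Fintype κ] [DecidableEq κ]

theorem mat_reg (D : PD F P) (x : Matrix κ κ (T D)) : ∃ y, x * y * x = x := by
  classical
  obtain ⟨s, hs⟩ := fld_reg (sg D x)
  obtain ⟨y, hy⟩ := sg_surj D s
  set z : Matrix κ κ (T D) := x - x * y * x with hz
  have hz0 : sg D z = 0 := by
    have h := RingHom.map_sub (sg D) x (x * y * x)
    have h' := RingHom.map_mul (sg D) (x * y) x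
    have h'' := RingHom.map_mul (sg D) x y
    rw [hz, h, h', h'', hy, hs, sub_self]
  obtain ⟨h1, h2⟩ := fin_of_sg_zero D z hz0
  have hw : ∀ v, ∃ w : Module.End (ZMod 2) (κ → D.V v), (Set.range w).Finite ∧
      rho D v z * w * rho D v z = rho D v z ∧ (rho D v z = 0 → w = 0) := by
    intro v
    by_cases h0 : rho D v z = 0
    · refine ⟨0, ?_, by rw [h0]; simp, fun _ => rfl⟩
      refine (Set.finite_singleton (0 : κ → D.V v)).subset ?_
      rintro _ ⟨f, rfl⟩
      simp
    · obtain ⟨w, hw1, hw2⟩ := fin_reg (rho D v z) (h1 v)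
      exact ⟨w, hw1, hw2, fun h => absurd h h0⟩
  choose w hw1 hw2 hw3 using hw
  obtain ⟨u, hu0, hu⟩ := exists_of_fin D w hw1
    (h2.subset fun v hv h => hv (hw3 v h))
  apply reg_ext x y u
  rw [← hz]
  apply mat_ext D
  · have h' := RingHom.map_mul (sg D) (z * u) z
    rw [h', hz0, mul_zero]
  · intro v
    have h' := RingHom.map_mul (rho D v) (z * u) z
    have h'' := RingHom.map_mul (rho D v) z u
    rw [h', h'', hu v, hw2 v]

end Pool.Agent.CUN
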