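import Pool.Agent.CUN.Base

/-!
# CUN: symbol and local action (package Rho)

`rho_sub_finite`: the entries `x i j` of `x` satisfy `good`, so for every `v` and all `i, j` the
set of `(x i j).2 v g - (x i j).1 * g` (`g` in `V v`) is finite; the difference
`rho x f i - ∑ j, sg x i j * f j` is the sum over `j` of such terms with `g = f j`, so the range of
the function of `f` is contained in a finite product (`Set.Finite.pi`) of finite sums.

`rho_eq_ae`: for `v` outside of the finite union over `i, j` of the exceptional sets of `x i j`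
all the differences vanish.

`mat_ext`: the entries of `x` and `y` have equal first components by `sg_apply`, and
`(x i j).2 v g = rho x (Pi.single j g) i`.
-/

namespace Pool.Agent.CUN

variable {F : Type} [Field F] [Algebra (ZMod 2) F] {P : Type}
  {κ : Type} [Fintype κ] [DecidableEq κ]

private theorem rho_sub (D : PD F P) (v : P) (x : Matrix κ κ (T D)) (f : κ → D.V v) (i : κ) :
    ((rho D v x f i : D.V v) : F) - ∑ j, sg D x i j * (f j : F) =
      ∑ j, ((((x i j : F × (∀ v, Module.End (ZMod 2) (D.V v))).2 v (f j) : D.V v) : F) -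
        (x i j : F × (∀ v, Module.End (ZMod 2) (D.V v))).1 * (f j : F)) := by
  rw [rho_apply, Submodule.coe_sum, Finset.sum_sub_distrib]
  rfl

private theorem rho_single (D : PD F P) (v : P) (x : Matrix κ κ (T D)) (i j : κ) (g : D.V v) :
    rho D v x (Pi.single j g) i = (x i j : F × (∀ v, Module.End (ZMod 2) (D.V v))).2 v g := by
  rw [rho_apply, Finset.sum_eq_single j]
  · rw [Pi.single_eq_same]
  · intro k _ hk
    rw [Pi.single_eq_of_ne hk, map_zero]
  · intro h
    exact absurd (Finset.mem_univ j) h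

theorem rho_sub_finite (D : PD F P) (v : P) (x : Matrix κ κ (T D)) :
    (Set.range fun (f : κ → D.V v) (i : κ) =>
      ((rho D v x f i : D.V v) : F) - ∑ j, sg D x i j * (f j : F)).Finite := by
  have h1 : ∀ i j, (Set.range fun g : D.V v =>
      (((x i j : F × (∀ v, Module.End (ZMod 2) (D.V v))).2 v g : D.V v) : F) -
        (x i j : F × (∀ v, Module.End (ZMod 2) (D.V v))).1 * (g : F)).Finite :=
    fun i j => (x i j).2.1 v
  have h2 : ∀ i, ((fun h : κ → F => ∑ j, h j) '' {h : κ → F | ∀ j, h j ∈ (Set.range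
      fun g : D.V v => (((x i j : F × (∀ v, Module.End (ZMod 2) (D.V v))).2 v g : D.V v) : F) -
        (x i j : F × (∀ v, Module.End (ZMod 2) (D.V v))).1 * (g : F))}).Finite :=
    fun i => (Set.Finite.pi' (h1 i)).image _
  refine (Set.Finite.pi' h2).subset ?_
  rintro _ ⟨f, rfl⟩ i
  exact ⟨_, fun j => ⟨f j, rfl⟩, (rho_sub D v x f i).symm⟩

theorem rho_eq_ae (D : PD F P) (x : Matrix κ κ (T D)) :
    {v | ∃ (f : κ → D.V v) (i : κ),
      ((rho D v x f i : D.V v) : F) ≠ ∑ j, sg D x i j * (f j : F)}.Finite := by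
  have h1 : (⋃ i : κ, ⋃ j : κ, {v | ∃ g : D.V v,
      (((x i j : F × (∀ v, Module.End (ZMod 2) (D.V v))).2 v g : D.V v) : F) ≠
        (x i j : F × (∀ v, Module.End (ZMod 2) (D.V v))).1 * (g : F)}).Finite :=
    Set.finite_iUnion fun i => Set.finite_iUnion fun j => (x i j).2.2
  refine h1.subset ?_
  rintro v ⟨f, i, hv⟩
  by_contra hcon
  apply hv
  refine sub_eq_zero.1 ((rho_sub D v x f i).trans (Finset.sum_eq_zero fun j _ => ?_))
  rw [sub_eq_zero]
  by_contra h3
  exact hcon (Set.mem_iUnion.2 ⟨i, Set.mem_iUnion.2 ⟨j, f j, h3⟩⟩)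

theorem mat_ext (D : PD F P) {x y : Matrix κ κ (T D)} (h : sg D x = sg D y)
    (h' : ∀ v, rho D v x = rho D v y) : x = y := by
  refine Matrix.ext fun i j => Subtype.ext (Prod.ext ?_ ?_)
  · exact congrFun (congrFun h i) j
  · funext v
    refine LinearMap.ext fun g => ?_
    rw [← rho_single, ← rho_single, h' v]

end Pool.Agent.CUN
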