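import Pool.Agent.CUN.Base

/-!
# CUN: block triangular sums of nilpotents (package TNb)

`nil_tri`: let `a = f a f`, `b = g b g` be nilpotent, `c = f c g`. For `y = a + b + c` one shows by
induction `y ^ (m + 1) = a ^ (m + 1) + b ^ (m + 1) + f * s * g` for some `s`; for `m` large
`y ^ (m + 1) = f * s * g`, with square `0` as `g * f = 0`.

`tn_blocks`: `f M f = n₁ + n₂`, `g M g = m₁ + m₂`;
`M = (n₁ + m₁ + f M g) + (n₂ + m₂ + g M f)`, both nilpotent by `nil_tri`.
-/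

namespace Pool.Agent.CUN

private theorem mul_zer {B : Type} [Ring B] {x y p q : B} (hx : x * p = x) (hy : q * y = y)
    (hpq : p * q = 0) : x * y = 0 := by
  rw [← hx, ← hy, mul_assoc, ← mul_assoc p, hpq, zero_mul, mul_zero]

private theorem tri_pow {B : Type} [Ring B] (f g a b c : B)
    (hfg : f * g = 0) (hgf : g * f = 0) (ha1 : f * a = a) (ha2 : a * f = a) (hb1 : g * b = b)
    (hb2 : b * g = b) (hc1 : f * c = c) (hc2 : c * g = c) (m : ℕ) :
    ∃ s, f * s = s ∧ s * g = s ∧ (a + b + c) ^ (m + 1) = a ^ (m + 1) + b ^ (m + 1) + s := by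
  induction m with
  | zero => exact ⟨c, hc1, hc2, by simp⟩
  | succ m ih =>
    obtain ⟨s, h1, h2, h3⟩ := ih
    have hA1 : f * a ^ (m + 1) = a ^ (m + 1) := by rw [pow_succ', ← mul_assoc, ha1]
    have hA2 : a ^ (m + 1) * f = a ^ (m + 1) := by rw [pow_succ, mul_assoc, ha2]
    have hB2 : b ^ (m + 1) * g = b ^ (m + 1) := by rw [pow_succ, mul_assoc, hb2]
    refine ⟨a ^ (m + 1) * c + s * b, ?_, ?_, ?_⟩
    · rw [mul_add, ← mul_assoc, ← mul_assoc, hA1, h1]
    · rw [add_mul, mul_assoc, mul_assoc, hc2, hb2]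
    · have e1 : a ^ (m + 1) * b = 0 := mul_zer hA2 hb1 hfg
      have e2 : b ^ (m + 1) * a = 0 := mul_zer hB2 ha1 hgf
      have e3 : b ^ (m + 1) * c = 0 := mul_zer hB2 hc1 hgf
      have e4 : s * a = 0 := mul_zer h2 ha1 hgf
      have e5 : s * c = 0 := mul_zer h2 hc1 hgf
      calc (a + b + c) ^ (m + 1 + 1) = (a ^ (m + 1) + b ^ (m + 1) + s) * (a + b + c) := by
            rw [pow_succ, h3]
        _ = a ^ (m + 1) * a + b ^ (m + 1) * b + (a ^ (m + 1) * c + s * b) +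
            (a ^ (m + 1) * b + b ^ (m + 1) * a + b ^ (m + 1) * c + s * a + s * c) := by
            noncomm_ring
        _ = a ^ (m + 1 + 1) + b ^ (m + 1 + 1) + (a ^ (m + 1) * c + s * b) := by
            rw [e1, e2, e3, e4, e5, ← pow_succ, ← pow_succ]
            simp

theorem nil_tri {B : Type} [Ring B] (f g a b c : B) (hf : f * f = f) (hg : g * g = g)
    (hfg : f * g = 0) (hgf : g * f = 0) (ha1 : f * a = a) (ha2 : a * f = a) (hb1 : g * b = b)
    (hb2 : b * g = b) (hc1 : f * c = c) (hc2 : c * g = c) (ha : IsNilpotent a)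
    (hb : IsNilpotent b) : IsNilpotent (a + b + c) := by
  have _ := hf
  have _ := hg
  obtain ⟨n, hn⟩ := ha
  obtain ⟨k, hk⟩ := hb
  obtain ⟨s, h1, h2, h3⟩ := tri_pow f g a b c hfg hgf ha1 ha2 hb1 hb2 hc1 hc2 (n + k)
  have e1 : a ^ (n + k + 1) = 0 := pow_eq_zero_of_le (by omega) hn
  have e2 : b ^ (n + k + 1) = 0 := pow_eq_zero_of_le (by omega) hk
  rw [e1, e2, zero_add, zero_add] at h3
  refine ⟨(n + k + 1) * 2, ?_⟩
  rw [pow_mul, h3, sq]
  exact mul_zer h2 h1 hgf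

theorem tn_blocks {B : Type} [Ring B] (f g M : B) (hf : f * f = f) (hg : g * g = g)
    (hfg : f * g = 0) (hgf : g * f = 0) (hM : (f + g) * M * (f + g) = M)
    (h1 : TN f (f * M * f)) (h2 : TN g (g * M * g)) : TN (f + g) M := by
  obtain ⟨n₁, n₂, a1, a2, a3, a4, a5, a6, a7⟩ := h1
  obtain ⟨m₁, m₂, b1, b2, b3, b4, b5, b6, b7⟩ := h2
  have c1 : f * (f * M * g) = f * M * g := by rw [← mul_assoc, ← mul_assoc, hf]
  have c2 : f * M * g * g = f * M * g := by rw [mul_assoc, hg]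
  have c3 : g * (g * M * f) = g * M * f := by rw [← mul_assoc, ← mul_assoc, hg]
  have c4 : g * M * f * f = g * M * f := by rw [mul_assoc, hf]
  have ef : ∀ x : B, f * x = x → (f + g) * x = x := fun x hx => by
    rw [add_mul, hx, mul_zer (p := g) (q := f) hg hx hgf, add_zero]
  have eg : ∀ x : B, g * x = x → (f + g) * x = x := fun x hx => by
    rw [add_mul, hx, mul_zer (p := f) (q := g) hf hx hfg, zero_add]
  have ef' : ∀ x : B, x * f = x → x * (f + g) = x := fun x hx => by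
    rw [mul_add, hx, mul_zer (p := f) (q := g) hx hg hfg, add_zero]
  have eg' : ∀ x : B, x * g = x → x * (f + g) = x := fun x hx => by
    rw [mul_add, hx, mul_zer (p := g) (q := f) hx hf hgf, zero_add]
  refine ⟨n₁ + m₁ + f * M * g, m₂ + n₂ + g * M * f,
    nil_tri f g n₁ m₁ (f * M * g) hf hg hfg hgf a3 a4 b3 b4 c1 c2 a1 b1,
    nil_tri g f m₂ n₂ (g * M * f) hg hf hgf hfg b5 b6 a5 a6 c3 c4 b2 a2, ?_, ?_, ?_, ?_, ?_⟩
  · rw [mul_add, mul_add, ef _ a3, eg _ b3, ef _ c1]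
  · rw [add_mul, add_mul, ef' _ a4, eg' _ b4, eg' _ c2]
  · rw [mul_add, mul_add, eg _ b5, ef _ a5, eg _ c3]
  · rw [add_mul, add_mul, eg' _ b6, ef' _ a6, ef' _ c4]
  · calc n₁ + m₁ + f * M * g + (m₂ + n₂ + g * M * f)
        = (n₁ + n₂) + (m₁ + m₂) + f * M * g + g * M * f := by abel
      _ = f * M * f + g * M * g + f * M * g + g * M * f := by rw [a7, b7]
      _ = (f + g) * M * (f + g) := by noncomm_ring
      _ = M := hM

end Pool.Agent.CUN
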