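import Pool.Agent.CUN.Stp
import Pool.Agent.CUN.TNb

/-!
# CUN: Lemma S (package SL)

Induction on `r = (σ E).rank`, for all `E, M`. `r = 0` is excluded by `σ E ≠ 0`. If `r = 1`,
`σ M = σ E * σ M * σ E` has trace `0`, so `σ M = 0` by `rank_one_corner`, and `hD E M` applies.
If `r ≥ 2`: `σ M` is not in `k σ E`; `step` gives `f'`; lift it by `hlift` to `f ≤ E`, and let
`g = E - f`: `g * g = g`, `f * g = 0 = g * f`, `E = f + g`. `σ (f M f) = 0`, so
`TN (Dm f) (Dm (f M f))` by `hD f (f M f)`. The trace of `σ M` is the sum of the traces of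
`f' σ M f'` and `(σ E - f') σ M (σ E - f')` (`Matrix.trace_mul_comm`), so `g M g` has trace `0`;
`(σ g).rank = r - 1 ≥ 1`, so `σ g ≠ 0`, and the induction hypothesis gives
`TN (Dm g) (Dm (g M g))`. Conclude by `tn_blocks` for `Dm f`, `Dm g`, `Dm M`.
-/

namespace Pool.Agent.CUN

private theorem sl_aux {B B' : Type} [Ring B] [Ring B'] {k n : Type} [Field k] [Fintype n]
    [DecidableEq n] (σ : B →+* Matrix n n k) (Dm : B →+* B')
    (hlift : ∀ E : B, E * E = E → ∀ f' : Matrix n n k, f' * f' = f' → σ E * f' = f' →
      f' * σ E = f' → ∃ f : B, f * f = f ∧ E * f = f ∧ f * E = f ∧ σ f = f')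
    (hD : ∀ f δ : B, f * f = f → f * δ * f = δ → (σ f).rank = 1 → σ δ = 0 → TN (Dm f) (Dm δ))
    (r : ℕ) : ∀ E M : B, (σ E).rank = r → E * E = E → E * M * E = M → σ E ≠ 0 →
      (σ M).trace = 0 → ((∀ c : k, σ M ≠ c • σ E) ∨ (σ E).rank = 1) → TN (Dm E) (Dm M) := by
  induction r with
  | zero =>
    intro E M hr hE hM h0 htr hs
    apply absurd _ h0
    have h1 : LinearMap.range (σ E).mulVecLin = ⊥ := Submodule.finrank_eq_zero.1 hr
    rw [LinearMap.range_eq_bot] at h1
    apply Matrix.toLin'.injective
    rw [Matrix.toLin'_apply', h1, map_zero]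
  | succ r ih =>
    intro E M hr hE hM h0 htr hs
    have hE' : σ E * σ E = σ E := by rw [← map_mul, hE]
    have hM' : σ E * σ M * σ E = σ M := by rw [← map_mul, ← map_mul, hM]
    by_cases h1 : (σ E).rank = 1
    · exact hD E M hE hM h1 (rank_one_corner (σ E) (σ M) hE' h1 hM' htr)
    · have hs' : ∀ c : k, σ M ≠ c • σ E := hs.resolve_right h1
      obtain ⟨f', a1, a2, a3, a4, a5, a6, a7⟩ := step (σ E) (σ M) hE' hM' hs'
      obtain ⟨f, b1, b2, b3, rfl⟩ := hlift E hE f' a1 a2 a3
      obtain ⟨g, hg⟩ : ∃ g : B, g = E - f := ⟨_, rfl⟩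
      have hfg : f * g = 0 := by rw [hg, mul_sub, b3, b1, sub_self]
      have hgf : g * f = 0 := by rw [hg, sub_mul, b2, b1, sub_self]
      have hEfg : f + g = E := by rw [hg]; abel
      have hgg : g * g = g := by
        have h2 : E * g = g := by rw [hg, mul_sub, hE, b2]
        calc g * g = (E - f) * g := by rw [← hg]
          _ = E * g - f * g := sub_mul _ _ _
          _ = g := by rw [h2, hfg, sub_zero]
      have hσg : σ g = σ E - σ f := by rw [hg, map_sub]
      have t1 : TN (Dm f) (Dm (f * M * f)) := by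
        refine hD f (f * M * f) b1 ?_ a4 ?_
        · calc f * (f * M * f) * f = f * f * M * (f * f) := by simp only [mul_assoc]
            _ = f * M * f := by rw [b1]
        · rw [map_mul, map_mul, a5]
      have htg : (σ (g * M * g)).trace = 0 := by
        have e1 : σ M = σ (f * M * f) + σ (f * M * g) + σ (g * M * f) + σ (g * M * g) := by
          rw [← map_add, ← map_add, ← map_add]
          congr 1
          calc M = E * M * E := hM.symm
            _ = (f + g) * M * (f + g) := by rw [hEfg]
            _ = f * M * f + f * M * g + g * M * f + g * M * g := by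
                rw [add_mul, add_mul, mul_add, mul_add]
                abel
        have e2 : (σ (f * M * g)).trace = 0 := by
          rw [map_mul, Matrix.trace_mul_comm, ← map_mul, ← mul_assoc, hgf, zero_mul, map_zero,
            Matrix.trace_zero]
        have e3 : (σ (g * M * f)).trace = 0 := by
          rw [map_mul, Matrix.trace_mul_comm, ← map_mul, ← mul_assoc, hfg, zero_mul, map_zero,
            Matrix.trace_zero]
        have e4 : (σ (f * M * f)).trace = 0 := by
          rw [map_mul, map_mul, a5, Matrix.trace_zero]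
        have e5 := congrArg Matrix.trace e1
        rw [Matrix.trace_add, Matrix.trace_add, Matrix.trace_add, e2, e3, e4, htr] at e5
        simpa using e5.symm
      have hσg0 : σ g ≠ 0 := by
        intro h2
        rw [hσg] at h2
        rw [h2, Matrix.rank_zero] at a6
        omega
      have t2 : TN (Dm g) (Dm (g * M * g)) := by
        refine ih g (g * M * g) (by rw [hσg]; omega) hgg ?_ hσg0 htg ?_
        · calc g * (g * M * g) * g = g * g * M * (g * g) := by simp only [mul_assoc]
            _ = g * M * g := by rw [hgg]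
        · rcases a7 with a7 | a7
          · exact Or.inr (by rw [hσg]; exact a7)
          · left
            intro c hc
            apply a7 c
            rw [map_mul, map_mul, hσg] at hc
            exact hc
      have t3 := tn_blocks (Dm f) (Dm g) (Dm M) (by rw [← map_mul, b1]) (by rw [← map_mul, hgg])
        (by rw [← map_mul, hfg, map_zero]) (by rw [← map_mul, hgf, map_zero])
        (by rw [← map_add, hEfg, ← map_mul, ← map_mul, hM])
        (by rw [← map_mul, ← map_mul]; exact t1) (by rw [← map_mul, ← map_mul]; exact t2)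
      rw [← map_add, hEfg] at t3
      exact t3

theorem slemma {B B' : Type} [Ring B] [Ring B'] {k n : Type} [Field k] [Fintype n]
    [DecidableEq n] (σ : B →+* Matrix n n k) (Dm : B →+* B')
    (hlift : ∀ E : B, E * E = E → ∀ f' : Matrix n n k, f' * f' = f' → σ E * f' = f' →
      f' * σ E = f' → ∃ f : B, f * f = f ∧ E * f = f ∧ f * E = f ∧ σ f = f')
    (hD : ∀ f δ : B, f * f = f → f * δ * f = δ → (σ f).rank = 1 → σ δ = 0 → TN (Dm f) (Dm δ))
    (E M : B) (hE : E * E = E) (hM : E * M * E = M) (h0 : σ E ≠ 0) (htr : (σ M).trace = 0)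
    (hs : (∀ c : k, σ M ≠ c • σ E) ∨ (σ E).rank = 1) : TN (Dm E) (Dm M) :=
  sl_aux σ Dm hlift hD _ E M rfl hE hM h0 htr hs

end Pool.Agent.CUN
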