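import Pool.Agent.CUN.StpV

/-!
# CUN: the step in matrix form (package Stp)

`rank_one_corner`: `E` has rank one, so its range is spanned by one vector `x`; `M` maps into the
range of `E` and `M = E * M * E`, so `M = c • E` (for all `w`: `E w = a x`, `M w = M (E w) = a M x`,
`M x = c x`). `trace M = c * trace E` and `trace E = 1` (an idempotent of rank one:
`LinearMap.IsProj.trace` or `Matrix.trace` of an idempotent equals its rank; Mathlib has
`LinearMap.IsIdempotentElem.trace_eq_finrank` or similar), so `c = 0`.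

`step`: apply `stp_vec` to the vector space `W = range E` (in `n → k`) and the restriction of `M`
to `W` (not a scalar by `hs`), giving `x, φ`. Let `f` be the matrix of the map
`g ↦ φ (E g) • x`. Then `f` is an idempotent of rank one with `E f = f = f E`, `f M f = 0`
(as `φ (M x) = 0`), the rank of `E - f` is the rank of `E` minus one (`range E` is the direct sum
of `range f` and `range (E - f)`), and if `finrank W ≠ 2` then `(E - f) M (E - f) = c • (E - f)`
would give `M w - φ (M w) • x = c • w` for `w ∈ W` with `φ w = 0` (`(E - f) w = w`), which is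
excluded. If `finrank W = 2`, the rank of `E - f` is `1`.
-/

namespace Pool.Agent.CUN

theorem rank_one_corner {k n : Type} [Field k] [Fintype n] [DecidableEq n] (E M : Matrix n n k)
    (hE : E * E = E) (hr : E.rank = 1) (hM : E * M * E = M) (htr : M.trace = 0) : M = 0 := by
  have hEM : E * M = M := by
    calc E * M = E * (E * M * E) := by rw [hM]
      _ = E * M * E := by rw [← Matrix.mul_assoc, ← Matrix.mul_assoc, hE]
      _ = M := hM
  have hME : M * E = M := by
    calc M * E = E * M * E * E := by rw [hM]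
      _ = E * M * E := by rw [Matrix.mul_assoc, hE]
      _ = M := hM
  obtain ⟨x, hx0, hx⟩ := finrank_eq_one_iff'.1 hr
  obtain ⟨c, hc⟩ := hx ⟨M.mulVecLin x, by
    refine ⟨M.mulVecLin x, ?_⟩
    simp only [Matrix.mulVecLin_apply, Matrix.mulVec_mulVec, hEM]⟩
  have hc' : M.mulVec (x : n → k) = c • (x : n → k) := by
    have := congrArg Subtype.val hc
    simpa using this.symm
  have hMc : M = c • E := by
    apply Matrix.toLin'.injective
    ext1 i
    ext1
    simp only [LinearMap.comp_apply, Matrix.toLin'_apply]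
    set w : n → k := LinearMap.single k (fun _ => k) i 1 with hw
    obtain ⟨a, ha⟩ := hx ⟨E.mulVecLin w, ⟨w, rfl⟩⟩
    have ha' : E.mulVec w = a • (x : n → k) := by
      have := congrArg Subtype.val ha
      simpa using this.symm
    rw [← hME, ← Matrix.mulVec_mulVec, ha', Matrix.mulVec_smul, hc', Matrix.smul_mulVec, ha',
      smul_comm]
  have htE : E.trace = 1 := by
    have hp : LinearMap.IsProj (LinearMap.range E.mulVecLin) (Matrix.toLin' E) := by
      refine ⟨fun w => ⟨w, rfl⟩, ?_⟩
      rintro _ ⟨w, rfl⟩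
      simp [Matrix.mulVec_mulVec, hE]
    have h1 := hp.trace
    rw [Matrix.trace_toLin'_eq] at h1
    rw [h1]
    have : Module.finrank k (LinearMap.range E.mulVecLin) = 1 := hr
    rw [this]
    simp
  rw [hMc, Matrix.trace_smul, htE] at htr
  have : c = 0 := by simpa using htr
  rw [hMc, this, zero_smul]

private theorem rank_orth {k n : Type} [Field k] [Fintype n] [DecidableEq n]
    (p q : Matrix n n k) (hp : p * p = p) (hq : q * q = q) (hpq : p * q = 0) (hqp : q * p = 0) :
    p.rank + q.rank = (p + q).rank := by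
  have h1 : LinearMap.range p.mulVecLin ⊔ LinearMap.range q.mulVecLin
      = LinearMap.range (p + q).mulVecLin := by
    apply le_antisymm
    · refine sup_le ?_ ?_
      · rintro _ ⟨w, rfl⟩
        refine ⟨p.mulVec w, ?_⟩
        simp only [Matrix.mulVecLin_apply, Matrix.mulVec_mulVec, Matrix.add_mul, hp, hqp,
          add_zero]
      · rintro _ ⟨w, rfl⟩
        refine ⟨q.mulVec w, ?_⟩
        simp only [Matrix.mulVecLin_apply, Matrix.mulVec_mulVec, Matrix.add_mul, hq, hpq,
          zero_add]
    · rintro _ ⟨w, rfl⟩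
      rw [Matrix.mulVecLin_apply, Matrix.add_mulVec]
      exact Submodule.add_mem_sup ⟨w, rfl⟩ ⟨w, rfl⟩
  have h2 : LinearMap.range p.mulVecLin ⊓ LinearMap.range q.mulVecLin = ⊥ := by
    rw [eq_bot_iff]
    rintro x ⟨⟨u, hu⟩, ⟨w, hw⟩⟩
    rw [Submodule.mem_bot]
    have e1 : p.mulVec x = x := by
      rw [← hu, Matrix.mulVecLin_apply, Matrix.mulVec_mulVec, hp]
    have e2 : p.mulVec x = 0 := by
      rw [← hw, Matrix.mulVecLin_apply, Matrix.mulVec_mulVec, hpq, Matrix.zero_mulVec]
    rw [← e1, e2]
  have h3 := Submodule.finrank_sup_add_finrank_inf_eq (LinearMap.range p.mulVecLin)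
    (LinearMap.range q.mulVecLin)
  rw [h1, h2, finrank_bot, add_zero] at h3
  exact h3.symm

theorem step {k n : Type} [Field k] [Fintype n] [DecidableEq n] (E M : Matrix n n k)
    (hE : E * E = E) (hM : E * M * E = M) (hs : ∀ c : k, M ≠ c • E) :
    ∃ f : Matrix n n k, f * f = f ∧ E * f = f ∧ f * E = f ∧ f.rank = 1 ∧ f * M * f = 0 ∧
      (E - f).rank + 1 = E.rank ∧
      ((E - f).rank = 1 ∨ ∀ c : k, (E - f) * M * (E - f) ≠ c • (E - f)) := by
  have hEM : E * M = M := by
    calc E * M = E * (E * M * E) := by rw [hM]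
      _ = E * M * E := by rw [← Matrix.mul_assoc, ← Matrix.mul_assoc, hE]
      _ = M := hM
  have hME : M * E = M := by
    calc M * E = E * M * E * E := by rw [hM]
      _ = E * M * E := by rw [Matrix.mul_assoc, hE]
      _ = M := hM
  have hEx : ∀ x : LinearMap.range E.mulVecLin, E.mulVec (x : n → k) = (x : n → k) := by
    rintro ⟨_, ⟨w, rfl⟩⟩
    simp [Matrix.mulVec_mulVec, hE]
  have hMW : ∀ w ∈ LinearMap.range E.mulVecLin, M.mulVecLin w ∈ LinearMap.range E.mulVecLin := by
    intro w _
    refine ⟨M.mulVecLin w, ?_⟩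
    simp only [Matrix.mulVecLin_apply, Matrix.mulVec_mulVec, hEM]
  have hns : ∀ c : k, M.mulVecLin.restrict hMW ≠ c • 1 := by
    intro c hc
    apply hs c
    apply Matrix.toLin'.injective
    ext1 i
    ext1
    simp only [LinearMap.comp_apply, Matrix.toLin'_apply]
    set w : n → k := LinearMap.single k (fun _ => k) i 1 with hw
    have h1 := congrArg Subtype.val (LinearMap.congr_fun hc ⟨E.mulVecLin w, ⟨w, rfl⟩⟩)
    have h2 : M.mulVec (E.mulVec w) = c • E.mulVec w := by
      simpa using h1
    rw [← hME, ← Matrix.mulVec_mulVec, h2, Matrix.smul_mulVec]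
  obtain ⟨x, φ, hx1, hx2, hx3⟩ := stp_vec (M.mulVecLin.restrict hMW) hns
  set φE : (n → k) →ₗ[k] k := φ.comp E.mulVecLin.rangeRestrict with hφE
  have hφ : ∀ w : LinearMap.range E.mulVecLin, φE (w : n → k) = φ w := by
    intro w
    rw [hφE, LinearMap.comp_apply]
    congr 1
    apply Subtype.ext
    simpa using hEx w
  have hφE2 : ∀ g : n → k, φE (E.mulVec g) = φE g := by
    intro g
    exact hφ ⟨E.mulVecLin g, ⟨g, rfl⟩⟩
  have hφx : φE (x : n → k) = 1 := by rw [hφ, hx1]
  have hφM : ∀ w : LinearMap.range E.mulVecLin,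
      φE (M.mulVec (w : n → k)) = φ (M.mulVecLin.restrict hMW w) := by
    intro w
    rw [← hφ]
    rfl
  set f : Matrix n n k := LinearMap.toMatrix' (φE.smulRight (x : n → k)) with hf
  have hfv : ∀ g : n → k, f.mulVec g = φE g • (x : n → k) := by
    intro g
    rw [hf, LinearMap.toMatrix'_mulVec, LinearMap.smulRight_apply]
  have hext : ∀ A B : Matrix n n k, (∀ g, A.mulVec g = B.mulVec g) → A = B := by
    intro A B h
    apply Matrix.toLin'.injective
    apply LinearMap.ext
    intro g
    simpa using h g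
  have hff : f * f = f := by
    apply hext
    intro g
    rw [← Matrix.mulVec_mulVec, hfv, hfv, map_smul, hφx, smul_eq_mul, mul_one]
  have hEf : E * f = f := by
    apply hext
    intro g
    rw [← Matrix.mulVec_mulVec, hfv, Matrix.mulVec_smul, hEx]
  have hfE : f * E = f := by
    apply hext
    intro g
    rw [← Matrix.mulVec_mulVec, hfv, hfv, hφE2]
  have hx0 : (x : n → k) ≠ 0 := by
    intro h
    rw [h, map_zero] at hφx
    exact zero_ne_one hφx
  have hrf : f.rank = 1 := by
    have : LinearMap.range f.mulVecLin = Submodule.span k {(x : n → k)} := by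
      apply le_antisymm
      · rintro _ ⟨g, rfl⟩
        rw [Matrix.mulVecLin_apply, hfv]
        exact Submodule.smul_mem _ _ (Submodule.mem_span_singleton_self _)
      · rw [Submodule.span_singleton_le_iff_mem]
        refine ⟨x, ?_⟩
        rw [Matrix.mulVecLin_apply, hfv, hφx, one_smul]
    rw [Matrix.rank, this]
    exact finrank_span_singleton hx0
  have hfMf : f * M * f = 0 := by
    apply hext
    intro g
    rw [← Matrix.mulVec_mulVec, ← Matrix.mulVec_mulVec, hfv g, Matrix.mulVec_smul,
      Matrix.mulVec_smul, hfv, hφM, hx2, zero_smul, smul_zero, Matrix.zero_mulVec]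
  have hidem : (E - f) * (E - f) = E - f := by
    rw [Matrix.sub_mul, Matrix.mul_sub, Matrix.mul_sub, hE, hEf, hfE, hff]
    abel
  have hrank : (E - f).rank + 1 = E.rank := by
    have h := rank_orth (E - f) f hidem hff (by rw [Matrix.sub_mul, hEf, hff, sub_self])
      (by rw [Matrix.mul_sub, hfE, hff, sub_self])
    rw [hrf, sub_add_cancel] at h
    exact h
  refine ⟨f, hff, hEf, hfE, hrf, hfMf, hrank, ?_⟩
  rcases hx3 with hx3 | hx3
  · left
    have : E.rank = 2 := hx3
    omega
  · right
    intro c hc
    obtain ⟨w, hw1, hw2⟩ := hx3 c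
    apply hw2
    apply Subtype.ext
    have e1 : (E - f).mulVec (w : n → k) = (w : n → k) := by
      rw [Matrix.sub_mulVec, hEx, hfv, hφ, hw1, zero_smul, sub_zero]
    have e2 : ((E - f) * M * (E - f)).mulVec (w : n → k) = (c • (E - f)).mulVec (w : n → k) := by
      rw [hc]
    rw [← Matrix.mulVec_mulVec, ← Matrix.mulVec_mulVec, Matrix.smul_mulVec, e1,
      Matrix.sub_mulVec, hfv, hφM, Matrix.mulVec_mulVec, hEM] at e2
    simpa using e2

end Pool.Agent.CUN
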