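import Mathlib

/-!
# CUN: the linear algebra step (package StpV)

`M` is not a scalar, so there is `x` with `x, M x` linearly independent (if `M x` is a multiple of
`x` for every `x`, then `M` is a scalar; Mathlib may have this, e.g.
`Module.End.mem_...`/`LinearMap.exists_eq_smul_id_of_forall_notLinearIndependent`).
Choose a linear form `φ` with `φ x = 1`, `φ (M x) = 0`. Suppose `finrank W ≠ 2` and that there is
`c` with `M w - φ (M w) • x = c • w` for all `w` with `φ w = 0` (otherwise `φ` is fine).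
As `finrank W ≥ 3` there is a form `ψ ≠ 0` with `ψ x = 0 = ψ (M x)`; let `φ' = φ + ψ`,
`φ' x = 1`, `φ' (M x) = 0`. Claim: `φ'` is fine. Suppose `M w - φ' (M w) • x = c' • w` for all
`w` with `φ' w = 0`. `M x` is in the kernel of `φ` and of `φ'`, so
`M (M x) - φ (M (M x)) • x = c • M x` and `M (M x) - φ' (M (M x)) • x = c' • M x`; as `x, M x` are
independent, `c = c'`. Let `φ w = 0` and `w' = w - ψ w • x`, so `φ' w' = 0`,
`M w' = M w - ψ w • M x`, `M w = c • w + φ (M w) • x`, `M w' = c • w' + φ' (M w') • x`; so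
`ψ w • M x` is a multiple of `x`, so `ψ w = 0`. With `ψ x = 0` and `W = k x + ker φ`: `ψ = 0`,
a contradiction.
-/

namespace Pool.Agent.CUN

theorem stp_vec {k W : Type} [Field k] [AddCommGroup W] [Module k W] [FiniteDimensional k W]
    (M : Module.End k W) (hM : ∀ c : k, M ≠ c • 1) :
    ∃ (x : W) (φ : W →ₗ[k] k), φ x = 1 ∧ φ (M x) = 0 ∧
      (Module.finrank k W = 2 ∨ ∀ c : k, ∃ w, φ w = 0 ∧ M w - φ (M w) • x ≠ c • w) := by
  obtain ⟨x, hx⟩ : ∃ x, LinearIndependent k ![x, M x] := by
    by_contra hcon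
    push Not at hcon
    obtain ⟨a, ha⟩ := LinearMap.exists_eq_smul_id_of_forall_notLinearIndependent (f := M) hcon
    exact hM a ha
  have hind := LinearIndependent.pair_iff.1 hx
  have hne : ∀ a b : k, a • x = b • M x → b = 0 := by
    intro a b h
    have h1 := hind a (-b) (by rw [neg_smul, h, add_neg_cancel])
    exact neg_eq_zero.1 h1.2
  have hx1 : x ∉ Submodule.span k {M x} := by
    intro h
    obtain ⟨a, ha⟩ := Submodule.mem_span_singleton.1 h
    have h1 := hind (-1) a (by rw [ha, neg_smul, one_smul, neg_add_cancel])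
    exact absurd h1.1 (by simp)
  obtain ⟨f, hf1, hf2⟩ := Submodule.exists_dual_map_eq_bot_of_notMem hx1 inferInstance
  have hf3 : f (M x) = 0 := by
    have h1 : f (M x) ∈ Submodule.map f (Submodule.span k {M x}) :=
      Submodule.mem_map_of_mem (Submodule.mem_span_singleton_self _)
    rwa [hf2, Submodule.mem_bot] at h1
  obtain ⟨φ, hφ1, hφ2⟩ : ∃ φ : W →ₗ[k] k, φ x = 1 ∧ φ (M x) = 0 := by
    refine ⟨(f x)⁻¹ • f, ?_, ?_⟩
    · rw [LinearMap.smul_apply, smul_eq_mul, inv_mul_cancel₀ hf1]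
    · rw [LinearMap.smul_apply, hf3, smul_zero]
  by_cases h2 : Module.finrank k W = 2
  · exact ⟨x, φ, hφ1, hφ2, Or.inl h2⟩
  by_cases hgood : ∀ c : k, ∃ w, φ w = 0 ∧ M w - φ (M w) • x ≠ c • w
  · exact ⟨x, φ, hφ1, hφ2, Or.inr hgood⟩
  push Not at hgood
  obtain ⟨c, hc⟩ := hgood
  have hlt : Submodule.span k (Set.range ![x, M x]) < ⊤ := by
    rw [lt_top_iff_ne_top]
    intro h
    apply h2
    rw [← finrank_top k W, ← h, finrank_span_eq_card hx, Fintype.card_fin]
  obtain ⟨ψ, hψ0, hψ⟩ := Submodule.exists_dual_map_eq_bot_of_lt_top hlt inferInstance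
  have hker : ∀ y ∈ Submodule.span k (Set.range ![x, M x]), ψ y = 0 := by
    intro y hy
    have h1 : ψ y ∈ Submodule.map ψ (Submodule.span k (Set.range ![x, M x])) :=
      Submodule.mem_map_of_mem hy
    rwa [hψ, Submodule.mem_bot] at h1
  have hψx : ψ x = 0 := hker x (Submodule.subset_span ⟨0, rfl⟩)
  have hψm : ψ (M x) = 0 := hker (M x) (Submodule.subset_span ⟨1, rfl⟩)
  refine ⟨x, φ + ψ, ?_, ?_, Or.inr fun c' => ?_⟩
  · rw [LinearMap.add_apply, hφ1, hψx, add_zero]
  · rw [LinearMap.add_apply, hφ2, hψm, add_zero]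
  by_contra hcon
  push Not at hcon
  have hcc : c - c' = 0 := by
    have h3 := hc (M x) hφ2
    have h4 := hcon (M x) (by rw [LinearMap.add_apply, hφ2, hψm, add_zero])
    apply hne ((φ + ψ) (M (M x)) - φ (M (M x)))
    rw [sub_smul, sub_smul, ← h3, ← h4]
    abel
  apply hψ0
  ext w
  -- reduce to the kernel of `φ`
  have key : ∀ w, φ w = 0 → ψ w = 0 := by
    intro w hw
    have h3 := hc w hw
    have h4 := hcon (w - ψ w • x) (by
      rw [LinearMap.add_apply, map_sub, map_sub, map_smul, map_smul, hφ1, hψx, hw, smul_zero,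
        smul_eq_mul]
      ring)
    have h5 : c' = c := (sub_eq_zero.1 hcc).symm
    rw [h5] at h4
    apply hne (φ (M w) + c * ψ w - (φ + ψ) (M (w - ψ w • x)))
    have h6 : M w = c • w + φ (M w) • x := by
      rw [← h3]
      abel
    have h7 : M (w - ψ w • x) = M w - ψ w • M x := by
      rw [map_sub, map_smul]
    have h8 : M w - ψ w • M x = c • (w - ψ w • x) + (φ + ψ) (M (w - ψ w • x)) • x := by
      rw [← h4, ← h7]
      abel
    have h9 : ψ w • M x = M w - (c • (w - ψ w • x) + (φ + ψ) (M (w - ψ w • x)) • x) := by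
      rw [← h8]
      abel
    rw [h9, sub_smul, add_smul, mul_smul, smul_sub]
    nth_rewrite 2 [h6]
    abel
  have h10 := key (w - φ w • x) (by rw [map_sub, map_smul, hφ1, smul_eq_mul, mul_one, sub_self])
  rw [map_sub, map_smul, hψx, smul_zero, sub_zero] at h10
  rw [h10, LinearMap.zero_apply]

end Pool.Agent.CUN
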