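import Pool.Agent.CUN.Base

/-!
# CUN: the symbol is surjective (package Surj)

It is enough to lift one scalar `μ : F` to an element of `T D` with first component `μ` (then lift
a matrix entrywise). For every `v` let `r v : F →ₗ[ZMod 2] V v` be a linear retraction of the
inclusion (`Submodule.exists_isCompl` and `Submodule.linearProjOfIsCompl`, or
`LinearMap.exists_leftInverse_of_injective`), `r v f = f` for `f ∈ V v`, and
`x v f = r v (μ * f)`. The difference `r v (μ * f) - μ * f` depends only on the class of `μ * f`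
modulo `V v` (it is `r v c - c` for `c` any representative, since `r v c = c` on `V v`), and by
`D.a1` there are finitely many classes. If `μ * f ∈ V v` for all `f ∈ V v` (almost all `v` by
`D.a2`), the difference is zero.
-/

namespace Pool.Agent.CUN

variable {F : Type} [Field F] [Algebra (ZMod 2) F] {P : Type}
  {κ : Type} [Fintype κ] [DecidableEq κ]

private theorem exists_retr (D : PD F P) (v : P) :
    ∃ r : F →ₗ[ZMod 2] D.V v, ∀ f : F, f ∈ D.V v → (r f : F) = f := by
  obtain ⟨r, hr⟩ := LinearMap.exists_leftInverse_of_injective (D.V v).subtype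
    (Submodule.ker_subtype _)
  refine ⟨r, fun f hf => ?_⟩
  have h := LinearMap.congr_fun hr ⟨f, hf⟩
  exact congrArg Subtype.val h

private theorem lift_scalar (D : PD F P) (μ : F) :
    ∃ x : T D, (x : F × (∀ v, Module.End (ZMod 2) (D.V v))).1 = μ := by
  choose r hr using exists_retr D
  refine ⟨⟨(μ, fun v => r v ∘ₗ LinearMap.mulLeft (ZMod 2) μ ∘ₗ (D.V v).subtype), ?_, ?_⟩, rfl⟩
  · intro v
    have hk : D.V v ≤ LinearMap.ker ((D.V v).subtype ∘ₗ r v - LinearMap.id) := by
      intro f hf
      rw [LinearMap.mem_ker]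
      change (r v f : F) - f = 0
      rw [hr v f hf, sub_self]
    refine ((D.a1 v μ).image ((D.V v).liftQ _ hk)).subset ?_
    rintro _ ⟨f, rfl⟩
    exact ⟨_, ⟨f, rfl⟩, rfl⟩
  · refine (D.a2 μ).subset ?_
    rintro v ⟨f, hf⟩ h
    exact hf (hr v _ (h f f.2))

theorem sg_surj (D : PD F P) :
    Function.Surjective (sg D : Matrix κ κ (T D) →+* Matrix κ κ F) := by
  intro M
  choose x hx using lift_scalar D
  refine ⟨Matrix.of fun i j => x (M i j), ?_⟩
  ext i j
  rw [sg_apply]
  exact hx (M i j)

end Pool.Agent.CUN
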