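import Pool.Agent.CUN.Finr

/-!
# CUN: stabilisation of ranges (package UB)

By `fin_of_sg_zero` for `q ^ n` all ranges of `rho v (q ^ n)` are finite, and `rho v (q ^ n) = 0`
for `v` outside of a finite set `S`. For `v ∈ S` the ranges of `(rho v q) ^ m`, `m ≥ n`, decrease
and are finite, so they are constant for `m ≥ m v`. Take `K ≥ n` larger than all `m v`, `v ∈ S`.
Claim: if `rho v (q ^ (K + 2)) = 0` then `rho v (q ^ (K + 1)) = 0`: for `v ∉ S` it is `0` as
`K + 1 ≥ n`; for `v ∈ S` the ranges agree.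
-/

namespace Pool.Agent.CUN

variable {F : Type} [Field F] [Algebra (ZMod 2) F] {P : Type}
  {κ : Type} [Fintype κ] [DecidableEq κ]

theorem stab (D : PD F P) (q : Matrix κ κ (T D)) (n : ℕ) (h : sg D (q ^ n) = 0) :
    ∃ K, n ≤ K ∧ ∀ v, rho D v (q ^ (K + 2)) = 0 → rho D v (q ^ (K + 1)) = 0 := by
  have hfin := (fin_of_sg_zero D (q ^ n) h).2
  have pw : ∀ v (m K : ℕ), rho D v (q ^ m) = 0 → m ≤ K → rho D v (q ^ K) = 0 := by
    intro v m K hm hK
    rw [← Nat.add_sub_cancel' hK, pow_add, map_mul, hm, zero_mul]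
  have key : ∀ v, ∃ N, ∀ K, N ≤ K → rho D v (q ^ (K + 2)) = 0 → rho D v (q ^ (K + 1)) = 0 := by
    intro v
    by_cases hv : ∃ m, rho D v (q ^ m) = 0
    · obtain ⟨m, hm⟩ := hv
      exact ⟨m, fun K hK _ => pw v m (K + 1) hm (hK.trans (Nat.le_succ K))⟩
    · exact ⟨0, fun K _ h2 => absurd ⟨_, h2⟩ hv⟩
  choose N hN using key
  refine ⟨max n (hfin.toFinset.sup N), le_max_left _ _, fun v => ?_⟩
  by_cases hv : rho D v (q ^ n) = 0
  · intro _
    exact pw v n _ hv ((le_max_left n (hfin.toFinset.sup N)).trans (Nat.le_succ _))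
  · exact hN v _ ((Finset.le_sup (f := N) (hfin.mem_toFinset.2 hv)).trans (le_max_right _ _))

end Pool.Agent.CUN
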