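import Pool.Agent.CUN.UA
import Pool.Agent.CUN.UB

/-!
# CUN: units (package U)

`q = 1 + u`, `t = sg q`, `n = Fintype.card κ`.
If `sg (q ^ n) ≠ 0` take `K = n`; if `sg (q ^ n) = 0` take `K` of `stab`. By `mat_reg` there is `b`
with `q ^ (K + 1) * b * q ^ (K + 1) = q ^ (K + 1)`; `e = q ^ (K + 1) * b`. `e * e = e`,
`e * q ^ (K + 1) = q ^ (K + 1)`. `u` and `u'` commute with `q`, so
`e * (u * e) = e * q ^ (K + 1) * u * b = q ^ (K + 1) * u * b = u * e`, and the same for `u'`.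

Case A (`sg (q ^ n) ≠ 0`): then `t ^ m ≠ 0` for all `m` (a nilpotent `n × n` matrix over a field
has `n`-th power zero, `Matrix.isNilpotent...`/`LinearMap.IsNilpotent...finrank`; only: `t ^ (K+2) ≠ 0`).
`sg e ≠ 0` since `sg e * t ^ (K + 1) = t ^ (K + 1) ≠ 0`; `sg u * sg e ≠ sg e`, as otherwise
`t * sg e = sg e + sg u * sg e = 0` (characteristic two), `t ^ (K + 2) = t * sg e * t ^ (K + 1) = 0`.
Apply `caseA`.

Case B: `sg (q ^ (K + 1)) = 0`, so `sg e = 0`. Apply `lemmaD` with `E = e`, `δ = u * e`: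
if `rho v (u * e) = rho v e` then `rho v (q * e) = 0`, so
`rho v (q ^ (K + 2)) = rho v (q * e * q ^ (K + 1)) = 0`, so `rho v (q ^ (K + 1)) = 0` by `stab`, so
`rho v e = 0`. This gives `TN (dbl e) (dbl (u * e))`; apply `TN.map (dblHom _ _)`.
-/

namespace Pool.Agent.CUN

variable {F : Type} [Field F] [Algebra (ZMod 2) F] {P : Type}
  {κ : Type} [Fintype κ] [DecidableEq κ]

open Polynomial in
private theorem cunU_nil {F : Type} [Field F] {κ : Type} [Fintype κ] [DecidableEq κ]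
    (M : Matrix κ κ F) (h : IsNilpotent M) : M ^ Fintype.card κ = 0 := by
  have h1 := Matrix.isNilpotent_charpoly_sub_pow_of_isNilpotent h
  have h2 : M.charpoly = X ^ Fintype.card κ := sub_eq_zero.1 h1.eq_zero
  have h3 := Matrix.aeval_self_charpoly M
  rwa [h2, map_pow, aeval_X] at h3

private theorem cunU_main {B : Type} [Ring B] {u u' y : B} {K : ℕ} (huu' : u * u' = 1)
    (hu'u : u' * u = 1) (hy : (1 + u) ^ (K + 1) * y * (1 + u) ^ (K + 1) = (1 + u) ^ (K + 1)) :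
    (1 + u) ^ (K + 1) * y * ((1 + u) ^ (K + 1) * y) = (1 + u) ^ (K + 1) * y ∧
      (1 + u) ^ (K + 1) * y * (1 + u) ^ (K + 1) = (1 + u) ^ (K + 1) ∧
      (1 + u) ^ (K + 1) * y * (u * ((1 + u) ^ (K + 1) * y)) = u * ((1 + u) ^ (K + 1) * y) ∧
      (1 + u) ^ (K + 1) * y * (u' * ((1 + u) ^ (K + 1) * y)) = u' * ((1 + u) ^ (K + 1) * y) := by
  have c1 : Commute u ((1 + u) ^ (K + 1)) :=
    ((Commute.one_right u).add_right (Commute.refl u)).pow_right _
  have c2 : Commute u' ((1 + u) ^ (K + 1)) :=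
    ((Commute.one_right u').add_right (hu'u.trans huu'.symm)).pow_right _
  have key : ∀ w : B, Commute w ((1 + u) ^ (K + 1)) →
      (1 + u) ^ (K + 1) * y * (w * ((1 + u) ^ (K + 1) * y)) = w * ((1 + u) ^ (K + 1) * y) := by
    intro w hw
    rw [← mul_assoc w, hw.eq, ← mul_assoc, ← mul_assoc, hy]
  exact ⟨by rw [← mul_assoc, hy], hy, key u c1, key u' c2⟩

private theorem cunU_B {B C : Type} [Ring B] [Ring C] (σ : B →+* C) {P : Type} {E : P → Type}
    [∀ v, Ring (E v)] (hE : ∀ v (x : E v), x + x = 0) (ρ : ∀ v, B →+* E v) {u e b : B}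
    {n K : ℕ} (hK : n ≤ K) (h : σ ((1 + u) ^ n) = 0)
    (hst : ∀ v, ρ v ((1 + u) ^ (K + 2)) = 0 → ρ v ((1 + u) ^ (K + 1)) = 0)
    (he : e * e = e) (hb : (1 + u) ^ (K + 1) * b = e)
    (heq : e * (1 + u) ^ (K + 1) = (1 + u) ^ (K + 1)) (hue : e * (u * e) = u * e) :
    e * (u * e) * e = u * e ∧ σ (u * e) = 0 ∧ ∀ v, ρ v (u * e) = ρ v e → ρ v e = 0 := by
  have h1 : σ ((1 + u) ^ (K + 1)) = 0 := by
    have h2 : K + 1 = n + (K + 1 - n) := by omega
    rw [h2, pow_add, map_mul, h, zero_mul]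
  have h2 : σ e = 0 := by rw [← hb, map_mul, h1, zero_mul]
  refine ⟨by rw [hue, mul_assoc, he], by rw [map_mul, h2, mul_zero], fun v hv => ?_⟩
  have h4 : ρ v ((1 + u) * e) = 0 := by
    rw [add_mul, one_mul, map_add, hv]
    exact hE v _
  have h5 : ρ v ((1 + u) ^ (K + 2)) = 0 := by
    rw [pow_succ', ← heq, ← mul_assoc, map_mul, h4, zero_mul]
  rw [← hb, map_mul, hst v h5, zero_mul]

private theorem cunU_A {B C : Type} [Ring B] [Ring C] (σ : B →+* C) (hC : ∀ x : C, x + x = 0)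
    {u e : B} {n : ℕ} (ht : ∀ m, (σ (1 + u)) ^ m ≠ 0)
    (heq : e * (1 + u) ^ (n + 1) = (1 + u) ^ (n + 1)) : σ e ≠ 0 ∧ σ u * σ e ≠ σ e := by
  have h1 : σ e * (σ (1 + u)) ^ (n + 1) = (σ (1 + u)) ^ (n + 1) := by
    rw [← map_pow, ← map_mul, heq]
  constructor
  · intro h2
    rw [h2, zero_mul] at h1
    exact ht _ h1.symm
  · intro h2
    have h3 : σ (1 + u) * σ e = 0 := by
      rw [map_add, map_one, add_mul, one_mul, h2]
      exact hC _
    apply ht (n + 2)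
    rw [pow_succ', ← h1, ← mul_assoc, h3, zero_mul]

theorem unit_two (D : PD F P) (u u' : Matrix κ κ (T D)) (huu' : u * u' = 1)
    (hu'u : u' * u = 1) :
    ∃ (K : ℕ) (e b : Matrix κ κ (T D)), e * e = e ∧ (1 + u) ^ (K + 1) * b = e ∧
      e * (1 + u) ^ (K + 1) = (1 + u) ^ (K + 1) ∧ TN (dbl (dbl e)) (dbl (dbl (u * e))) := by
  have htwo : ∀ x : Matrix κ κ F, x + x = 0 := by
    intro x
    have h1 : (1 : F) + 1 = 0 := by
      have h2 := map_add (algebraMap (ZMod 2) F) 1 1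
      rw [map_one, show (1 : ZMod 2) + 1 = 0 from rfl, map_zero] at h2
      exact h2.symm
    ext i j
    rw [Matrix.add_apply, Matrix.zero_apply]
    calc x i j + x i j = x i j * (1 + 1) := by ring
      _ = 0 := by rw [h1, mul_zero]
  have hE : ∀ (v : P) (x : Module.End (ZMod 2) (κ → D.V v)), x + x = 0 := by
    intro v x
    have h5 : (1 + 1 : ZMod 2) = 0 := rfl
    have h7 : x + x = (1 + 1 : ZMod 2) • x := by rw [add_smul, one_smul]
    rw [h7, h5, zero_smul]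
  by_cases h : sg D ((1 + u) ^ Fintype.card κ) = 0
  · obtain ⟨K, hK, hst⟩ := stab D (1 + u) (Fintype.card κ) h
    obtain ⟨y, hy⟩ := mat_reg D ((1 + u) ^ (K + 1))
    obtain ⟨he, heq, hue, -⟩ := cunU_main (B := Matrix κ κ (T D)) (K := K) huu' hu'u hy
    obtain ⟨h1, h2, h3⟩ := cunU_B (B := Matrix κ κ (T D)) (C := Matrix κ κ F) (sg D)
      (E := fun v => Module.End (ZMod 2) (κ → D.V v)) hE (fun v => rho D v) hK h hst he rfl
      heq hue
    have h4 := TN.map (B := Matrix (κ ⊕ κ) (κ ⊕ κ) (T D))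
      (C := Matrix ((κ ⊕ κ) ⊕ κ ⊕ κ) ((κ ⊕ κ) ⊕ κ ⊕ κ) (T D)) (dblHom (T D) (κ ⊕ κ))
      (lemmaD D _ _ he h1 h2 h3)
    rw [dblHom_apply, dblHom_apply] at h4
    exact ⟨K, _, y, he, rfl, heq, h4⟩
  · have ht : ∀ m, (sg D (1 + u)) ^ m ≠ 0 := by
      intro m hm
      apply h
      have h1 : sg D ((1 + u) ^ Fintype.card κ) = (sg D (1 + u)) ^ Fintype.card κ :=
        map_pow (sg D) (1 + u) _
      rw [h1]
      exact cunU_nil _ ⟨m, hm⟩
    obtain ⟨y, hy⟩ := mat_reg D ((1 + u) ^ (Fintype.card κ + 1))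
    obtain ⟨he, heq, hue, hu'e⟩ := cunU_main (B := Matrix κ κ (T D)) (K := Fintype.card κ)
      huu' hu'u hy
    obtain ⟨h0, hns⟩ := cunU_A (B := Matrix κ κ (T D)) (sg D) htwo ht heq
    exact ⟨Fintype.card κ, _, y, he, rfl, heq, caseA D u u' _ he huu' hu'u hue hu'e h0 hns⟩

end Pool.Agent.CUN
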