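import Pool.Agent.CUN.Reg
import Pool.Agent.CUN.Lift
import Pool.Agent.CUN.NoSc
import Pool.Agent.CUN.SL
import Pool.Agent.CUN.LD

/-!
# CUN: units, case A (package UA)

`β • sg e = sg u * sg e` is impossible: `no_scalar` gives `β = 1`, excluded by `hns`.
Apply `slemma` with `B = Matrix (κ ⊕ κ) (κ ⊕ κ) (T D)`, `σ = sg D`, `Dm = dblHom (T D) (κ ⊕ κ)`,
`E = dbl e`, `M = dbl (u * e)`:
* `hlift` is `lift_idem` with `sg_surj` and `mat_reg`;
* `hD`: for `f, δ` with `(sg f).rank = 1`, `sg δ = 0` apply `lemmaD`; its hypothesis: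
  if `rho v δ = rho v f` for some `v` then `rho v f` has finite range (`fin_of_sg_zero`), so
  `sg f = 0` (`sg_zero_of_fin`), contradicting the rank;
* `E * E = E`, `E * M * E = M` by `he`, `hue`; `sg (dbl e) ≠ 0`, as `sg (dbl e)` has the block
  `sg e`; the trace of `sg (dbl (u * e))` is `t + t = 0` (characteristic two:
  `CharP F 2` from `Algebra (ZMod 2) F`);
* `sg (dbl (u * e)) = c • sg (dbl e)` would give `sg u * sg e = c • sg e` (first block).
-/

namespace Pool.Agent.CUN

variable {F : Type} [Field F] [Algebra (ZMod 2) F] {P : Type}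
  {κ : Type} [Fintype κ] [DecidableEq κ]

private theorem dbl_mul' {A : Type} [Ring A] (x y : Matrix κ κ A) :
    (dbl x * dbl y : Matrix (κ ⊕ κ) (κ ⊕ κ) A) = dbl (x * y) := by
  simp [dbl, Matrix.fromBlocks_multiply]

private theorem sg_dbl (D : PD F P) (x : Matrix κ κ (T D)) :
    sg D (dbl x) = dbl (sg D x) := by
  ext i j
  rw [sg_apply]
  rcases i with i | i <;> rcases j with j | j <;>
    simp [dbl, sg_apply]

theorem caseA (D : PD F P) (u u' e : Matrix κ κ (T D)) (he : e * e = e)
    (huu' : u * u' = 1) (hu'u : u' * u = 1) (hue : e * (u * e) = u * e)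
    (hu'e : e * (u' * e) = u' * e) (h0 : sg D e ≠ 0) (hns : sg D u * sg D e ≠ sg D e) :
    TN (dbl (dbl e)) (dbl (dbl (u * e))) := by
  have hE : (dbl e : Matrix (κ ⊕ κ) (κ ⊕ κ) (T D)) * dbl e = dbl e := by
    rw [dbl_mul', he]
  have hM : (dbl e : Matrix (κ ⊕ κ) (κ ⊕ κ) (T D)) * dbl (u * e) * dbl e = dbl (u * e) := by
    have h6 : u * e * e = u * e := (Matrix.mul_assoc u e e).trans (by rw [he])
    rw [dbl_mul', dbl_mul', hue]
    exact congrArg dbl h6
  have hinj : ∀ x y : Matrix κ κ F, (dbl x : Matrix (κ ⊕ κ) (κ ⊕ κ) F) = dbl y → x = y := by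
    intro x y hxy
    have := congrArg Matrix.toBlocks₁₁ hxy
    simpa [dbl] using this
  have h2 : (2 : F) = 0 := by
    have : (algebraMap (ZMod 2) F) 2 = 2 := map_ofNat _ 2
    rw [← this]
    have h : (2 : ZMod 2) = 0 := by decide
    rw [h, map_zero]
  have key := slemma (B := Matrix (κ ⊕ κ) (κ ⊕ κ) (T D))
    (B' := Matrix ((κ ⊕ κ) ⊕ (κ ⊕ κ)) ((κ ⊕ κ) ⊕ (κ ⊕ κ)) (T D)) (k := F) (n := κ ⊕ κ)
    (sg D) (dblHom (T D) (κ ⊕ κ))
    (fun E hE f' hf h1 h2 => lift_idem (sg D) (sg_surj D) (mat_reg D) E hE f' hf h1 h2)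
    (fun f δ hf hδ hr hs => by
      refine lemmaD D f δ hf hδ hs ?_
      intro v hv
      exfalso
      have hfin : (Set.range (rho D v f)).Finite := by
        rw [← hv]
        exact (fin_of_sg_zero D δ hs).1 v
      have := sg_zero_of_fin D v f hfin
      rw [this, Matrix.rank_zero] at hr
      exact absurd hr (by norm_num))
    (dbl e) (dbl (u * e)) hE hM
    (by
      intro h
      apply h0
      apply hinj
      rw [← sg_dbl, h]
      simp [dbl])
    (by
      rw [sg_dbl]
      have h5 : ∀ y : Matrix κ κ F, (dbl y : Matrix (κ ⊕ κ) (κ ⊕ κ) F).trace =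
          y.trace + y.trace := by
        intro y
        simp [dbl, Matrix.trace, Fintype.sum_sum_type]
      rw [h5, ← two_mul, h2, zero_mul])
    (by
      left
      intro c hc
      have h3 : sg D u * sg D e = c • sg D e := by
        rw [← map_mul]
        apply hinj
        rw [← sg_dbl, hc, sg_dbl]
        simp [dbl, Matrix.fromBlocks_smul]
      have h4 := no_scalar D u u' e he huu' hu'u hue hu'e c h3 h0
      apply hns
      rw [h3, h4, one_smul])
  exact key

end Pool.Agent.CUN
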